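import Mathlib

set_option autoImplicit false

/-!
Basic facts on orthogonal groups over finite fields: Siegel (Eichler) transformations,
existence of singular vectors, and membership of Siegel transformations in the
commutator subgroup.
-/

namespace Pool.Agent.H49.UDN

open QuadraticMap Module
open scoped commutatorElement

section general

variable {F V : Type*} [Field F] [AddCommGroup V] [Module F V]

lemma Qadd (Q : QuadraticForm F V) (x y : V) : Q (x + y) = Q x + Q y + polar Q x y :=
  QuadraticMap.map_add Q x y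

lemma Qsmul (Q : QuadraticForm F V) (a : F) (x : V) : Q (a • x) = a * a * Q x := by
  rw [QuadraticMap.map_smul, smul_eq_mul]

lemma polar_self' (Q : QuadraticForm F V) (x : V) : polar Q x x = 2 * Q x := by
  rw [QuadraticMap.polar_self, nsmul_eq_mul]; norm_num

/-- The orthogonal group of a quadratic form. -/
def orth (Q : QuadraticForm F V) : Subgroup (V ≃ₗ[F] V) where
  carrier := {g | ∀ x, Q (g x) = Q x}
  mul_mem' := by
    intro a b ha hb x
    rw [LinearEquiv.mul_apply, ha, hb]
  one_mem' := by
    intro x
    rfl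
  inv_mem' := by
    intro a ha x
    have h := ha (a⁻¹ x)
    rw [← h, ← LinearEquiv.mul_apply, mul_inv_cancel]
    rfl

lemma mem_orth {Q : QuadraticForm F V} {g : V ≃ₗ[F] V} : g ∈ orth Q ↔ ∀ x, Q (g x) = Q x := Iff.rfl

lemma polar_of_isom (Q : QuadraticForm F V) {f : V → V} (hadd : ∀ x y, f (x + y) = f x + f y)
    (h : ∀ x, Q (f x) = Q x) (x y : V) : polar Q (f x) (f y) = polar Q x y := by
  simp only [polar, ← hadd, h]

lemma orth_polar {Q : QuadraticForm F V} (g : orth Q) (x y : V) :
    polar Q (g.1 x) (g.1 y) = polar Q x y :=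
  polar_of_isom Q (fun x y => map_add g.1 x y) g.2 x y

/-- The Siegel transformation as a linear map. -/
def eichLin (Q : QuadraticForm F V) (u v : V) : V →ₗ[F] V :=
  LinearMap.id + (polarBilin Q u).smulRight v - (polarBilin Q v).smulRight u
    - (Q v) • (polarBilin Q u).smulRight u

lemma eichLin_apply (Q : QuadraticForm F V) (u v x : V) :
    eichLin Q u v x = x + polar Q u x • v - polar Q v x • u - (Q v * polar Q u x) • u := by
  simp [eichLin, mul_smul]

lemma eichLin_isom (Q : QuadraticForm F V) (u v : V) (hu : Q u = 0) (huv : polar Q u v = 0)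
    (x : V) : Q (eichLin Q u v x) = Q x := by
  have hvu : polar Q v u = 0 := by rw [polar_comm]; exact huv
  have huu : polar Q u u = 0 := by rw [polar_self', hu, mul_zero]
  have hxu : polar Q x u = polar Q u x := polar_comm _ _ _
  have hxv : polar Q x v = polar Q v x := polar_comm _ _ _
  rw [eichLin_apply]
  have : x + polar Q u x • v - polar Q v x • u - (Q v * polar Q u x) • u
      = x + (polar Q u x • v + (-(polar Q v x + Q v * polar Q u x)) • u) := by
    module
  rw [this, Qadd, Qadd, Qsmul, Qsmul, hu]
  simp only [polar_add_right, polar_smul_right, polar_smul_left, hvu, hxu, hxv, smul_eq_mul]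
  ring

lemma eichLin_comp (Q : QuadraticForm F V) (u v w : V) (hu : Q u = 0) (huv : polar Q u v = 0)
    (huw : polar Q u w = 0) (x : V) :
    eichLin Q u v (eichLin Q u w x) = eichLin Q u (v + w) x := by
  have hvu : polar Q v u = 0 := by rw [polar_comm]; exact huv
  have huu : polar Q u u = 0 := by rw [polar_self', hu, mul_zero]
  simp only [eichLin_apply, polar_sub_right, polar_add_right, polar_smul_right, polar_add_left,
    huu, huw, hvu, Qadd, smul_eq_mul]
  module

lemma eichLin_zero (Q : QuadraticForm F V) (u x : V) : eichLin Q u 0 x = x := by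
  simp [eichLin_apply, polar_zero_left]

/-- The Siegel transformation as an element of the orthogonal group. -/
def eich (Q : QuadraticForm F V) (u v : V) (hu : Q u = 0) (huv : polar Q u v = 0) : orth Q :=
  ⟨LinearEquiv.ofLinearMap (eichLin Q u v) (eichLin Q u (-v))
    (by
      ext x
      have h : polar Q u (-v) = 0 := by rw [polar_neg_right, huv, neg_zero]
      rw [LinearMap.comp_apply, eichLin_comp Q u v (-v) hu huv h, add_neg_cancel, eichLin_zero]
      rfl)
    (by
      ext x
      have h : polar Q u (-v) = 0 := by rw [polar_neg_right, huv, neg_zero]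
      rw [LinearMap.comp_apply, eichLin_comp Q u (-v) v hu h huv, neg_add_cancel, eichLin_zero]
      rfl), by
    intro x
    exact eichLin_isom Q u v hu huv x⟩

lemma eich_apply (Q : QuadraticForm F V) (u v : V) (hu : Q u = 0) (huv : polar Q u v = 0) (x : V) :
    (eich Q u v hu huv).1 x = eichLin Q u v x := rfl

lemma orth_ext {Q : QuadraticForm F V} {g h : orth Q} (H : ∀ x, g.1 x = h.1 x) : g = h :=
  Subtype.ext (LinearEquiv.ext H)

lemma orth_mul_apply {Q : QuadraticForm F V} (g h : orth Q) (x : V) :
    (g * h).1 x = g.1 (h.1 x) := rfl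

lemma orth_inv_apply_self {Q : QuadraticForm F V} (g : orth Q) (x : V) : (g⁻¹).1 (g.1 x) = x := by
  rw [← orth_mul_apply, inv_mul_cancel]; rfl

lemma orth_apply_inv_self {Q : QuadraticForm F V} (g : orth Q) (x : V) : g.1 ((g⁻¹).1 x) = x := by
  rw [← orth_mul_apply, mul_inv_cancel]; rfl

lemma eichLin_conj {Q : QuadraticForm F V} (g : orth Q) (u v x : V) :
    g.1 (eichLin Q u v x) = eichLin Q (g.1 u) (g.1 v) (g.1 x) := by
  have hv : Q (g.1 v) = Q v := g.2 v
  simp only [eichLin_apply, map_sub, map_add, map_smul, orth_polar, hv]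

/-- Commutator formula for Siegel transformations. -/
lemma eich_comm (Q : QuadraticForm F V) (u v a w : V) (hu : Q u = 0) (ha : Q a = 0)
    (huv : polar Q u v = 0) (hau : polar Q a u = 0) (hav : polar Q a v = 0)
    (huw : polar Q u w = 0) (hvw : polar Q v w = 0) (haw : polar Q a w = 1)
    (h' : polar Q u (v - Q v • a) = 0) :
    ⁅eich Q a v ha hav, eich Q u w hu huw⁆ = eich Q u (v - Q v • a) hu h' := by
  rw [commutatorElement_def, mul_inv_eq_iff_eq_mul, mul_inv_eq_iff_eq_mul]
  apply orth_ext
  intro x
  simp only [orth_mul_apply, eich_apply]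
  rw [← eich_apply Q a v ha hav, eichLin_conj]
  have h1 : (eich Q a v ha hav).1 u = u := by
    have hvu : polar Q v u = 0 := by rw [polar_comm]; exact huv
    rw [eich_apply, eichLin_apply, hau, hvu]
    simp
  have h2 : (eich Q a v ha hav).1 w = (v - Q v • a) + w := by
    rw [eich_apply, eichLin_apply, haw, hvw]
    module
  rw [h1, h2, eich_apply, eichLin_comp Q u _ _ hu h' huw]

/-- Product formula for Siegel transformations. -/
lemma eich_mul (Q : QuadraticForm F V) (u v w : V) (hu : Q u = 0) (huv : polar Q u v = 0)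
    (huw : polar Q u w = 0) (huvw : polar Q u (v + w) = 0) :
    eich Q u v hu huv * eich Q u w hu huw = eich Q u (v + w) hu huvw := by
  apply orth_ext
  intro x
  simp only [orth_mul_apply, eich_apply]
  exact eichLin_comp Q u v w hu huv huw x

end general

section finite

variable {F V : Type*} [Field F] [Finite F] [AddCommGroup V] [Module F V]

/-- Chevalley-Warning: a quadratic form in three variables has a nontrivial zero. -/
lemma exists_singular_fun (Q : QuadraticForm F V) (b : Fin 3 → V) :
    ∃ x : Fin 3 → F, x ≠ 0 ∧ Q (∑ i, x i • b i) = 0 := by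
  classical
  have := Fintype.ofFinite F
  obtain ⟨p, hp⟩ := CharP.exists F
  have hprime : p.Prime := CharP.char_is_prime F p
  let P : MvPolynomial (Fin 3) F :=
    MvPolynomial.C (Q (b 0)) * MvPolynomial.X 0 ^ 2 + MvPolynomial.C (Q (b 1)) * MvPolynomial.X 1 ^ 2
    + MvPolynomial.C (Q (b 2)) * MvPolynomial.X 2 ^ 2
    + MvPolynomial.C (polar Q (b 0) (b 1)) * (MvPolynomial.X 0 * MvPolynomial.X 1)
    + MvPolynomial.C (polar Q (b 0) (b 2)) * (MvPolynomial.X 0 * MvPolynomial.X 2)
    + MvPolynomial.C (polar Q (b 1) (b 2)) * (MvPolynomial.X 1 * MvPolynomial.X 2)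
  have hev : ∀ x : Fin 3 → F, MvPolynomial.eval x P = Q (∑ i, x i • b i) := by
    intro x
    simp only [P, Fin.sum_univ_three, Qadd, Qsmul, polar_add_left, polar_smul_left,
      polar_smul_right, map_add, map_mul, map_pow, MvPolynomial.eval_C, MvPolynomial.eval_X,
      smul_eq_mul]
    ring
  have hsq : ∀ (c : F) (i : Fin 3), (MvPolynomial.C c * MvPolynomial.X i ^ 2 :
      MvPolynomial (Fin 3) F).totalDegree ≤ 2 := by
    intro c i
    refine (MvPolynomial.totalDegree_mul _ _).trans ?_
    rw [MvPolynomial.totalDegree_C, zero_add]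
    refine (MvPolynomial.totalDegree_pow _ _).trans ?_
    rw [MvPolynomial.totalDegree_X]
  have hxy : ∀ (c : F) (i j : Fin 3), (MvPolynomial.C c * (MvPolynomial.X i * MvPolynomial.X j) :
      MvPolynomial (Fin 3) F).totalDegree ≤ 2 := by
    intro c i j
    refine (MvPolynomial.totalDegree_mul _ _).trans ?_
    rw [MvPolynomial.totalDegree_C, zero_add]
    refine (MvPolynomial.totalDegree_mul _ _).trans ?_
    rw [MvPolynomial.totalDegree_X, MvPolynomial.totalDegree_X]
  have hdeg : P.totalDegree ≤ 2 := by
    refine (MvPolynomial.totalDegree_add _ _).trans (max_le ?_ (hxy _ _ _))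
    refine (MvPolynomial.totalDegree_add _ _).trans (max_le ?_ (hxy _ _ _))
    refine (MvPolynomial.totalDegree_add _ _).trans (max_le ?_ (hxy _ _ _))
    refine (MvPolynomial.totalDegree_add _ _).trans (max_le ?_ (hsq _ _))
    exact (MvPolynomial.totalDegree_add _ _).trans (max_le (hsq _ _) (hsq _ _))
  have hdvd : p ∣ Fintype.card {x : Fin 3 → F // MvPolynomial.eval x P = 0} := by
    apply char_dvd_card_solutions p
    simp only [Fintype.card_fin]
    omega
  have h0 : MvPolynomial.eval (0 : Fin 3 → F) P = 0 := by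
    rw [hev]
    simp
  have hcard : 1 < Fintype.card {x : Fin 3 → F // MvPolynomial.eval x P = 0} := by
    have hpos : 0 < Fintype.card {x : Fin 3 → F // MvPolynomial.eval x P = 0} :=
      Fintype.card_pos_iff.2 ⟨⟨0, h0⟩⟩
    exact lt_of_lt_of_le hprime.one_lt (Nat.le_of_dvd hpos hdvd)
  obtain ⟨⟨x, hx⟩, hne⟩ := Fintype.exists_ne_of_one_lt_card hcard ⟨0, h0⟩
  refine ⟨x, ?_, ?_⟩
  · intro h
    apply hne
    exact Subtype.ext h
  · rw [← hev]
    exact hx

/-- A subspace of dimension at least three contains a nonzero singular vector. -/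
lemma exists_singular (Q : QuadraticForm F V) (W : Submodule F V)
    (h : 3 ≤ finrank F W) : ∃ x ∈ W, x ≠ 0 ∧ Q x = 0 := by
  obtain ⟨f, hf⟩ := exists_linearIndependent_of_le_finrank h
  obtain ⟨x, hx, hQ⟩ := exists_singular_fun Q (fun i => (f i : V))
  refine ⟨∑ i, x i • (f i : V), ?_, ?_, hQ⟩
  · exact Submodule.sum_mem _ (fun i _ => Submodule.smul_mem _ _ (f i).2)
  · intro h0
    apply hx
    have h1 : ∑ i, x i • f i = 0 := by
      apply Subtype.ext
      push_cast
      exact h0
    funext i
    exact (Fintype.linearIndependent_iff.1 hf) x h1 i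

end finite

end Pool.Agent.H49.UDN
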