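import Pool.Agent.H49.UDN.EMem

set_option autoImplicit false
set_option linter.unusedSectionVars false

/-!
A nondegenerate quadratic space with a Lagrangian is hyperbolic, and it has no irreducible
isometry in dimension at least four.
-/

namespace Pool.Agent.H49.UDN

open QuadraticMap Module Polynomial

universe u v w

section split

variable {F : Type u} {V : Type v} [Field F] [AddCommGroup V] [Module F V]

/-- The space has a totally singular subspace of half the dimension. -/
def Split (Q : QuadraticForm F V) : Prop :=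
  ∃ L : Submodule F V, (∀ x ∈ L, Q x = 0) ∧ 2 * finrank F L = finrank F V

variable [FiniteDimensional F V] {Q : QuadraticForm F V}

lemma Split.iso (hnd : (polarBilin Q).Nondegenerate) (h : Split Q) {r : ℕ}
    (hr : finrank F V = 2 * r) :
    ∃ Φ : ((Fin r → F) × (Fin r → F)) ≃ₗ[F] V, ∀ x, Q (Φ x) = plusForm F r x := by
  classical
  obtain ⟨L, hL, hLd⟩ := h
  have hLr : finrank F L = r := by omega
  have hLL : ∀ x ∈ L, ∀ y ∈ L, polar Q x y = 0 := by
    intro x hx y hy
    rw [polar, hL x hx, hL y hy, hL _ (L.add_mem hx hy)]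
    simp
  let b : Basis (Fin r) F L := finBasisOfFinrankEq F L hLr
  obtain ⟨β, hβ⟩ := LinearMap.BilinMap.toQuadraticMap_surjective Q
  have hβQ : ∀ x, β x x = Q x := by
    intro x
    rw [← hβ]
    rfl
  have hβB : ∀ x y, polar Q x y = β x y + β y x := by
    intro x y
    rw [polar, ← hβQ, ← hβQ, ← hβQ]
    simp only [map_add, LinearMap.add_apply]
    ring
  -- dual vectors
  have hdual : ∀ j : Fin r, ∃ v : V, ∀ x : L, polar Q v x = b.coord j x := by
    intro j
    have hinj : Function.Injective (polarBilin Q) := by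
      rw [← LinearMap.ker_eq_bot]
      exact LinearMap.BilinForm.Nondegenerate.ker_eq_bot hnd
    have hsurj : Function.Surjective (polarBilin Q) := by
      rw [← LinearMap.range_eq_top]
      apply Submodule.eq_top_of_finrank_eq
      rw [LinearMap.finrank_range_of_inj hinj]
      exact (Subspace.dual_finrank_eq (K := F) (V := V)).symm
    obtain ⟨f, hf⟩ := LinearMap.exists_extend (b.coord j)
    obtain ⟨v, hv⟩ := hsurj f
    refine ⟨v, ?_⟩
    intro x
    have e1 : polar Q v x = f x := by
      rw [← hv]
      rfl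
    rw [e1, ← hf]
    rfl
  choose f' hf' using hdual
  let f : Fin r → V := fun i => f' i - ∑ k, β (f' i) (f' k) • (b k : V)
  have hbf' : ∀ i k, polar Q (f' i) (b k : V) = if k = i then 1 else 0 := by
    intro i k
    rw [hf', Basis.coord_apply, Basis.repr_self, Finsupp.single_apply]
  have hsumL : ∀ c : Fin r → F, (∑ k, c k • (b k : V)) ∈ L := by
    intro c
    exact L.sum_mem (fun k _ => L.smul_mem _ (b k).2)
  have hpolsum : ∀ (v : V) (c : Fin r → F), polar Q v (∑ k, c k • (b k : V)) =
      ∑ k, c k * polar Q v (b k : V) := by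
    intro v c
    change polarBilin Q v _ = _
    rw [map_sum]
    apply Finset.sum_congr rfl
    intro k _
    rw [map_smul, smul_eq_mul]
    rfl
  have hpolf' : ∀ (i : Fin r) (c : Fin r → F), polar Q (f' i) (∑ k, c k • (b k : V)) = c i := by
    intro i c
    rw [hpolsum]
    simp [hbf']
  have hfb : ∀ i k, polar Q (f i) (b k : V) = if k = i then 1 else 0 := by
    intro i k
    change polar Q (f' i - ∑ k, β (f' i) (f' k) • (b k : V)) (b k : V) = _
    rw [polar_sub_left, hLL _ (hsumL _) _ (b k).2, sub_zero, hbf']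
  have hff : ∀ i k, polar Q (f i) (f k) = 0 := by
    intro i k
    change polar Q (f' i - ∑ l, β (f' i) (f' l) • (b l : V))
      (f' k - ∑ l, β (f' k) (f' l) • (b l : V)) = 0
    rw [polar_sub_left, polar_sub_right, polar_sub_right, hLL _ (hsumL _) _ (hsumL _), hpolf',
      polar_comm Q (∑ l, β (f' i) (f' l) • (b l : V)) (f' k), hpolf', hβB]
    ring
  have hQf : ∀ i, Q (f i) = 0 := by
    intro i
    change Q (f' i - ∑ l, β (f' i) (f' l) • (b l : V)) = 0
    rw [sub_eq_add_neg, Qadd, polar_neg_right, hpolf', QuadraticMap.map_neg, hL _ (hsumL _), hβQ]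
    ring
  let Ψ : ((Fin r → F) × (Fin r → F)) →ₗ[F] V :=
    { toFun := fun p => ∑ i, p.1 i • (b i : V) + ∑ i, p.2 i • f i
      map_add' := by
        intro x y
        simp only [Prod.fst_add, Prod.snd_add, Pi.add_apply, add_smul, Finset.sum_add_distrib]
        abel
      map_smul' := by
        intro c x
        simp only [Prod.smul_fst, Prod.smul_snd, Pi.smul_apply, smul_eq_mul, mul_smul,
          RingHom.id_apply, smul_add, Finset.smul_sum] }
  have hQsum : ∀ (c : Fin r → F) (s : Finset (Fin r)), Q (∑ i ∈ s, c i • f i) = 0 ∧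
      ∀ k, polar Q (f k) (∑ i ∈ s, c i • f i) = 0 := by
    intro c s
    induction s using Finset.induction_on with
    | empty => simp
    | insert a s ha ih =>
      rw [Finset.sum_insert ha]
      refine ⟨?_, ?_⟩
      · rw [Qadd, Qsmul, hQf, ih.1, polar_smul_left, ih.2]
        simp
      · intro k
        rw [polar_add_right, polar_smul_right, hff, ih.2]
        simp
  have hΨ : ∀ p, Q (Ψ p) = plusForm F r p := by
    intro p
    change Q (∑ i, p.1 i • (b i : V) + ∑ i, p.2 i • f i) = _
    rw [Qadd, hL _ (hsumL _), (hQsum _ _).1, polar_comm, hpolsum, plusForm_apply, add_zero,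
      zero_add]
    apply Finset.sum_congr rfl
    intro k _
    have e1 : polar Q (∑ i, p.2 i • f i) (b k : V) = p.2 k := by
      rw [polar_comm]
      change polarBilin Q (b k : V) _ = _
      rw [map_sum]
      have e2 : ∀ i, polarBilin Q (b k : V) (p.2 i • f i) = if k = i then p.2 i else 0 := by
        intro i
        rw [map_smul, smul_eq_mul]
        change p.2 i * polar Q (b k : V) (f i) = _
        rw [polar_comm, hfb]
        simp
      rw [Finset.sum_congr rfl (fun i _ => e2 i)]
      simp
    rw [e1]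
  have hinj : Function.Injective Ψ := by
    rw [injective_iff_map_eq_zero]
    intro p hp
    by_contra hne
    obtain ⟨w, hw⟩ := exists_polar_ne_zero (plusForm_nondegenerate (F := F) (r := r)) hne
    apply hw
    have e1 : polar (plusForm F r) p w = polar Q (Ψ p) (Ψ w) := by
      rw [polar, polar, ← map_add, hΨ, hΨ, hΨ]
    rw [e1, hp, polar_zero_left]
  have hfr : finrank F ((Fin r → F) × (Fin r → F)) = finrank F V := by
    rw [finrank_plus, hr]
  exact ⟨LinearEquiv.ofInjectiveOfFinrankEq Ψ hinj hfr, fun x => hΨ x⟩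

lemma Split.not_irr [Finite F] (hnd : (polarBilin Q).Nondegenerate) (h : Split Q)
    (hdim : 4 ≤ finrank F V) (t : orth Q) (hirr : IrrOp (t.1 : V →ₗ[F] V)) : False := by
  have h2 : finrank F V % 2 = 0 := by
    obtain ⟨L, _, hL⟩ := h
    omega
  obtain ⟨r, hr⟩ : ∃ r, finrank F V = 2 * r := ⟨finrank F V / 2, by omega⟩
  obtain ⟨Φ, hΦ⟩ := h.iso hnd hr
  let t' : orth (plusForm F r) := ⟨(Φ.trans t.1).trans Φ.symm, by
    intro x
    change plusForm F r (Φ.symm (t.1 (Φ x))) = _
    rw [← hΦ, LinearEquiv.apply_symm_apply, t.2, hΦ]⟩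
  have ht' : ∀ x, t'.1 x = Φ.symm (t.1 (Φ x)) := fun x => rfl
  apply not_irr_plus (F := F) (r := r) (by omega) t'
  intro P hP
  have h1 : ∀ x ∈ P.map (Φ : _ →ₗ[F] V), (t.1 : V →ₗ[F] V) x ∈ P.map (Φ : _ →ₗ[F] V) := by
    rintro _ ⟨x, hx, rfl⟩
    refine ⟨t'.1 x, hP x hx, ?_⟩
    rw [ht']
    exact LinearEquiv.apply_symm_apply Φ _
  rcases hirr _ h1 with h0 | h0
  · left
    apply Submodule.map_injective_of_injective (f := (Φ : _ →ₗ[F] V)) Φ.injective
    rw [h0, Submodule.map_bot]
  · right
    apply Submodule.map_injective_of_injective (f := (Φ : _ →ₗ[F] V)) Φ.injective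
    rw [h0, Submodule.map_top, eq_comm]
    exact LinearEquiv.range Φ

end split

end Pool.Agent.H49.UDN
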