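import Pool.Agent.H49.UDN.Quat

set_option autoImplicit false

/-!
A nondegenerate symmetric form on a two-dimensional `K`-space for which `K` is self-adjoint and
for which `J, J'` have adjoints `τ - J, τ - J'` forces `J, J'` to commute.
-/

namespace Pool.Agent.H49.UDN

open QuadraticMap Module

section beta

variable {F K S : Type*} [Field F] [Field K] [Algebra F K] [Finite K]
  [AddCommGroup S] [Module K S] [Module F S] [IsScalarTower F K S]

/-- An additive map on a finite field with values in an `F`-space that kills all squares is zero. -/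
lemma addHom_eq_zero_of_squares (f : K →ₗ[F] F) (h : ∀ μ : K, f (μ * μ) = 0) (κ : K) :
    f κ = 0 := by
  by_cases h2 : (2 : F) = 0
  · have h2K : (2 : K) = 0 := by
      have := congrArg (algebraMap F K) h2
      rw [map_ofNat, map_zero] at this
      exact this
    have hchar : ringChar K = 2 := by
      have hd : ringChar K ∣ 2 := by
        rw [← ringChar.spec]
        exact_mod_cast h2K
      have hp : (ringChar K).Prime := CharP.char_is_prime K (ringChar K)
      exact (Nat.prime_dvd_prime_iff_eq hp Nat.prime_two).1 hd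
    obtain ⟨μ, hμ⟩ := FiniteField.isSquare_of_char_two hchar κ
    rw [hμ]
    exact h μ
  · have e1 := h (κ + 1)
    have e2 := h κ
    have e3 := h 1
    have e4 : (κ + 1) * (κ + 1) = κ * κ + (2 : F) • κ + 1 * 1 := by
      rw [two_smul]
      ring
    rw [e4, map_add, map_add, map_smul, e2, e3, zero_add, add_zero, smul_eq_mul] at e1
    exact (mul_eq_zero.1 e1).resolve_left h2

variable [FiniteDimensional F S] [FiniteDimensional F K] [FiniteDimensional K S]

lemma beta {J J' : S →ₗ[K] S} {τ ν ζ : K} (h : Rel J J' τ ν ζ)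
    (B : LinearMap.BilinForm F S) (hB : B.Nondegenerate) (hsymm : ∀ x y, B x y = B y x)
    (hK : ∀ (κ : K) (x y : S), B (κ • x) y = B x (κ • y))
    (hJ : ∀ x y, B (J x) y = B x (τ • y - J y)) (hJ' : ∀ x y, B (J' x) y = B x (τ • y - J' y))
    (hp : ∀ x, B x (J x) = B x (J' x)) (hfr : finrank K S = 2)
    (hD : ∀ x, Dmap J J' x = 0 → x = 0) : False := by
  -- step 1
  have hfun : ∀ (G : S →ₗ[K] S), (∀ w, B w (G w) = 0) → ∀ (κ : K) (x : S), B (κ • x) (G x) = 0 := by
    intro G hG κ x
    let f : K →ₗ[F] F :=
      { toFun := fun κ => B (κ • x) (G x)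
        map_add' := by
          intro a b
          rw [add_smul, map_add, LinearMap.add_apply]
        map_smul' := by
          intro a b
          rw [smul_assoc, map_smul, LinearMap.smul_apply, RingHom.id_apply] }
    have : f κ = 0 := by
      apply addHom_eq_zero_of_squares
      intro μ
      change B ((μ * μ) • x) (G x) = 0
      rw [mul_smul, hK, ← map_smul]
      exact hG _
    exact this
  have s1 : ∀ (κ : K) (x : S), B (κ • x) (J x - J' x) = 0 := by
    intro κ x
    have := hfun (J - J') (by
      intro w
      rw [LinearMap.sub_apply, map_sub, hp, sub_self]) κ x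
    simpa using this
  have s2 : ∀ (κ : K) (x : S), B (κ • x) (Dmap J J' x) = 0 := by
    apply hfun
    intro w
    rw [Dmap_apply, map_sub]
    have e1 : B w (J (J' w)) = B (J' w) (τ • w - J w) := by
      rw [hsymm, hJ]
    have e2 : B w (J' (J w)) = B (J w) (τ • w - J' w) := by
      rw [hsymm, hJ']
    have e3 := s1 τ w
    rw [map_sub] at e3
    rw [e1, e2, map_sub, map_sub, hsymm (J' w) (J w), hsymm (J' w), hsymm (J w) (τ • w)]
    linear_combination -e3
  -- step 3: the orthogonal complement of a `K`-line
  have line : ∀ y : S, y ≠ 0 → finrank F ((Submodule.span K {y}).restrictScalars F) = finrank F K := by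
    intro y hy
    have e1 : finrank F K * finrank K (Submodule.span K {y}) = finrank F (Submodule.span K {y}) :=
      Module.finrank_mul_finrank F K (Submodule.span K {y})
    rw [finrank_span_singleton hy, mul_one] at e1
    exact e1.symm
  have s3 : ∀ x : S, x ≠ 0 → ∃ κ : K, J x - J' x = κ • Dmap J J' x := by
    intro x hx
    have hDx : Dmap J J' x ≠ 0 := fun h0 => hx (hD x h0)
    have hfrF : finrank F S = finrank F K * 2 := by
      rw [← hfr]
      exact (Module.finrank_mul_finrank F K S).symm
    have ho := LinearMap.BilinForm.finrank_orthogonal hB ((Submodule.span K {x}).restrictScalars F)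
    rw [line x hx, hfrF] at ho
    have hle : (Submodule.span K {Dmap J J' x}).restrictScalars F ≤
        B.orthogonal ((Submodule.span K {x}).restrictScalars F) := by
      intro w hw
      rw [LinearMap.BilinForm.mem_orthogonal_iff]
      intro y hy
      rw [Submodule.restrictScalars_mem, Submodule.mem_span_singleton] at hw hy
      obtain ⟨a, rfl⟩ := hw
      obtain ⟨b, rfl⟩ := hy
      change B (b • x) (a • Dmap J J' x) = 0
      rw [← hK, smul_smul]
      exact s2 _ _
    have heq := Submodule.eq_of_le_of_finrank_eq hle (by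
      rw [line _ hDx, ho]
      omega)
    have hmem : J x - J' x ∈ B.orthogonal ((Submodule.span K {x}).restrictScalars F) := by
      rw [LinearMap.BilinForm.mem_orthogonal_iff]
      intro y hy
      rw [Submodule.restrictScalars_mem, Submodule.mem_span_singleton] at hy
      obtain ⟨b, rfl⟩ := hy
      exact s1 _ _
    rw [← heq, Submodule.restrictScalars_mem, Submodule.mem_span_singleton] at hmem
    obtain ⟨κ, hκ⟩ := hmem
    exact ⟨κ, hκ.symm⟩
  set δ := (ζ - 2 * ν) * (ζ - τ ^ 2 + 2 * ν) with hδ
  have hDD : ∀ x, Dmap J J' (Dmap J J' x) = δ • x := D_D h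
  -- step 4: scalar
  obtain ⟨c, hc⟩ := LinearMap.exists_eq_smul_id_of_forall_notLinearIndependent
    (f := Dmap J J' ∘ₗ (J - J')) (by
      intro x hli
      by_cases hx : x = 0
      · exact hli.ne_zero 0 (by simp [hx])
      obtain ⟨κ, hκ⟩ := s3 x hx
      have h1 : (Dmap J J' ∘ₗ (J - J')) x = (κ * δ) • x := by
        rw [LinearMap.comp_apply, LinearMap.sub_apply, hκ, map_smul, hDD, smul_smul]
      rw [LinearIndependent.pair_iff] at hli
      have h2 := hli (κ * δ) (-1) (by rw [h1]; module)
      exact one_ne_zero (neg_eq_zero.1 h2.2))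
  have hne : ∃ x : S, x ≠ 0 := by
    by_contra hcon
    push Not at hcon
    have : Subsingleton S := ⟨fun a b => by rw [hcon a, hcon b]⟩
    have := finrank_zero_of_subsingleton (R := K) (M := S)
    omega
  have hδ0 : δ ≠ 0 := by
    intro h0
    obtain ⟨x, hx⟩ := hne
    have h1 := hDD x
    rw [h0, zero_smul] at h1
    exact hx (hD x (hD _ h1))
  have s4 : ∀ x, J x - J' x = (c / δ) • Dmap J J' x := by
    intro x
    have h1 : Dmap J J' (J x - J' x) = c • x := by
      have := LinearMap.congr_fun hc x
      simpa using this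
    have h2 := congrArg (Dmap J J') h1
    rw [hDD, map_smul] at h2
    rw [div_eq_inv_mul, mul_smul, ← h2, smul_smul, inv_mul_cancel₀ hδ0, one_smul]
  -- step 5
  obtain ⟨x, hx⟩ := hne
  have h1 := s4 (J x)
  rw [D_J h, smul_sub, smul_comm _ τ, ← s4, ← map_smul, ← s4, map_sub, h.h3, h.h1] at h1
  have h2 : (ζ - 2 * ν) • x = 0 := by
    have h3 : (ζ - 2 * ν) • x = (τ • J x - ν • x - (τ • J x + τ • J' x - ζ • x - J (J' x)))
        - (τ • (J x - J' x) - (τ • J x - ν • x - J (J' x))) := by
      module
    rw [h3, h1, sub_self]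
  have h3 : ζ - 2 * ν = 0 := (smul_eq_zero.1 h2).resolve_right hx
  apply hδ0
  rw [hδ, h3, zero_mul]

end beta

end Pool.Agent.H49.UDN
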