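import Pool.Agent.H49.UDN.Hyp

set_option autoImplicit false

/-!
The case analysis on a minimal invariant subspace.
-/

namespace Pool.Agent.H49.UDN

open QuadraticMap Module Polynomial

universe u v

section cases

variable {F : Type u} {V : Type v} [Field F] [AddCommGroup V] [Module F V]

/-- There is an irreducible separable quadratic polynomial. -/
lemma exists_tau_nu (F : Type u) [Field F] [Finite F] :
    ∃ τ ν : F, (∀ c : F, c ^ 2 - τ * c + ν ≠ 0) ∧ τ ^ 2 - 4 * ν ≠ 0 := by
  have hninj : ¬ Function.Injective (fun c : F => c ^ 2 - c) := by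
    intro h
    have : (0 : F) = 1 := h (by ring)
    exact zero_ne_one this
  have hnsurj : ¬ Function.Surjective (fun c : F => c ^ 2 - c) := by
    intro h
    exact hninj (Finite.injective_iff_surjective.2 h)
  rw [Function.Surjective] at hnsurj
  push Not at hnsurj
  obtain ⟨a, ha⟩ := hnsurj
  have h1 : ∀ c : F, c ^ 2 - 1 * c + -a ≠ 0 := by
    intro c hc
    apply ha c
    linear_combination hc
  refine ⟨1, -a, h1, ?_⟩
  intro h
  have h2 : (2 : F) ≠ 0 := by
    intro h2
    apply one_ne_zero (α := F)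
    linear_combination h - (2 : F) * a * h2
  apply h1 (1 / 2)
  field_simp
  linear_combination -h

/-- Stabiliser of a subspace. -/
def stab (Q : QuadraticForm F V) (W : Submodule F V) : Subgroup (orth Q) where
  carrier := {h | ∀ x, h.1 x ∈ W ↔ x ∈ W}
  mul_mem' := by
    intro a b ha hb x
    rw [orth_mul_apply, ha, hb]
  one_mem' := by
    intro x
    exact Iff.rfl
  inv_mem' := by
    intro a ha x
    rw [← ha, orth_apply_inv_self]

lemma mem_stab {Q : QuadraticForm F V} {W : Submodule F V} {h : orth Q} :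
    h ∈ stab Q W ↔ ∀ x, h.1 x ∈ W ↔ x ∈ W := Iff.rfl

lemma mem_stab_of [FiniteDimensional F V] {Q : QuadraticForm F V} {W : Submodule F V} {h : orth Q}
    (hW : ∀ x ∈ W, h.1 x ∈ W) : h ∈ stab Q W := by
  have h1 : W.map (h.1 : V →ₗ[F] V) = W := by
    apply Submodule.eq_of_le_of_finrank_le
    · rintro _ ⟨x, hx, rfl⟩
      exact hW x hx
    · rw [LinearEquiv.finrank_map_eq h.1 W]
  rw [mem_stab]
  intro x
  constructor
  · intro hx
    rw [← h1] at hx
    obtain ⟨y, hy, hyx⟩ := hx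
    have : y = x := h.1.injective hyx
    rwa [← this]
  · exact hW x

/-- Centraliser of a linear map. -/
def cent (Q : QuadraticForm F V) (J : V →ₗ[F] V) : Subgroup (orth Q) where
  carrier := {h | ∀ x, h.1 (J x) = J (h.1 x)}
  mul_mem' := by
    intro a b ha hb x
    rw [orth_mul_apply, orth_mul_apply, hb, ha]
  one_mem' := by
    intro x
    rfl
  inv_mem' := by
    intro a ha x
    apply a.1.injective
    rw [orth_apply_inv_self, ha, orth_apply_inv_self]

lemma mem_cent {Q : QuadraticForm F V} {J : V →ₗ[F] V} {h : orth Q} :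
    h ∈ cent Q J ↔ ∀ x, h.1 (J x) = J (h.1 x) := Iff.rfl

variable {Q : QuadraticForm F V}

lemma restrict_nd {W : Submodule F V} (hW : W ⊓ perp Q W = ⊥) :
    (polarBilin (Q.comp W.subtype)).Nondegenerate := by
  have h : ∀ x : W, (∀ y, polar (Q.comp W.subtype) x y = 0) → x = 0 := by
    intro x hx
    have : (x : V) ∈ W ⊓ perp Q W := by
      refine ⟨x.2, ?_⟩
      change (x : V) ∈ perp Q W
      rw [mem_perp]
      intro w hw
      rw [polar_comm]
      exact hx ⟨w, hw⟩
    rw [hW] at this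
    exact Subtype.ext (by simpa using this)
  refine ⟨h, ?_⟩
  intro x hx
  apply h
  intro y
  rw [polar_comm]
  exact hx y

/-- Restriction of an isometry to an invariant subspace. -/
noncomputable def restrOrth [FiniteDimensional F V] (s : orth Q) (W : Submodule F V)
    (hs : ∀ x ∈ W, s.1 x ∈ W) : orth (Q.comp W.subtype) :=
  ⟨LinearEquiv.ofInjectiveEndo ((s.1 : V →ₗ[F] V).restrict hs) (by
      intro a b hab
      apply Subtype.ext
      apply s.1.injective
      exact congrArg Subtype.val hab), by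
    intro x
    change Q (s.1 x) = Q x
    exact s.2 x⟩

lemma restrOrth_apply [FiniteDimensional F V] (s : orth Q) (W : Submodule F V)
    (hs : ∀ x ∈ W, s.1 x ∈ W) (x : W) : (((restrOrth s W hs).1 x : W) : V) = s.1 x := rfl

lemma irrOp_restr [FiniteDimensional F V] (s : orth Q) (W : Submodule F V)
    (hs : ∀ x ∈ W, s.1 x ∈ W)
    (hmin : ∀ P : Submodule F V, P ≤ W → (∀ x ∈ P, s.1 x ∈ P) → P = ⊥ ∨ P = W) :
    IrrOp ((restrOrth s W hs).1 : W →ₗ[F] W) := by
  intro P hP
  rcases hmin (P.map W.subtype) (Submodule.map_subtype_le _ _) (by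
    rintro x ⟨y, hy, rfl⟩
    exact ⟨(restrOrth s W hs).1 y, hP y hy, rfl⟩) with h | h
  · left
    apply Submodule.map_injective_of_injective W.injective_subtype
    rw [h, Submodule.map_bot]
  · right
    rw [eq_top_iff]
    intro x _
    have : (x : V) ∈ P.map W.subtype := by
      rw [h]
      exact x.2
    obtain ⟨y, hy, hyx⟩ := this
    have : y = x := Subtype.ext hyx
    rwa [this] at hy

/-- An irreducible isometry in dimension `2` modulo `4` commutes with a map of unitary type. -/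
lemma unitary_of_irr [Finite F] [FiniteDimensional F V] (hnd : (polarBilin Q).Nondegenerate)
    (t : orth Q) (hirr : IrrOp (t.1 : V →ₗ[F] V)) (hdim : finrank F V % 4 = 2) {τ ν : F}
    (hτν : ∀ c : F, c ^ 2 - τ * c + ν ≠ 0) :
    ∃ J : V →ₗ[F] V, UnitaryLike Q τ ν J ∧ ∀ x, t.1 (J x) = J (t.1 x) := by
  obtain ⟨K, _, _, _, _, _, σ, hadj, h2, h1, hcomm, hfr, hfr1⟩ :=
    irr_structure Q hnd t hirr (by omega)
  obtain ⟨j, hj, hσj⟩ := exists_root σ h2 h1 (by rw [hfr]; exact hdim) hτν
  let J : V →ₗ[F] V :=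
    { toFun := fun x => j • x
      map_add' := fun x y => smul_add j x y
      map_smul' := fun a x => smul_comm j a x }
  have hJ : ∀ x, J x = j • x := fun x => rfl
  have hadjJ : ∀ x y, polar Q (J x) y = polar Q x (τ • y - J y) := by
    intro x y
    rw [hJ, hadj, hσj, sub_smul, algebraMap_smul, hJ]
  have hsq : ∀ x, J (J x) = τ • J x - ν • x := by
    intro x
    rw [hJ, hJ, smul_smul, hj, sub_smul, mul_smul, algebraMap_smul, algebraMap_smul]
  have hct : ∀ x, t.1 (J x) = J (t.1 x) := by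
    intro x
    rw [hJ, hJ, hcomm]
  refine ⟨J, ⟨hsq, hadjJ, ?_, ?_⟩, hct⟩
  · intro x
    have := semilinear_eq_zero (fun x => Q (J x) - ν * Q x)
      (by
        intro x y
        rw [map_add, Qadd, Qadd, hadjJ, hsq]
        have : τ • J y - (τ • J y - ν • y) = ν • y := by abel
        rw [this, polar_smul_right, smul_eq_mul]
        ring)
      (by
        intro a x
        rw [map_smul, Qsmul, Qsmul]
        ring) (t.1 : V →ₗ[F] V)
      (by
        intro x
        change Q (J (t.1 x)) - ν * Q (t.1 x) = _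
        rw [← hct, t.2, t.2]) hirr (by omega) x
    exact sub_eq_zero.1 this
  · intro x
    have := semilinear_eq_zero (fun x => polar Q x (J x) - τ * Q x)
      (by
        intro x y
        rw [map_add, Qadd]
        simp only [polar_add_left, polar_add_right]
        have : polar Q y (J x) = polar Q x (τ • y - J y) := by
          rw [polar_comm, hadjJ]
        rw [this, polar_sub_right, polar_smul_right, smul_eq_mul]
        ring)
      (by
        intro a x
        rw [map_smul, Qsmul, polar_smul_left, polar_smul_right]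
        simp only [smul_eq_mul]
        ring) (t.1 : V →ₗ[F] V)
      (by
        intro x
        change polar Q (t.1 x) (J (t.1 x)) - τ * Q (t.1 x) = _
        rw [← hct, orth_polar, t.2]) hirr (by omega) x
    exact sub_eq_zero.1 this

/-- Gluing maps of unitary type. -/
lemma unitary_glue [FiniteDimensional F V] (s : orth Q) (W : Submodule F V)
    (hs : ∀ x ∈ W, s.1 x ∈ W) (hs' : ∀ x ∈ perp Q W, s.1 x ∈ perp Q W)
    (hc : IsCompl W (perp Q W)) {τ ν : F} (J₁ : W →ₗ[F] W) (J₂ : perp Q W →ₗ[F] perp Q W)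
    (h₁ : UnitaryLike (Q.comp W.subtype) τ ν J₁)
    (h₂ : UnitaryLike (Q.comp (perp Q W).subtype) τ ν J₂)
    (c₁ : ∀ x, (restrOrth s W hs).1 (J₁ x) = J₁ ((restrOrth s W hs).1 x))
    (c₂ : ∀ x, (restrOrth s (perp Q W) hs').1 (J₂ x) = J₂ ((restrOrth s (perp Q W) hs').1 x)) :
    ∃ J : V →ₗ[F] V, UnitaryLike Q τ ν J ∧ ∀ x, s.1 (J x) = J (s.1 x) := by
  let J : V →ₗ[F] V := LinearMap.ofIsCompl hc (W.subtype ∘ₗ J₁) ((perp Q W).subtype ∘ₗ J₂)
  have e₁ : ∀ x : W, J x = (J₁ x : V) := by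
    intro x
    exact LinearMap.ofIsCompl_apply_left hc x
  have e₂ : ∀ x : perp Q W, J x = (J₂ x : V) := by
    intro x
    exact LinearMap.ofIsCompl_apply_right hc x
  have dec : ∀ x : V, ∃ (a : W) (b : perp Q W), x = a + b := by
    intro x
    have : x ∈ W ⊔ perp Q W := by
      rw [hc.sup_eq_top]
      trivial
    obtain ⟨a, ha, b, hb, rfl⟩ := Submodule.mem_sup.1 this
    exact ⟨⟨a, ha⟩, ⟨b, hb⟩, rfl⟩
  have orth0 : ∀ (a : W) (b : perp Q W), polar Q (a : V) (b : V) = 0 := by
    intro a b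
    exact (mem_perp.1 b.2) a a.2
  have orth0' : ∀ (a : W) (b : perp Q W), polar Q (b : V) (a : V) = 0 := by
    intro a b
    rw [polar_comm]
    exact orth0 a b
  refine ⟨J, ⟨?_, ?_, ?_, ?_⟩, ?_⟩
  · intro x
    obtain ⟨a, b, rfl⟩ := dec x
    have k₁ := congrArg Subtype.val (h₁.sq a)
    have k₂ := congrArg Subtype.val (h₂.sq b)
    simp only [Submodule.coe_sub, Submodule.coe_smul] at k₁ k₂
    rw [map_add, map_add, e₁, e₂, e₁, e₂, k₁, k₂]
    module
  · intro x y
    obtain ⟨a, b, rfl⟩ := dec x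
    obtain ⟨c, d, rfl⟩ := dec y
    have k₁ : polar Q (J₁ a : V) (c : V) = polar Q (a : V) (τ • (c : V) - (J₁ c : V)) :=
      h₁.adj a c
    have k₂ : polar Q (J₂ b : V) (d : V) = polar Q (b : V) (τ • (d : V) - (J₂ d : V)) :=
      h₂.adj b d
    rw [map_add, map_add, e₁, e₂, e₁, e₂]
    rw [polar_sub_right, polar_smul_right] at k₁ k₂
    simp only [polar_add_left, polar_add_right, polar_sub_right, polar_smul_right, orth0, orth0',
      k₁, k₂, smul_eq_mul]
    ring
  · intro x
    obtain ⟨a, b, rfl⟩ := dec x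
    have k₁ : Q (J₁ a : V) = ν * Q a := h₁.qv a
    have k₂ : Q (J₂ b : V) = ν * Q b := h₂.qv b
    rw [map_add, e₁, e₂, Qadd, Qadd, k₁, k₂, orth0, orth0]
    ring
  · intro x
    obtain ⟨a, b, rfl⟩ := dec x
    have k₁ : polar Q (a : V) (J₁ a : V) = τ * Q a := h₁.pv a
    have k₂ : polar Q (b : V) (J₂ b : V) = τ * Q b := h₂.pv b
    rw [map_add, e₁, e₂, Qadd]
    simp only [polar_add_left, polar_add_right, orth0, orth0', k₁, k₂]
    ring
  · intro x
    obtain ⟨a, b, rfl⟩ := dec x
    have k₁ : s.1 (J₁ a : V) = (J₁ ((restrOrth s W hs).1 a) : V) :=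
      congrArg Subtype.val (c₁ a)
    have k₂ : s.1 (J₂ b : V) = (J₂ ((restrOrth s (perp Q W) hs').1 b) : V) :=
      congrArg Subtype.val (c₂ b)
    have l₁ : s.1 (a : V) = (((restrOrth s W hs).1 a : W) : V) := rfl
    have l₂ : s.1 (b : V) = (((restrOrth s (perp Q W) hs').1 b : perp Q W) : V) := rfl
    rw [map_add, map_add, map_add, e₁, e₂, k₁, k₂, l₁, l₂, map_add, e₁, e₂]

/-- Conjugate of a map of unitary type. -/
lemma UnitaryLike.conj {τ ν : F} {J : V →ₗ[F] V} (h : UnitaryLike Q τ ν J) (g : orth Q) :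
    UnitaryLike Q τ ν ((g.1 : V →ₗ[F] V) ∘ₗ J ∘ₗ ((g⁻¹).1 : V →ₗ[F] V)) := by
  have hc : ∀ x, ((g.1 : V →ₗ[F] V) ∘ₗ J ∘ₗ ((g⁻¹).1 : V →ₗ[F] V)) x = g.1 (J ((g⁻¹).1 x)) :=
    fun x => rfl
  refine ⟨?_, ?_, ?_, ?_⟩
  · intro x
    rw [hc, hc, orth_inv_apply_self, h.sq, map_sub, map_smul, map_smul, orth_apply_inv_self]
  · intro x y
    rw [hc, hc]
    obtain ⟨x', rfl⟩ : ∃ x', x = g.1 x' := ⟨(g⁻¹).1 x, (orth_apply_inv_self g x).symm⟩
    obtain ⟨y', rfl⟩ : ∃ y', y = g.1 y' := ⟨(g⁻¹).1 y, (orth_apply_inv_self g y).symm⟩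
    rw [orth_inv_apply_self, orth_inv_apply_self, orth_polar, ← map_smul, ← map_sub, orth_polar]
    exact h.adj x' y'
  · intro x
    obtain ⟨x', rfl⟩ : ∃ x', x = g.1 x' := ⟨(g⁻¹).1 x, (orth_apply_inv_self g x).symm⟩
    rw [hc, orth_inv_apply_self, g.2, g.2]
    exact h.qv x'
  · intro x
    obtain ⟨x', rfl⟩ : ∃ x', x = g.1 x' := ⟨(g⁻¹).1 x, (orth_apply_inv_self g x).symm⟩
    rw [hc, orth_inv_apply_self, orth_polar, g.2]
    exact h.pv x'

end cases

end Pool.Agent.H49.UDN
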