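import Pool.Agent.H49.UDN.ESpecial

set_option autoImplicit false
set_option linter.unusedSectionVars false

/-!
Characteristic two: two quadratic forms with commuting polar forms have a common involutory
isometry or a common Lagrangian.
-/

namespace Pool.Agent.H49.UDN

open QuadraticMap Module Polynomial

universe u v w

section core

variable {F : Type u} {M : Type v} [Field F] [Finite F] [CharP F 2] [AddCommGroup M] [Module F M]
  [FiniteDimensional F M]

/-- Conclusion of the main lemma on pairs of forms. -/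
def CoreInv (Q₁ Q₂ : QuadraticForm F M) (z : Module.End F M) : Prop :=
  ∃ C : Module.End F M, IsInv Q₁ C ∧ (∀ x, C (z x) = z (C x)) ∧
    (∀ x, Q₂ (C x) = polar Q₂ x (C x))

/-- Conclusion of the main lemma on pairs of forms. -/
def CoreLag (Q₁ Q₂ : QuadraticForm F M) (z : Module.End F M) : Prop :=
  ∃ L : Submodule F M, (∀ x ∈ L, z x ∈ L) ∧ (∀ x ∈ L, Q₁ x = 0) ∧ (∀ x ∈ L, Q₂ x = 0) ∧
    2 * finrank F L = finrank F M

omit [Finite F] [FiniteDimensional F M] in
lemma q_of_isom {Q : QuadraticForm F M} {x y : M} (h : Q (x + y) = Q x) : Q y = polar Q x y := by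
  rw [Qadd] at h
  have := two_zero (F := F)
  linear_combination h - polar Q x y * this

omit [Finite F] in
lemma eq_of_polar_sq {Q : QuadraticForm F M} (hnd : (polarBilin Q).Nondegenerate) {x y : M}
    (h : ∀ v, polar Q v x * polar Q v x = polar Q v y * polar Q v y) : x = y := by
  by_contra hne
  obtain ⟨v, hv⟩ := exists_polar_ne_zero hnd (sub_ne_zero.2 hne)
  apply hv
  rw [polar_comm, polar_sub_right, mul_self_inj (h v), sub_self]

theorem core (Q₁ Q₂ : QuadraticForm F M) (hnd : (polarBilin Q₁).Nondegenerate)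
    (z : Module.End F M) (hz : SSA Q₁ z) (g : F[X])
    (h2 : ∀ x y, polar Q₂ x y = polar Q₁ (aeval z g x) y) (π : F[X]) (hπ : Irreducible π)
    (hnil : ∃ n : ℕ, aeval z (π ^ n) = 0) (hg : ¬ π ∣ g) (hM : ∃ x : M, x ≠ 0) :
    CoreInv Q₁ Q₂ z ∨ CoreLag Q₁ Q₂ z := by
  classical
  have : Fact (Irreducible π) := ⟨hπ⟩
  have hfd : FiniteDimensional F (AdjoinRoot π) := finite_adjoinRoot hπ.ne_zero
  have hfin : Finite (AdjoinRoot π) := Module.finite_of_finite F
  have hch : CharP (AdjoinRoot π) 2 :=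
    charP_of_injective_algebraMap (algebraMap F (AdjoinRoot π)).injective 2
  obtain ⟨τ, hτ2, hτ, _⟩ := exists_tau F (AdjoinRoot π)
  -- abbreviations
  have hZmul : ∀ (p q : F[X]) (x : M), aeval z (p * q) x = aeval z p (aeval z q x) :=
    fun p q x => aeval_mul_apply z p q x
  have hZcomm : ∀ (p q : F[X]) (x : M), aeval z p (aeval z q x) = aeval z q (aeval z p x) :=
    fun p q x => aeval_comm_apply z p q x
  have hZ1 : ∀ x : M, aeval z (1 : F[X]) x = x := aeval_one_apply z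
  have hZsa : ∀ p : F[X], SA Q₁ (aeval z p) := fun p => hz.sa.aeval p
  have hZssa : ∀ p : F[X], SSA Q₁ (aeval z p) := fun p => hz.aeval p
  have hcyc : ∀ (p q : F[X]) (x : M), polar Q₁ (aeval z p x) (aeval z q x) = 0 := by
    intro p q x
    rw [← hZsa, ← hZmul]
    exact hZssa _ x
  -- polynomials agreeing modulo `π` act in the same way on the socle
  have hmod : ∀ (p q : F[X]) (x : M), aeval z π x = 0 →
      AdjoinRoot.mk π p = AdjoinRoot.mk π q → aeval z p x = aeval z q x := by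
    intro p q x hx hpq
    rw [AdjoinRoot.mk_eq_mk] at hpq
    obtain ⟨r, hr⟩ := hpq
    have h1 : aeval z (p - q) x = 0 := by
      rw [hr, mul_comm, hZmul, hx, map_zero]
    rw [map_sub, LinearMap.sub_apply, sub_eq_zero] at h1
    exact h1
  -- the square root of `g` modulo `π`
  obtain ⟨e0, he0⟩ := exists_sqrt (AdjoinRoot.mk π g)
  obtain ⟨ε, rfl⟩ := AdjoinRoot.mk_surjective e0
  have hg0 : AdjoinRoot.mk π g ≠ 0 := by
    rw [Ne, AdjoinRoot.mk_eq_zero]
    exact hg
  have hε0 : AdjoinRoot.mk π ε ≠ 0 := by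
    intro h
    rw [h, mul_zero] at he0
    exact hg0 he0.symm
  obtain ⟨ε', hε'⟩ := AdjoinRoot.mk_surjective (AdjoinRoot.mk π ε)⁻¹
  have hεε' : AdjoinRoot.mk π (ε' * ε) = AdjoinRoot.mk π 1 := by
    rw [map_mul, hε', inv_mul_cancel₀ hε0, map_one]
  have hεg : AdjoinRoot.mk π (ε * ε) = AdjoinRoot.mk π g := by
    rw [map_mul]
    exact he0
  have hinv : ∀ x, aeval z π x = 0 → aeval z ε' (aeval z ε x) = x := by
    intro x hx
    rw [← hZmul, hmod _ _ x hx hεε', hZ1]
  have hinv' : ∀ x, aeval z π x = 0 → aeval z ε (aeval z ε' x) = x := by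
    intro x hx
    rw [hZcomm]
    exact hinv x hx
  have hsoc : ∀ (p : F[X]) (x : M), aeval z π x = 0 → aeval z π (aeval z p x) = 0 := by
    intro p x hx
    rw [hZcomm, hx, map_zero]
  -- the second form on the socle
  have hpol2 : ∀ x y, aeval z π x = 0 →
      polar Q₂ (aeval z ε' x) (aeval z ε' y) = polar Q₁ x y := by
    intro x y hx
    rw [h2, ← hZsa ε', ← hmod (ε * ε) g _ (hsoc ε' x hx) hεg, hZmul, hinv' x hx, hinv x hx]
  have h2sa : ∀ (p : F[X]) (x y : M), polar Q₂ (aeval z p x) y = polar Q₂ x (aeval z p y) := by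
    intro p x y
    rw [h2, h2, hZcomm, hZsa p]
  have h2ssa : ∀ (p : F[X]) (x : M), polar Q₂ x (aeval z p x) = 0 := by
    intro p x
    rw [h2]
    exact hcyc g p x
  -- lines
  have hline : ∀ y : M, aeval z π y = 0 →
      ∃ (ι : AdjoinRoot π →ₗ[F] M) (β : M →ₗ[F] AdjoinRoot π), IsLine Q₁ τ ι β ∧
        (∀ p, ι (AdjoinRoot.mk π p) = aeval z p y) ∧
        (∀ κ, z (ι κ) = ι (AdjoinRoot.mk π X * κ)) ∧
        (∀ κ κ', polar Q₁ (ι κ) (ι κ') = 0) ∧
        (∀ p v, β (aeval z p v) = AdjoinRoot.mk π p * β v) ∧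
        (∀ v, polar Q₁ v (ι (β v)) = polar Q₁ v y * polar Q₁ v y) ∧
        (∀ v, polar Q₂ v (ι (β v)) = polar Q₁ v (aeval z ε y) * polar Q₁ v (aeval z ε y)) := by
    intro y hy
    obtain ⟨ι, hι⟩ := exists_polyLine z π y hy
    obtain ⟨β, hβ⟩ := exists_line Q₁ τ hτ ι
    have hιp : ∀ (p : F[X]) κ, aeval z p (ι κ) = ι (AdjoinRoot.mk π p * κ) := by
      intro p κ
      obtain ⟨q, rfl⟩ := AdjoinRoot.mk_surjective κ
      rw [hι, ← map_mul, hι, hZmul]
    have hβp : ∀ p v, β (aeval z p v) = AdjoinRoot.mk π p * β v := by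
      intro p v
      exact hβ.comm (hZsa p) (hιp p) v
    have hι1 : ι 1 = y := by
      rw [← (AdjoinRoot.mk π).map_one, hι, hZ1]
    refine ⟨ι, β, hβ, hι, ?_, ?_, hβp, ?_, ?_⟩
    · intro κ
      have := hιp X κ
      rwa [aeval_X] at this
    · intro κ κ'
      obtain ⟨q, rfl⟩ := AdjoinRoot.mk_surjective κ
      obtain ⟨q', rfl⟩ := AdjoinRoot.mk_surjective κ'
      rw [hι, hι]
      exact hcyc _ _ _
    · intro v
      rw [hβ.self, hτ2]
      have : τ (β v) = polar Q₁ v y := by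
        rw [← hι1, hβ.rep, one_mul]
      rw [this]
    · intro v
      have e0 : AdjoinRoot.mk π g = AdjoinRoot.mk π ε * AdjoinRoot.mk π ε := by
        rw [← hεg, RingHom.map_mul]
      rw [h2, hβ.rep, hβp, e0]
      have e1 : β v * (AdjoinRoot.mk π ε * AdjoinRoot.mk π ε * β v) =
          (AdjoinRoot.mk π ε * β v) * (AdjoinRoot.mk π ε * β v) := by ring
      rw [e1, hτ2]
      have : τ (AdjoinRoot.mk π ε * β v) = polar Q₁ v (aeval z ε y) := by
        rw [← hι ε, hβ.rep]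
      rw [this]
  -- first case: a good vector in the socle
  by_cases hA : ∃ e, aeval z π e = 0 ∧
      (∀ p : F[X], Q₁ (aeval z p e) + Q₂ (aeval z ε' (aeval z p e)) = 0) ∧
      ∃ p : F[X], Q₁ (aeval z p e) ≠ 0
  · left
    obtain ⟨e, he, hE, p0, hp0⟩ := hA
    obtain ⟨ι, β, hβ, hι, hιz, hιi, hβp, hβ1, hβ2⟩ := hline e he
    obtain ⟨μ, hμ⟩ := exists_repr_semi hτ (fun κ => Q₁ (ι κ))
      (by
        intro x y
        rw [map_add, Qadd, hιi, add_zero])
      (by
        intro c x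
        rw [map_smul, Qsmul])
    have hμ0 : μ ≠ 0 := by
      rintro rfl
      apply hp0
      have := hμ (AdjoinRoot.mk π p0)
      rw [zero_mul, map_zero, mul_zero] at this
      rw [← hι]
      exact this
    have he0 : e ≠ 0 := by
      rintro rfl
      apply hp0
      rw [map_zero]
      exact map_zero Q₁
    obtain ⟨r, hr⟩ := AdjoinRoot.mk_surjective μ⁻¹
    set y := aeval z r e with hy
    have hyπ : aeval z π y = 0 := hsoc r e he
    obtain ⟨ι', β', hβ', hι', hι'z, hι'i, hβ'p, hβ'1, hβ'2⟩ := hline y hyπ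
    have hιι : ∀ κ, ι' κ = ι (κ * μ⁻¹) := by
      intro κ
      obtain ⟨q, rfl⟩ := AdjoinRoot.mk_surjective κ
      rw [hι', hy, ← hr, ← map_mul, hι, hZmul]
    have hQι' : ∀ κ, Q₁ (ι' κ) = τ κ * τ κ := by
      intro κ
      have := hμ (κ * μ⁻¹)
      rw [hιι, this]
      have e : μ * (κ * μ⁻¹) = κ := by
        field_simp
      rw [e]
    refine ⟨lineOp ι' β', ?_, ?_, ?_⟩
    · apply isInv_of_line hτ2 hβ' hnd hQι' hι'i
      intro κ hκ
      rw [hιι] at hκ
      have := polyLine_injective hπ he he0 hι hκ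
      exact (mul_eq_zero.1 this).resolve_right (inv_ne_zero hμ0)
    · intro x
      exact hβ'.op_comm hz.sa hι'z x
    · intro x
      rw [lineOp_apply, hβ'2]
      -- compute the second form on the line
      obtain ⟨q, hq⟩ := AdjoinRoot.mk_surjective (β' x)
      have e1 := hE (ε * q * r)
      have e2 : aeval z ε' (aeval z (ε * q * r) e) = aeval z (q * r) e := by
        rw [mul_assoc, hZmul ε]
        exact hinv _ (hsoc _ e he)
      have e3 : ι' (β' x) = aeval z (q * r) e := by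
        rw [← hq, hι', hy, hZmul]
      have e4 : aeval z (ε * q * r) e = ι' (AdjoinRoot.mk π ε * β' x) := by
        rw [← hq, ← map_mul, hι', hy, hZmul (ε * q) r]
      rw [e2, e4, hQι', ← e3] at e1
      have e5 : τ (AdjoinRoot.mk π ε * β' x) = polar Q₁ x (aeval z ε y) := by
        rw [← hι' ε, hβ'.rep]
      rw [e5] at e1
      have := two_zero (F := F)
      linear_combination e1 - (polar Q₁ x (aeval z ε y) * polar Q₁ x (aeval z ε y)) * this
  -- second case
  have hB : ∀ e, aeval z π e = 0 →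
      (∀ p : F[X], Q₁ (aeval z p e) + Q₂ (aeval z ε' (aeval z p e)) = 0) →
      ∀ p : F[X], Q₁ (aeval z p e) = 0 := by
    intro e he hE p
    by_contra hne
    exact hA ⟨e, he, hE, p, hne⟩
  have hB2 : ∀ e, aeval z π e = 0 →
      (∀ p : F[X], Q₁ (aeval z p e) + Q₂ (aeval z ε' (aeval z p e)) = 0) →
      ∀ p : F[X], Q₂ (aeval z p e) = 0 := by
    intro e he hE p
    have h1 := hE (ε * p)
    rw [hB e he hE, zero_add, hZmul ε p, hinv _ (hsoc p e he)] at h1
    exact h1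
  -- exact exponent
  have hex : ∃ n : ℕ, aeval z (π ^ n) = 0 := hnil
  set N := Nat.find hex with hN
  have hNz : aeval z (π ^ N) = 0 := Nat.find_spec hex
  have hNmin : ∀ m, m < N → aeval z (π ^ m) ≠ 0 := fun m hm => Nat.find_min hex hm
  have hNge : ∀ m, N ≤ m → ∀ x, aeval z (π ^ m) x = 0 := by
    intro m hm x
    obtain ⟨k, rfl⟩ := Nat.exists_eq_add_of_le hm
    rw [pow_add, mul_comm, hZmul, hNz, LinearMap.zero_apply, map_zero]
  obtain ⟨x0, hx0⟩ := hM
  have hN0 : N ≠ 0 := by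
    intro h0
    rw [h0, pow_zero] at hNz
    apply hx0
    rw [← hZ1 x0, hNz]
    rfl
  obtain ⟨s, hs⟩ : ∃ s, N = s + 1 := ⟨N - 1, by omega⟩
  -- the operator `n` and the vector `w₁`
  set n := aeval z (π ^ s) with hn
  have hπn : ∀ x, aeval z π (n x) = 0 := by
    intro x
    rw [hn, ← hZmul, ← pow_succ', ← hs, hNz]
    rfl
  have hn0 : n ≠ 0 := hNmin s (by omega)
  have hnsa : SA Q₁ n := hZsa _
  have hnZ : ∀ (p : F[X]) x, n (aeval z p x) = aeval z p (n x) := fun p x => hZcomm _ _ _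
  obtain ⟨w₁, hw₁⟩ := exists_vec hnd (fun x => Q₁ (n x) + Q₂ (aeval z ε' (n x)))
    (by
      intro x y
      have e1 : n (x + y) = n x + n y := map_add n x y
      have e2 : aeval z ε' (n x + n y) = aeval z ε' (n x) + aeval z ε' (n y) :=
        map_add (aeval z ε') _ _
      rw [e1, e2, Qadd, Qadd, hpol2 _ _ (hπn x)]
      have := two_zero (F := F)
      linear_combination (polar Q₁ (n x) (n y)) * this)
    (by
      intro c x
      have e1 : n (c • x) = c • n x := map_smul n c x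
      have e2 : aeval z ε' (c • n x) = c • aeval z ε' (n x) := map_smul (aeval z ε') c _
      rw [e1, e2, Qsmul, Qsmul]
      ring)
  have hw₁' : ∀ (p : F[X]) x, Q₁ (aeval z p (n x)) + Q₂ (aeval z ε' (aeval z p (n x))) =
      polar Q₁ x (aeval z p w₁) * polar Q₁ x (aeval z p w₁) := by
    intro p x
    rw [← hnZ, ← hZsa]
    exact hw₁ _
  have hw₁π : aeval z π w₁ = 0 := by
    apply eq_of_polar_sq hnd
    intro v
    rw [← hw₁', hπn]
    simp
  obtain ⟨w, hw⟩ : ∃ w, n w = w₁ := by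
    have h1 : w₁ ∈ perp Q₁ (LinearMap.ker n) := by
      rw [mem_perp]
      intro x hx
      have h3 := hw₁ x
      rw [LinearMap.mem_ker.1 hx] at h3
      simp only [map_zero, add_zero] at h3
      exact mul_self_eq_zero.1 h3.symm
    rw [perp_ker_eq_range hnd hnsa] at h1
    exact h1
  have hEw : ∀ p : F[X], Q₁ (aeval z p w₁) + Q₂ (aeval z ε' (aeval z p w₁)) = 0 := by
    intro p
    nth_rewrite 1 2 [← hw]
    rw [hw₁', ← hw, ← hnZ]
    have : polar Q₁ w (n (aeval z p w)) = 0 := by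
      rw [hn, ← hZmul]
      rw [polar_comm]
      exact hZssa _ w
    rw [this, mul_zero]
  have hQ1w := hB w₁ hw₁π hEw
  have hQ2w := hB2 w₁ hw₁π hEw
  obtain ⟨ιw, βw, hβw, hιw, hιwz, hιwi, hβwp, hβw1, hβw2⟩ := hline w₁ hw₁π
  have hmemw : ∀ p : F[X], aeval z p w₁ ∈ LinearMap.range ιw := by
    intro p
    exact ⟨AdjoinRoot.mk π p, hιw p⟩
  have hperpw : ∀ x, x ∈ perp Q₁ (LinearMap.range ιw) ↔
      ∀ p : F[X], polar Q₁ x (aeval z p w₁) = 0 := by
    intro x
    rw [mem_perp]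
    constructor
    · intro h p
      rw [polar_comm]
      exact h _ (hmemw p)
    · rintro h _ ⟨κ, rfl⟩
      obtain ⟨p, rfl⟩ := AdjoinRoot.mk_surjective κ
      rw [polar_comm, hιw]
      exact h p
  -- vectors orthogonal to the line of `w₁`
  have hE_of_perp : ∀ x, (∀ p : F[X], polar Q₁ x (aeval z p w₁) = 0) →
      ∀ p : F[X], Q₁ (aeval z p (n x)) + Q₂ (aeval z ε' (aeval z p (n x))) = 0 := by
    intro x hx p
    rw [hw₁', hx, mul_zero]
  by_cases hs0 : s = 0
  · -- exponent one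
    right
    have hnid : ∀ x, n x = x := by
      intro x
      rw [hn, hs0, pow_zero, hZ1]
    have hsocall : ∀ x, aeval z π x = 0 := by
      intro x
      rw [← hnid x]
      exact hπn x
    have hLQ : ∀ x ∈ LinearMap.range ιw, Q₁ x = 0 := by
      rintro _ ⟨κ, rfl⟩
      obtain ⟨p, rfl⟩ := AdjoinRoot.mk_surjective κ
      rw [hιw]
      exact hQ1w p
    have hPQ : ∀ x ∈ perp Q₁ (LinearMap.range ιw), Q₁ x = 0 := by
      intro x hx
      rw [hperpw] at hx
      have h1 := hB x (hsocall x) (by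
        intro p
        have := hE_of_perp x hx p
        rwa [hnid] at this) 1
      rwa [hZ1] at h1
    have hle1 : LinearMap.range ιw ≤ perp Q₁ (LinearMap.range ιw) := by
      intro x hx
      rw [mem_perp]
      intro y hy
      exact polar_zero_of_sing hLQ hy hx
    have hle2 : perp Q₁ (LinearMap.range ιw) ≤ LinearMap.range ιw := by
      intro x hx
      rw [← perp_perp hnd (LinearMap.range ιw), mem_perp]
      intro y hy
      exact polar_zero_of_sing hPQ hy hx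
    refine ⟨LinearMap.range ιw, ?_, hLQ, ?_, ?_⟩
    · rintro _ ⟨κ, rfl⟩
      rw [hιwz]
      exact ⟨_, rfl⟩
    · rintro _ ⟨κ, rfl⟩
      obtain ⟨p, rfl⟩ := AdjoinRoot.mk_surjective κ
      rw [hιw]
      exact hQ2w p
    · have h1 := finrank_perp hnd (LinearMap.range ιw)
      rw [le_antisymm hle2 hle1] at h1
      have h3 := Submodule.finrank_le (LinearMap.range ιw)
      omega
  left
  obtain ⟨t, rfl⟩ : ∃ t, s = t + 1 := ⟨s - 1, by omega⟩
  by_cases hw0 : w₁ = 0
  · -- `1 + n` works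
    have hE : ∀ x, ∀ p : F[X], Q₁ (aeval z p (n x)) + Q₂ (aeval z ε' (aeval z p (n x))) = 0 := by
      intro x p
      rw [hw₁', hw0, map_zero, polar_zero_right, mul_zero]
    refine ⟨n, ⟨hn0, ?_, hnsa, ?_⟩, ?_, ?_⟩
    · intro x
      rw [hn, ← hZmul, ← pow_add]
      exact hNge _ (by omega) x
    · intro x
      have h1 := hB (n x) (hπn x) (hE x) 1
      rw [hZ1] at h1
      rw [h1, polar_comm]
      exact (hZssa _ x).symm
    · intro x
      have := hnZ X x
      rwa [aeval_X] at this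
    · intro x
      have h1 := hB2 (n x) (hπn x) (hE x) 1
      rw [hZ1] at h1
      rw [h1]
      exact (h2ssa _ x).symm
  -- the remaining case
  set m₁ := aeval z (π ^ t) w with hm₁
  have hπm : aeval z π m₁ = w₁ := by
    rw [hm₁, ← hZmul, ← pow_succ', ← hw, hn]
  have hππm : aeval z (π ^ 2) m₁ = 0 := by
    rw [pow_two, hZmul, hπm, hw₁π]
  obtain ⟨v₁, hv₁⟩ := exists_polar_ne_zero hnd hw0
  obtain ⟨ι₁, hι₁⟩ := exists_polyLine z (π ^ 2) m₁ hππm
  have hfd2 : FiniteDimensional F (AdjoinRoot (π ^ 2)) :=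
    finite_adjoinRoot (pow_ne_zero 2 hπ.ne_zero)
  let ℓ₁ : AdjoinRoot (π ^ 2) →ₗ[F] F := (polarBilin Q₁ v₁) ∘ₗ ι₁
  have hℓ₁ : ∀ r, ℓ₁ r = polar Q₁ v₁ (ι₁ r) := fun r => rfl
  have hdiv : ∀ r : AdjoinRoot (π ^ 2), r ≠ 0 → ∃ r', r * r' = AdjoinRoot.mk _ π := by
    intro r hr
    obtain ⟨p, rfl⟩ := AdjoinRoot.mk_surjective r
    rw [Ne, AdjoinRoot.mk_eq_zero] at hr
    by_cases hp : π ∣ p
    · obtain ⟨p', rfl⟩ := hp
      have hp' : ¬ π ∣ p' := by
        rintro ⟨p'', rfl⟩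
        exact hr ⟨p'', by ring⟩
      obtain ⟨a, b, hab⟩ := hπ.coprime_iff_not_dvd.2 hp'
      refine ⟨AdjoinRoot.mk _ b, ?_⟩
      rw [← map_mul, AdjoinRoot.mk_eq_mk]
      exact ⟨-a, by linear_combination π * hab⟩
    · obtain ⟨a, b, hab⟩ := (hπ.coprime_iff_not_dvd.2 hp).pow_left (m := 2)
      refine ⟨AdjoinRoot.mk _ (b * π), ?_⟩
      rw [← map_mul, AdjoinRoot.mk_eq_mk]
      exact ⟨-a * π, by linear_combination π * hab⟩
  have hnd₁ : ∀ r, (∀ s, ℓ₁ (r * s) = 0) → r = 0 := by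
    intro r hr
    by_contra hne
    obtain ⟨r', hr'⟩ := hdiv r hne
    apply hv₁
    have h1 := hr r'
    rw [hr', hℓ₁, hι₁, hπm] at h1
    rw [polar_comm]
    exact h1
  obtain ⟨β₁, hβ₁⟩ := exists_line Q₁ ℓ₁ hnd₁ ι₁
  have hι₁p : ∀ (p : F[X]) κ, aeval z p (ι₁ κ) = ι₁ (AdjoinRoot.mk _ p * κ) := by
    intro p κ
    obtain ⟨q, rfl⟩ := AdjoinRoot.mk_surjective κ
    rw [hι₁, ← map_mul, hι₁, hZmul]
  have hβ₁p : ∀ p v, β₁ (aeval z p v) = AdjoinRoot.mk _ p * β₁ v := by
    intro p v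
    exact hβ₁.comm (hZsa p) (hι₁p p) v
  have hβ₁v : β₁ v₁ = 1 := by
    apply hβ₁.uniq
    intro s
    rw [← hβ₁.rep, mul_one, hℓ₁]
  have hYr : ∀ v, ∃ p : F[X], ι₁ (β₁ v) = aeval z p m₁ := by
    intro v
    obtain ⟨q, hq⟩ := AdjoinRoot.mk_surjective (β₁ v)
    exact ⟨q, by rw [← hq, hι₁]⟩
  have hYc : ∀ v (p : F[X]), polar Q₁ (ι₁ (β₁ v)) (aeval z p m₁) = 0 := by
    intro v p
    obtain ⟨q, hq⟩ := hYr v
    rw [hq]
    exact hcyc _ _ _
  have hwm : ∀ p : F[X], aeval z p w₁ = aeval z (p * π) m₁ := by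
    intro p
    rw [hZmul, hπm]
  have hβ₁0 : ∀ p : F[X], β₁ (aeval z p m₁) = 0 := by
    intro p
    apply hβ₁.beta_zero
    intro s
    obtain ⟨q, rfl⟩ := AdjoinRoot.mk_surjective s
    rw [hι₁]
    exact hcyc _ _ _
  have hYperp : ∀ v ∈ perp Q₁ (LinearMap.range ιw), ∃ p : F[X], ι₁ (β₁ v) = aeval z p w₁ := by
    intro v hv
    rw [hperpw] at hv
    have h1 : AdjoinRoot.mk (π ^ 2) π * β₁ v = 0 := by
      rw [← hβ₁p]
      apply hβ₁.beta_zero
      intro s
      obtain ⟨q, rfl⟩ := AdjoinRoot.mk_surjective s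
      rw [hι₁, hZsa, hZcomm, hπm]
      exact hv q
    obtain ⟨q, hq⟩ := AdjoinRoot.mk_surjective (β₁ v)
    rw [← hq, ← map_mul, AdjoinRoot.mk_eq_zero, pow_two] at h1
    obtain ⟨q', hq'⟩ := (mul_dvd_mul_iff_left hπ.ne_zero).1 h1
    refine ⟨q', ?_⟩
    rw [← hq, hι₁, hq', mul_comm, hwm]
  have hin : ∀ y, (∀ v ∈ perp Q₁ (LinearMap.range ιw), polar Q₁ v y * polar Q₁ v y = 0) →
      ∃ p : F[X], y = aeval z p w₁ := by
    intro y hy
    have h1 : y ∈ perp Q₁ (perp Q₁ (LinearMap.range ιw)) := by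
      rw [mem_perp]
      intro v hv
      exact mul_self_eq_zero.1 (hy v hv)
    rw [perp_perp hnd] at h1
    obtain ⟨κ, rfl⟩ := h1
    obtain ⟨p, rfl⟩ := AdjoinRoot.mk_surjective κ
    exact ⟨p, hιw p⟩
  set Y : Module.End F M := lineOp ι₁ β₁ with hY
  have hYa : ∀ v, Y v = ι₁ (β₁ v) := fun v => rfl
  have hYsa : SA Q₁ Y := hβ₁.sa
  have hYZ : ∀ (p : F[X]) v, Y (aeval z p v) = aeval z p (Y v) := by
    intro p v
    rw [hYa, hYa, hβ₁p, hι₁p]
  have hYY : ∀ v, Y (Y v) = 0 := by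
    intro v
    obtain ⟨p, hp⟩ := hYr v
    rw [hYa v, hp, hYa, hβ₁0, map_zero]
  obtain ⟨y₁, hy₁⟩ := exists_vec hnd (fun x => Q₁ (Y x) + polar Q₁ x (Y x))
    (by
      intro x y
      have e1 : Y (x + y) = Y x + Y y := map_add Y x y
      have e2 : polar Q₁ (Y x) (Y y) = 0 := by
        rw [hYsa, hYY, polar_zero_right]
      have e3 : polar Q₁ y (Y x) = polar Q₁ x (Y y) := by
        rw [← hYsa, polar_comm]
      rw [e1, Qadd, e2, polar_add_left, polar_add_right, polar_add_right, e3]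
      have := two_zero (F := F)
      linear_combination (polar Q₁ x (Y y)) * this)
    (by
      intro c x
      have e1 : Y (c • x) = c • Y x := map_smul Y c x
      rw [e1, Qsmul, polar_smul_left, polar_smul_right, smul_eq_mul, smul_eq_mul]
      ring)
  obtain ⟨y₂, hy₂⟩ := exists_vec hnd (fun x => Q₂ (Y x) + polar Q₂ x (Y x))
    (by
      intro x y
      have e1 : Y (x + y) = Y x + Y y := map_add Y x y
      have e2 : polar Q₂ (Y x) (Y y) = 0 := by
        rw [h2, ← hYZ, hYsa, hYY, polar_zero_right]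
      have e3 : polar Q₂ y (Y x) = polar Q₂ x (Y y) := by
        rw [h2, h2, hZsa, ← hYZ, ← hYsa, polar_comm]
      rw [e1, Qadd, e2, polar_add_left, polar_add_right, polar_add_right, e3]
      have := two_zero (F := F)
      linear_combination (polar Q₂ x (Y y)) * this)
    (by
      intro c x
      have e1 : Y (c • x) = c • Y x := map_smul Y c x
      rw [e1, Qsmul, polar_smul_left, polar_smul_right, smul_eq_mul, smul_eq_mul]
      ring)
  obtain ⟨q₁, hq₁⟩ := hin y₁ (by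
    intro v hv
    rw [← hy₁]
    obtain ⟨p, hp⟩ := hYperp v hv
    rw [hYa, hp, hQ1w, zero_add]
    exact (hperpw v).1 hv p)
  obtain ⟨q₂, hq₂⟩ := hin y₂ (by
    intro v hv
    rw [← hy₂]
    obtain ⟨p, hp⟩ := hYperp v hv
    rw [hYa, hp, hQ2w, zero_add, h2, hZsa, ← hZmul]
    exact (hperpw v).1 hv _)
  -- the coefficient of `n`
  set q := q₂ + ε * q₁ with hq
  have hqw : y₂ + aeval z ε y₁ = aeval z q w₁ := by
    rw [hq₂, hq₁, hq, ← hZmul, map_add, LinearMap.add_apply]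
  set ν := q * ε' with hν
  have hνw : aeval z (ε * ν) w₁ = aeval z q w₁ := by
    have : ε * ν = q * (ε' * ε) := by rw [hν]; ring
    rw [this, hZmul, hmod _ _ w₁ hw₁π hεε', hZ1]
  have hnn : ∀ x, n (n x) = 0 := by
    intro x
    rw [hn, ← hZmul, ← pow_add]
    exact hNge _ (by omega) x
  have hnn0 : ∀ (p p' : F[X]) x y, polar Q₁ (aeval z p (n x)) (aeval z p' (n y)) = 0 := by
    intro p p' x y
    rw [← hnZ p' y, ← hnsa, hnZ, hnn, map_zero, polar_zero_left]
  obtain ⟨x₁, hx₁⟩ := exists_vec hnd (fun x => Q₁ (aeval z ν (n x)))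
    (by
      intro x y
      have e1 : aeval z ν (n (x + y)) = aeval z ν (n x) + aeval z ν (n y) := by
        rw [map_add n, map_add (aeval z ν)]
      rw [e1, Qadd, hnn0, add_zero])
    (by
      intro c x
      have e1 : aeval z ν (n (c • x)) = c • aeval z ν (n x) := by
        rw [map_smul n, map_smul (aeval z ν)]
      rw [e1, Qsmul])
  obtain ⟨x₂, hx₂⟩ := exists_vec hnd (fun x => Q₂ (aeval z ν (n x)))
    (by
      intro x y
      have e1 : aeval z ν (n (x + y)) = aeval z ν (n x) + aeval z ν (n y) := by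
        rw [map_add n, map_add (aeval z ν)]
      rw [e1, Qadd, h2, ← hZmul g ν, hnn0, add_zero])
    (by
      intro c x
      have e1 : aeval z ν (n (c • x)) = c • aeval z ν (n x) := by
        rw [map_smul n, map_smul (aeval z ν)]
      rw [e1, Qsmul])
  obtain ⟨r₁, hr₁⟩ := hin x₁ (by
    intro v hv
    rw [← hx₁]
    rw [hperpw] at hv
    exact hB (n v) (hπn v) (hE_of_perp v hv) ν)
  have hx12 : x₂ + aeval z ε x₁ = aeval z (ε * ν) w₁ := by
    apply eq_of_polar_sq hnd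
    intro v
    have e1 := hw₁' (ε * ν) v
    have e2 : aeval z ε' (aeval z (ε * ν) (n v)) = aeval z ν (n v) := by
      rw [hZmul ε ν]
      exact hinv _ (hsoc _ _ (hπn v))
    have e3 : Q₁ (aeval z (ε * ν) (n v)) = polar Q₁ v (aeval z ε x₁) * polar Q₁ v (aeval z ε x₁) := by
      rw [← hZsa, ← hx₁, hnZ, ← hZmul ν ε, mul_comm]
    have e4 := hx₂ v
    rw [e2, e3, e4] at e1
    rw [polar_add_right, ← e1]
    have := two_zero (F := F)
    linear_combination (polar Q₁ v x₂ * polar Q₁ v (aeval z ε x₁)) * this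
  set y := x₁ + y₁ with hy
  have hyw : y = aeval z (r₁ + q₁) w₁ := by
    rw [hy, hr₁, hq₁, map_add, LinearMap.add_apply]
  have hyε : aeval z ε y = x₂ + y₂ := by
    have e1 : x₂ + aeval z ε x₁ = y₂ + aeval z ε y₁ := by
      rw [hx12, hνw, hqw]
    have e2 : aeval z ε y = aeval z ε x₁ + aeval z ε y₁ := by
      rw [hy, map_add]
    rw [e2]
    have e3 := add_self_zero F (aeval z ε x₁)
    have e4 := add_self_zero F y₂
    have e5 : aeval z ε x₁ = x₂ + (y₂ + aeval z ε y₁) := by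
      rw [← e1, ← add_assoc, add_self_zero F, zero_add]
    nth_rewrite 1 [e5]
    rw [add_assoc, add_assoc, add_self_zero F, add_zero]
  have hyπ : aeval z π y = 0 := by
    rw [hyw]
    exact hsoc _ _ hw₁π
  obtain ⟨ιy, βy, hβy, hιy, hιyz, hιyi, hβyp, hβy1, hβy2⟩ := hline y hyπ
  set Cy : Module.End F M := lineOp ιy βy with hCy
  have hCya : ∀ v, Cy v = ιy (βy v) := fun v => rfl
  have hCysa : SA Q₁ Cy := hβy.sa
  have hCyr : ∀ v, ∃ p : F[X], Cy v = aeval z p w₁ := by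
    intro v
    obtain ⟨p, hp⟩ := AdjoinRoot.mk_surjective (βy v)
    exact ⟨p * (r₁ + q₁), by rw [hCya, ← hp, hιy, hyw, hZmul]⟩
  have hβy0 : ∀ p : F[X], βy (aeval z p m₁) = 0 := by
    intro p
    apply hβy.beta_zero
    intro s
    obtain ⟨r, rfl⟩ := AdjoinRoot.mk_surjective s
    rw [hιy, hyw, hwm, ← hZmul r ((r₁ + q₁) * π)]
    exact hcyc _ _ _
  have hCyz : ∀ v, Cy (z v) = z (Cy v) := fun v => hβy.op_comm hz.sa hιyz v
  have hYz : ∀ v, Y (z v) = z (Y v) := by
    intro v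
    have := hYZ X v
    rwa [aeval_X] at this
  set Y' : Module.End F M := Y + Cy with hY'
  have hY'a : ∀ v, Y' v = Y v + Cy v := fun v => rfl
  have hY'z : ∀ v, Y' (z v) = z (Y' v) := by
    intro v
    rw [hY'a, hY'a, hYz, hCyz, map_add]
  have hY'sa : SA Q₁ Y' := hYsa.add hCysa
  have hY'r : ∀ v, ∃ p : F[X], Y' v = aeval z p m₁ := by
    intro v
    obtain ⟨p, hp⟩ := hYr v
    obtain ⟨p', hp'⟩ := hCyr v
    refine ⟨p + p' * π, ?_⟩
    rw [hY'a, hYa, hp, hp', hwm, map_add, LinearMap.add_apply]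
  have hY'0 : ∀ p : F[X], Y' (aeval z p m₁) = 0 := by
    intro p
    rw [hY'a, hYa, hCya, hβ₁0, hβy0, map_zero, map_zero, add_zero]
  have hY'Y' : ∀ v, Y' (Y' v) = 0 := by
    intro v
    obtain ⟨p, hp⟩ := hY'r v
    rw [hp, hY'0]
  set n' : Module.End F M := aeval z ν * n with hn'
  have hn'a : ∀ v, n' v = aeval z ν (n v) := fun v => rfl
  have hn'z : ∀ v, n' (z v) = z (n' v) := by
    intro v
    have e1 : n (z v) = z (n v) := by
      have := hnZ X v
      rwa [aeval_X] at this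
    rw [hn'a, hn'a, e1]
    exact aeval_commute (fun x => rfl) ν _
  have hn'sa : SA Q₁ n' := by
    intro x y
    rw [hn'a, hn'a, hZsa, hnsa, hnZ]
  have hn'ssa : ∀ x, polar Q₁ x (n' x) = 0 := by
    intro x
    rw [hn'a, hn, ← hZmul, polar_comm]
    exact hZssa _ x
  have hn'ssa2 : ∀ x, polar Q₂ x (n' x) = 0 := by
    intro x
    rw [hn'a, hn, ← hZmul]
    exact h2ssa _ x
  have hn'n' : ∀ v, n' (n' v) = 0 := by
    intro v
    rw [hn'a, hn'a, hnZ, hnn, map_zero, map_zero]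
  have hn'Y' : ∀ v, Y' (n' v) = n' (Y' v) := by
    intro v
    have hY'Z : ∀ (p : F[X]) v, aeval z p (Y' v) = Y' (aeval z p v) :=
      fun p v => aeval_commute (fun x => (hY'z x).symm) p v
    rw [hn'a, hn'a, hn, hY'Z, hY'Z]
  -- the first form
  have hT1 : ∀ v, Q₁ (v + Y' v) = Q₁ v + polar Q₁ v x₁ * polar Q₁ v x₁ := by
    intro v
    obtain ⟨p, hp⟩ := hYr v
    obtain ⟨p', hp'⟩ := hCyr v
    have e1 : polar Q₁ (Y v) (Cy v) = 0 := by
      rw [hYa, hp, hp', hwm]
      exact hcyc _ _ _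
    have e2 : Q₁ (Cy v) = 0 := by
      rw [hp']
      exact hQ1w p'
    have e3 := hy₁ v
    have e4 := hβy1 v
    rw [← hCya] at e4
    have e5 : polar Q₁ v y = polar Q₁ v x₁ + polar Q₁ v y₁ := by rw [hy, polar_add_right]
    rw [hY'a, Qadd, Qadd, e1, e2, polar_add_right, e4, e5]
    have := two_zero (F := F)
    linear_combination e3 + (polar Q₁ v x₁ * polar Q₁ v y₁ + polar Q₁ v y₁ * polar Q₁ v y₁) * this
  have hT1' : ∀ u, Q₁ (u + n' u) = Q₁ u + polar Q₁ u x₁ * polar Q₁ u x₁ := by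
    intro u
    rw [Qadd, hn'ssa, add_zero, hn'a, ← hx₁]
  have hT2 : ∀ v, Q₂ (v + Y' v) = Q₂ v + polar Q₁ v x₂ * polar Q₁ v x₂ := by
    intro v
    obtain ⟨p, hp⟩ := hYr v
    obtain ⟨p', hp'⟩ := hCyr v
    have e1 : polar Q₂ (Y v) (Cy v) = 0 := by
      rw [h2, hYa, hp, hp', hwm, ← hZmul]
      exact hcyc _ _ _
    have e2 : Q₂ (Cy v) = 0 := by
      rw [hp']
      exact hQ2w p'
    have e3 := hy₂ v
    have e4 := hβy2 v
    rw [← hCya] at e4
    have e5 : polar Q₁ v (aeval z ε y) = polar Q₁ v x₂ + polar Q₁ v y₂ := by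
      rw [hyε, polar_add_right]
    rw [hY'a, Qadd, Qadd, e1, e2, polar_add_right, e4, e5]
    have := two_zero (F := F)
    linear_combination e3 + (polar Q₁ v x₂ * polar Q₁ v y₂ + polar Q₁ v y₂ * polar Q₁ v y₂) * this
  have hT2' : ∀ u, Q₂ (u + n' u) = Q₂ u + polar Q₁ u x₂ * polar Q₁ u x₂ := by
    intro u
    rw [Qadd, hn'ssa2, add_zero, hn'a, ← hx₂]
  have hx₁0 : ∀ v, polar Q₁ (v + Y' v) x₁ = polar Q₁ v x₁ := by
    intro v
    obtain ⟨p, hp⟩ := hY'r v
    rw [polar_add_left, hp, hr₁, hwm, hcyc, add_zero]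
  obtain ⟨r₂, hr₂⟩ := hin x₂ (by
    intro v hv
    rw [← hx₂]
    rw [hperpw] at hv
    exact hB2 (n v) (hπn v) (hE_of_perp v hv) ν)
  have hx₂0 : ∀ v, polar Q₁ (v + Y' v) x₂ = polar Q₁ v x₂ := by
    intro v
    obtain ⟨p, hp⟩ := hY'r v
    rw [polar_add_left, hp, hr₂, hwm, hcyc, add_zero]
  set C : Module.End F M := n' + Y' + n' * Y' with hC
  have hCa : ∀ v, C v = n' v + Y' v + n' (Y' v) := fun v => rfl
  have hCT : ∀ v, v + C v = (v + Y' v) + n' (v + Y' v) := by
    intro v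
    rw [hCa, map_add]
    abel
  refine ⟨C, ⟨?_, ?_, ?_, ?_⟩, ?_, ?_⟩
  · intro h0
    apply hw0
    have e1 : C v₁ = 0 := by
      rw [h0]
      rfl
    have e2 : aeval z π (C v₁) = w₁ := by
      obtain ⟨p', hp'⟩ := hCyr v₁
      have e3 : aeval z π (Y' v₁) = w₁ := by
        rw [hY'a, map_add, hYa, hβ₁v, hp', hsoc _ _ hw₁π, add_zero]
        have : ι₁ 1 = m₁ := by
          rw [← (AdjoinRoot.mk (π ^ 2)).map_one, hι₁, hZ1]
        rw [this, hπm]
      rw [hCa, map_add, map_add, hn'a, hn'a, e3, hsoc _ _ (hπn _), hsoc _ _ (hπn _), zero_add,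
        add_zero]
    rw [← e2, e1, map_zero]
  · intro x
    simp only [hCa, map_add, hn'n', hY'Y', hn'Y', map_zero, add_zero, zero_add]
    exact add_self_zero F _
  · intro x y
    rw [hCa, hCa, polar_add_left, polar_add_left, polar_add_right, polar_add_right, hn'sa x y,
      hY'sa x y, hn'sa (Y' x) y, hY'sa x (n' y), hn'Y']
  · intro x
    apply q_of_isom
    rw [hCT, hT1', hT1, hx₁0]
    have := two_zero (F := F)
    linear_combination (polar Q₁ x x₁ * polar Q₁ x x₁) * this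
  · intro x
    simp only [hCa, hn'z, hY'z, map_add]
  · intro x
    apply q_of_isom
    rw [hCT, hT2', hT2, hx₂0]
    have := two_zero (F := F)
    linear_combination (polar Q₁ x x₂ * polar Q₁ x x₂) * this

end core

end Pool.Agent.H49.UDN
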