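import Pool.Agent.H49.UDN.ECore

set_option autoImplicit false
set_option linter.unusedSectionVars false

/-!
Characteristic two: solving `δ = g₀ ^ 2 + g₀ + X (g₁ ^ 2 + g₁)` modulo powers of an irreducible
polynomial.
-/

namespace Pool.Agent.H49.UDN

open QuadraticMap Module Polynomial

universe u v w

section as

lemma zmod2_idem : ∀ x : ZMod 2, x * x = x := by decide

lemma zmod2_cases : ∀ x : ZMod 2, x = 0 ∨ x = 1 := by decide

lemma exists_as {R : Type u} [CommRing R] [CharP R 2] (c : R) (m : ℕ) :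
    ∃ s : R, s * s + s = c + c ^ (2 ^ m) := by
  have h2 : (2 : R) = 0 := CharTwo.two_eq_zero
  induction m with
  | zero =>
    refine ⟨0, ?_⟩
    rw [pow_zero, pow_one]
    linear_combination (-c) * h2
  | succ m ih =>
    obtain ⟨s, hs⟩ := ih
    refine ⟨s + c ^ (2 ^ m), ?_⟩
    have e : c ^ (2 ^ (m + 1)) = c ^ (2 ^ m) * c ^ (2 ^ m) := by
      rw [← pow_add]
      congr 1
      rw [pow_succ]
      ring
    rw [e]
    linear_combination hs + (s * c ^ (2 ^ m) + c ^ (2 ^ m)) * h2

/-- In a finite field of characteristic two, `(h ^ 2 + h) + z (k ^ 2 + k)` takes all values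
unless `z` is `0` or `1`. -/
lemma exists_as_pair {K : Type u} [Field K] [Finite K] [CharP K 2] (z : K) (hz0 : z ≠ 0)
    (hz1 : z ≠ 1) (c : K) : ∃ h k : K, c = h * h + h + z * (k * k + k) := by
  classical
  let _ : Algebra (ZMod 2) K := ZMod.algebra K 2
  have hfp : Fact (Nat.Prime 2) := ⟨Nat.prime_two⟩
  have hfd : FiniteDimensional (ZMod 2) K := Module.Finite.of_finite (R := ZMod 2) (M := K)
  obtain ⟨τ, hτ2, hτ, x1, hx1⟩ := exists_tau (ZMod 2) K
  have h2 : (2 : K) = 0 := CharTwo.two_eq_zero
  have hidem : ∀ x : ZMod 2, x * x = x := zmod2_idem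
  have hτ2' : ∀ x, τ (x * x) = τ x := fun x => by rw [hτ2, hidem]
  let φ : K →ₗ[ZMod 2] K :=
    { toFun := fun h => h * h + h
      map_add' := by
        intro x y
        linear_combination (x * y) * h2
      map_smul' := by
        intro a x
        rw [RingHom.id_apply, smul_add]
        congr 1
        rw [Algebra.smul_mul_assoc, Algebra.mul_smul_comm, smul_smul, hidem] }
  have hφ : ∀ h, φ h = h * h + h := fun h => rfl
  have hker : LinearMap.ker φ ≤ Submodule.span (ZMod 2) {(1 : K)} := by
    intro x hx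
    rw [LinearMap.mem_ker, hφ] at hx
    have h1 : x * (x + 1) = 0 := by linear_combination hx
    rcases mul_eq_zero.1 h1 with h | h
    · rw [h]
      exact Submodule.zero_mem _
    · have : x = 1 := by linear_combination h - h2
      rw [this]
      exact Submodule.mem_span_singleton_self 1
  have hle : LinearMap.range φ ≤ LinearMap.ker τ := by
    rintro _ ⟨h, rfl⟩
    rw [LinearMap.mem_ker, hφ, map_add, hτ2']
    exact CharTwo.add_self_eq_zero _
  have hτs : LinearMap.range τ = ⊤ := by
    rw [LinearMap.range_eq_top]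
    intro y
    exact ⟨y • x1, by rw [map_smul, hx1, smul_eq_mul, mul_one]⟩
  have heq : LinearMap.range φ = LinearMap.ker τ := by
    apply Submodule.eq_of_le_of_finrank_le hle
    have e1 := LinearMap.finrank_range_add_finrank_ker φ
    have e2 := LinearMap.finrank_range_add_finrank_ker τ
    rw [hτs, finrank_top, finrank_self] at e2
    have e3 := Submodule.finrank_mono hker
    rw [finrank_span_singleton one_ne_zero] at e3
    omega
  have hmem : ∀ x, τ x = 0 → ∃ h, h * h + h = x := by
    intro x hx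
    have : x ∈ LinearMap.range φ := by
      rw [heq]
      exact hx
    obtain ⟨h, hh⟩ := this
    exact ⟨h, hh⟩
  have h01 : ∀ x : ZMod 2, x = 0 ∨ x = 1 := zmod2_cases
  -- a value of the second summand outside the kernel
  obtain ⟨k, hk⟩ : ∃ k, τ (z * (k * k + k)) = 1 := by
    by_contra hcon
    push Not at hcon
    have h0 : ∀ k, τ (z * (k * k + k)) = 0 := fun k => (h01 _).resolve_right (hcon k)
    obtain ⟨y, hy⟩ := exists_sqrt z
    have h3 : y - z = 0 := by
      apply hτ
      intro k
      have h4 := h0 k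
      have e1 : z * (k * k + k) = (y * k) * (y * k) + z * k := by
        rw [← hy]; ring
      rw [e1, map_add, hτ2'] at h4
      rw [sub_mul, map_sub]
      have h5 : (2 : ZMod 2) = 0 := rfl
      linear_combination h4 - τ (z * k) * h5
    have h4 : y = z := sub_eq_zero.1 h3
    rw [h4] at hy
    have h5 : z * (z - 1) = 0 := by linear_combination hy
    rcases mul_eq_zero.1 h5 with h | h
    · exact hz0 h
    · exact hz1 (sub_eq_zero.1 h)
  rcases h01 (τ c) with hc | hc
  · obtain ⟨h, hh⟩ := hmem c hc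
    exact ⟨h, 0, by rw [hh]; ring⟩
  · obtain ⟨h, hh⟩ := hmem (c - z * (k * k + k)) (by rw [map_sub, hc, hk, sub_self])
    exact ⟨h, k, by rw [hh]; ring⟩

end as

section lift

variable {F : Type u} [Field F] [Finite F] [CharP F 2]

lemma exists_gamma (δ : F) (π : F[X]) (hπ : Irreducible π) (h0 : ¬ π ∣ X) (h1 : ¬ π ∣ X + 1)
    (n : ℕ) : ∃ g₀ g₁ : F[X], π ^ n ∣ C δ + (g₀ * g₀ + g₀) + X * (g₁ * g₁ + g₁) := by
  have : Fact (Irreducible π) := ⟨hπ⟩
  have hfd : FiniteDimensional F (AdjoinRoot π) := finite_adjoinRoot hπ.ne_zero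
  have hfin : Finite (AdjoinRoot π) := Module.finite_of_finite F
  have hch : CharP (AdjoinRoot π) 2 :=
    charP_of_injective_algebraMap (algebraMap F (AdjoinRoot π)).injective 2
  have hchX : CharP F[X] 2 := inferInstance
  have h2X : (2 : F[X]) = 0 := CharTwo.two_eq_zero
  obtain ⟨h, k, hhk⟩ := exists_as_pair (AdjoinRoot.mk π X)
    (by
      rw [Ne, AdjoinRoot.mk_eq_zero]
      exact h0)
    (by
      intro h
      rw [← (AdjoinRoot.mk π).map_one, AdjoinRoot.mk_eq_mk] at h
      apply h1
      have : (X : F[X]) + 1 = X - 1 := by linear_combination h2X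
      rw [this]
      exact h)
    (AdjoinRoot.mk π (C δ))
  obtain ⟨p, rfl⟩ := AdjoinRoot.mk_surjective h
  obtain ⟨q, rfl⟩ := AdjoinRoot.mk_surjective k
  rw [← map_mul, ← map_mul, ← map_add, ← map_add, ← map_mul, ← map_add,
    AdjoinRoot.mk_eq_mk] at hhk
  obtain ⟨r, hr⟩ := hhk
  obtain ⟨s, hs⟩ := exists_as (π * r) n
  refine ⟨p + s, q, ?_⟩
  have e : C δ + ((p + s) * (p + s) + (p + s)) + X * (q * q + q) = (π * r) ^ (2 ^ n) := by
    linear_combination hr + hs + (p * p + p + X * (q * q + q) + p * s + π * r) * h2X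
  rw [e, mul_pow]
  apply Dvd.dvd.mul_right
  exact pow_dvd_pow π (Nat.lt_two_pow_self).le

end lift

end Pool.Agent.H49.UDN
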