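import Pool.Agent.H49.UDN.EGamma

set_option autoImplicit false
set_option linter.unusedSectionVars false

/-!
Characteristic two: the primary case with an injective anticommutator.
-/

namespace Pool.Agent.H49.UDN

open QuadraticMap Module Polynomial

universe u v w

section restrict

variable {F : Type u} {V : Type v} [Field F] [AddCommGroup V] [Module F V]

lemma coe_aeval_restrict {A : Module.End F V} {W : Submodule F V} (hW : ∀ x ∈ W, A x ∈ W)
    (p : F[X]) (x : W) : ((aeval (A.restrict hW) p x : W) : V) = aeval A p (x : V) := by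
  induction p using Polynomial.induction_on' with
  | add p q hp hq =>
    rw [map_add, map_add, LinearMap.add_apply, LinearMap.add_apply, Submodule.coe_add, hp, hq]
  | monomial n a =>
    have hn : (((A.restrict hW) ^ n) x : V) = (A ^ n) (x : V) := by
      induction n with
      | zero => rfl
      | succ n ih =>
        rw [pow_succ', pow_succ', Module.End.mul_apply, Module.End.mul_apply, ← ih]
        rfl
    rw [aeval_monomial, aeval_monomial, ← Algebra.smul_def, ← Algebra.smul_def,
      LinearMap.smul_apply, LinearMap.smul_apply, Submodule.coe_smul, hn]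

lemma nondeg_of {Q : QuadraticForm F V} (h : ∀ x, (∀ y, polar Q x y = 0) → x = 0) :
    (polarBilin Q).Nondegenerate := by
  refine ⟨h, ?_⟩
  intro x hx
  apply h
  intro y
  rw [polar_comm]
  exact hx y

lemma eq_zero_of_polar {Q : QuadraticForm F V} (hnd : (polarBilin Q).Nondegenerate) {x : V}
    (h : ∀ y, polar Q x y = 0) : x = 0 := by
  by_contra hne
  obtain ⟨y, hy⟩ := exists_polar_ne_zero hnd hne
  exact hy (h y)

end restrict

section gen

variable {F : Type u} {V : Type v} [Field F] [Finite F] [CharP F 2] [AddCommGroup V] [Module F V]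
  [FiniteDimensional F V]

/-- Data in the generic case. -/
structure Gen (Q : QuadraticForm F V) (e D z : Module.End F V) (g : F[X]) : Prop where
  e_sa : SA Q e
  D_ssa : SSA Q D
  z_ssa : SSA Q z
  e_sq : ∀ x, e (e x) = e x
  z_e : ∀ x, z (e x) = e (z x)
  z_D : ∀ x, z (D x) = D (z x)
  D_e : ∀ x, D (e x) = e (D x) + D x
  D_D : ∀ x, D (D x) = aeval z g x
  D_inj : ∀ x, D x = 0 → x = 0

theorem generic {Q : QuadraticForm F V} (hnd : (polarBilin Q).Nondegenerate)
    {e D z : Module.End F V} {g : F[X]} (h : Gen Q e D z g) (π : F[X]) (hπ : Irreducible π)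
    (hnil : ∃ n : ℕ, aeval z (π ^ n) = 0) (hV : ∃ x : V, x ≠ 0) :
    (∃ C : Module.End F V, IsInv Q C ∧ (∀ x, C (e x) = e (C x)) ∧ (∀ x, C (D x) = D (C x)) ∧
      (∀ x, C (z x) = z (C x))) ∨
    (∃ L : Submodule F V, (∀ x ∈ L, e x ∈ L) ∧ (∀ x ∈ L, D x ∈ L) ∧ (∀ x ∈ L, z x ∈ L) ∧
      (∀ x ∈ L, Q x = 0) ∧ 2 * finrank F L = finrank F V) := by
  classical
  obtain ⟨n, hn⟩ := hnil
  obtain ⟨x0, hx0⟩ := hV
  have hπg : ¬ π ∣ g := by
    rintro ⟨k, rfl⟩
    have h1 : ∀ m : ℕ, ∀ x, aeval z ((π * k) ^ m) x = 0 → x = 0 := by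
      intro m
      induction m with
      | zero =>
        intro x hx
        rw [pow_zero, aeval_one_apply] at hx
        exact hx
      | succ m ih =>
        intro x hx
        rw [pow_succ, aeval_mul_apply] at hx
        have h2 := ih _ hx
        rw [← h.D_D] at h2
        exact h.D_inj _ (h.D_inj _ h2)
    apply hx0
    apply h1 n
    rw [mul_pow, mul_comm, aeval_mul_apply, hn, LinearMap.zero_apply, map_zero]
  obtain ⟨U, b, hUb⟩ := (hπ.coprime_iff_not_dvd.2 hπg).symm.pow_right (n := n)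
  -- `U` is the inverse of `g`
  have hU : ∀ x, aeval z U (aeval z g x) = x := by
    intro x
    have e1 : aeval z (U * g + b * π ^ n) x = x := by
      rw [hUb, aeval_one_apply]
    rw [map_add, LinearMap.add_apply, aeval_mul_apply, aeval_mul_apply, hn, LinearMap.zero_apply,
      map_zero, add_zero] at e1
    exact e1
  have hzp_e : ∀ (p : F[X]) x, aeval z p (e x) = e (aeval z p x) :=
    fun p x => aeval_commute h.z_e p x
  have hzp_D : ∀ (p : F[X]) x, aeval z p (D x) = D (aeval z p x) :=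
    fun p x => aeval_commute h.z_D p x
  set M := LinearMap.range e with hM
  have hMe : ∀ x, x ∈ M ↔ e x = x := by
    intro x
    constructor
    · rintro ⟨y, rfl⟩
      exact h.e_sq y
    · intro hx
      exact ⟨x, hx⟩
  have hMz : ∀ x ∈ M, z x ∈ M := by
    intro x hx
    rw [hMe] at hx ⊢
    rw [← h.z_e, hx]
  have heD : ∀ x, e (D x) = D (e x) + D x := by
    intro x
    rw [h.D_e, add_assoc, add_self_zero F, add_zero]
  have hMD : ∀ x ∈ M, e (D x) = 0 := by
    intro x hx
    rw [hMe] at hx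
    rw [heD, hx, add_self_zero F]
  let Q₁ : QuadraticForm F M := Q.comp M.subtype
  let Q₂ : QuadraticForm F M := (Q.comp D).comp M.subtype
  let zM : Module.End F M := z.restrict hMz
  have hQ₁ : ∀ x : M, Q₁ x = Q (x : V) := fun x => rfl
  have hQ₂ : ∀ x : M, Q₂ x = Q (D (x : V)) := fun x => rfl
  have hp₁ : ∀ x y : M, polar Q₁ x y = polar Q (x : V) (y : V) := fun x y => rfl
  have hp₂ : ∀ x y : M, polar Q₂ x y = polar Q (D (x : V)) (D (y : V)) := by
    intro x y
    rw [polar, polar, hQ₂, hQ₂, hQ₂, Submodule.coe_add, map_add]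
  have hzM : ∀ (p : F[X]) (x : M), ((aeval zM p x : M) : V) = aeval z p (x : V) :=
    fun p x => coe_aeval_restrict hMz p x
  have hnd₁ : (polarBilin Q₁).Nondegenerate := by
    apply nondeg_of
    intro x hx
    apply Subtype.ext
    apply eq_zero_of_polar hnd
    intro y
    have e1 := hx ⟨e y, ⟨y, rfl⟩⟩
    rw [hp₁] at e1
    rw [← (hMe x).1 x.2, h.e_sa]
    exact e1
  have hD2 : ∀ x y, polar Q (D x) (D y) = polar Q (aeval z g x) y := by
    intro x y
    rw [← h.D_ssa.sa, h.D_D]
  have hMne : ∃ x : M, x ≠ 0 := by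
    by_contra hcon
    push Not at hcon
    have h1 : ∀ x, e x = 0 := by
      intro x
      exact congrArg Subtype.val (hcon ⟨e x, ⟨x, rfl⟩⟩)
    apply hx0
    apply h.D_inj
    have := h.D_e x0
    rw [h1, h1, map_zero, zero_add] at this
    exact this.symm
  have hnil' : ∃ n : ℕ, aeval zM (π ^ n) = 0 := by
    refine ⟨n, ?_⟩
    ext x
    rw [hzM, hn]
    rfl
  rcases core Q₁ Q₂ hnd₁ zM (fun x => h.z_ssa x) g (by
      intro x y
      rw [hp₂, hD2, hp₁, hzM]) π hπ hnil' hπg hMne with hc | hc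
  · left
    obtain ⟨CM, hCM, hCz, hC2⟩ := hc
    -- the operator on the whole space
    let c : Module.End F V := M.subtype ∘ₗ CM ∘ₗ e.rangeRestrict
    have hc : ∀ x, c x = ((CM ⟨e x, ⟨x, rfl⟩⟩ : M) : V) := fun x => rfl
    have hec : ∀ x, e (c x) = c x := by
      intro x
      exact (hMe _).1 (CM ⟨e x, ⟨x, rfl⟩⟩).2
    have hce : ∀ x, c (e x) = c x := by
      intro x
      have : (⟨e (e x), ⟨e x, rfl⟩⟩ : M) = ⟨e x, ⟨x, rfl⟩⟩ := Subtype.ext (h.e_sq x)
      rw [hc, hc, this]
    have hcz : ∀ x, c (z x) = z (c x) := by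
      intro x
      have e1 : (⟨e (z x), ⟨z x, rfl⟩⟩ : M) = zM ⟨e x, ⟨x, rfl⟩⟩ :=
        Subtype.ext (h.z_e x).symm
      rw [hc, hc, e1, hCz]
      rfl
    have hcc : ∀ x, c (c x) = 0 := by
      intro x
      have e1 : (⟨e (c x), ⟨c x, rfl⟩⟩ : M) = CM ⟨e x, ⟨x, rfl⟩⟩ := Subtype.ext (hec x)
      rw [hc (c x), e1, hCM.sq]
      rfl
    have hcsa : SA Q c := by
      intro x y
      have e1 : polar Q (c x) y = polar Q₁ (CM ⟨e x, ⟨x, rfl⟩⟩) ⟨e y, ⟨y, rfl⟩⟩ := by
        rw [hp₁, ← h.e_sa]
        change polar Q (c x) y = polar Q (e (c x)) y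
        rw [hec]
      have e2 : polar Q x (c y) = polar Q₁ ⟨e x, ⟨x, rfl⟩⟩ (CM ⟨e y, ⟨y, rfl⟩⟩) := by
        rw [hp₁]
        change polar Q x (c y) = polar Q (e x) (c y)
        rw [h.e_sa, hec]
      rw [e1, e2, hCM.adj]
    have hcQ : ∀ x, Q (c x) = polar Q x (c x) := by
      intro x
      have e1 := hCM.q ⟨e x, ⟨x, rfl⟩⟩
      rw [hQ₁, hp₁] at e1
      change Q (c x) = polar Q (e x) (c x) at e1
      rw [e1, h.e_sa, hec]
    have hcQ2 : ∀ x, Q (D (c x)) = polar Q (D x) (D (c x)) := by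
      intro x
      have e1 := hC2 ⟨e x, ⟨x, rfl⟩⟩
      rw [hQ₂, hp₂] at e1
      change Q (D (c x)) = polar Q (D (e x)) (D (c x)) at e1
      rw [e1, hD2, hD2, hzp_e, h.e_sa, hec]
    have hczp : ∀ (p : F[X]) x, aeval z p (c x) = c (aeval z p x) :=
      fun p x => aeval_commute (fun y => (hcz y).symm) p x
    set Uz := aeval z U with hUz
    have hUc : ∀ x, Uz (c x) = c (Uz x) := fun x => hczp U x
    have hUD : ∀ x, Uz (D x) = D (Uz x) := fun x => hzp_D U x
    have hUe : ∀ x, Uz (e x) = e (Uz x) := fun x => hzp_e U x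
    have hUDD : ∀ x, Uz (D (D x)) = x := by
      intro x
      rw [h.D_D, hU]
    have hcDc : ∀ x, c (D (c x)) = 0 := by
      intro x
      rw [← hce (D (c x)), heD, hec, add_self_zero F, map_zero]
    let C : Module.End F V := c + D * c * Uz * D
    have hC : ∀ x, C x = c x + D (c (Uz (D x))) := fun x => rfl
    have heDc : ∀ x, e (D (c x)) = 0 := by
      intro x
      rw [heD, hec, add_self_zero F]
    refine ⟨C, ⟨?_, ?_, ?_, ?_⟩, ?_, ?_, ?_⟩
    · intro h0
      apply hCM.ne
      ext x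
      have e1 : e (C x) = 0 := by
        rw [h0]
        simp
      rw [hC, map_add, hec, heDc, add_zero] at e1
      have e2 : (⟨e (x : V), ⟨(x : V), rfl⟩⟩ : M) = x := Subtype.ext ((hMe x).1 x.2)
      rw [hc, e2] at e1
      exact e1
    · intro x
      have e1 : c (D (c (Uz (D x)))) = 0 := hcDc _
      have e2 : c (Uz (D (c x))) = 0 := by
        rw [hUD, hUc, hcDc]
      have e3 : c (Uz (D (D (c (Uz (D x)))))) = 0 := by
        rw [hUDD, hcc]
      rw [hC x, map_add, hC, hC, hcc, e2, e1, e3, map_zero]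
      simp
    · intro x y
      have hUsa : SA Q Uz := h.z_ssa.sa.aeval U
      have e1 : polar Q (D (c (Uz (D x)))) y = polar Q x (D (c (Uz (D y)))) := by
        rw [h.D_ssa.sa, hcsa, hUsa, h.D_ssa.sa, hUc]
      rw [hC, hC, polar_add_left, polar_add_right, hcsa, e1]
    · intro x
      have e1 : polar Q (c x) (D (c (Uz (D x)))) = 0 := by
        rw [← hec x, h.e_sa, heDc, polar_zero_right]
      have e2 : Q (D (c (Uz (D x)))) = polar Q x (D (c (Uz (D x)))) := by
        rw [hcQ2, ← hUD, hUDD]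
      rw [hC, Qadd, e1, e2, hcQ, polar_add_right, add_zero]
    · intro x
      have e1 : D (c (Uz (D (e x)))) = 0 := by
        rw [h.D_e, map_add, map_add, hUe, hce, add_self_zero F, map_zero]
      rw [hC, hC, map_add, hce, hec, e1, heDc]
    · intro x
      have e1 : c (Uz (D (D x))) = c x := by rw [hUDD]
      have e2 : D (D (c (Uz (D x)))) = c (D x) := by
        have e3 : D (D (c (Uz (D x)))) = c (D (D (Uz (D x)))) := by
          rw [h.D_D, h.D_D, hczp]
        rw [e3, ← hUD, ← hUD, hUDD]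
      rw [hC, hC, map_add, e1, e2, add_comm]
    · intro x
      have hUzz : ∀ y, Uz (z y) = z (Uz y) := fun y => aeval_commute (fun _ => rfl) U y
      rw [hC, hC, map_add, hcz, ← h.z_D, hUzz, hcz, h.z_D]
  · right
    obtain ⟨LM, hLz, hL1, hL2, hLd⟩ := hc
    set A := LM.map M.subtype with hA
    have hAM : ∀ x ∈ A, e x = x := by
      rintro _ ⟨x, hx, rfl⟩
      exact (hMe _).1 x.2
    have hAz : ∀ x ∈ A, z x ∈ A := by
      rintro _ ⟨x, hx, rfl⟩
      exact ⟨zM x, hLz x hx, rfl⟩
    have hAQ : ∀ x ∈ A, Q x = 0 := by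
      rintro _ ⟨x, hx, rfl⟩
      exact hL1 x hx
    have hAQ2 : ∀ x ∈ A, Q (D x) = 0 := by
      rintro _ ⟨x, hx, rfl⟩
      exact hL2 x hx
    have hAzp : ∀ (p : F[X]), ∀ x ∈ A, aeval z p x ∈ A := fun p => aeval_stable hAz p
    have hkerD : LinearMap.ker D = ⊥ := by
      rw [LinearMap.ker_eq_bot']
      exact h.D_inj
    refine ⟨A ⊔ A.map D, ?_, ?_, ?_, ?_, ?_⟩
    · intro x hx
      obtain ⟨u, hu, v, hv, rfl⟩ := Submodule.mem_sup.1 hx
      obtain ⟨w, hw, rfl⟩ := hv
      rw [map_add, hAM u hu, heD, hAM w hw, add_self_zero F, add_zero]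
      exact Submodule.mem_sup_left hu
    · intro x hx
      obtain ⟨u, hu, v, hv, rfl⟩ := Submodule.mem_sup.1 hx
      obtain ⟨w, hw, rfl⟩ := hv
      rw [map_add, h.D_D]
      exact Submodule.add_mem _ (Submodule.mem_sup_right ⟨u, hu, rfl⟩)
        (Submodule.mem_sup_left (hAzp g w hw))
    · intro x hx
      obtain ⟨u, hu, v, hv, rfl⟩ := Submodule.mem_sup.1 hx
      obtain ⟨w, hw, rfl⟩ := hv
      rw [map_add, h.z_D]
      exact Submodule.add_mem _ (Submodule.mem_sup_left (hAz u hu))
        (Submodule.mem_sup_right ⟨z w, hAz w hw, rfl⟩)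
    · intro x hx
      obtain ⟨u, hu, v, hv, rfl⟩ := Submodule.mem_sup.1 hx
      obtain ⟨w, hw, rfl⟩ := hv
      have e1 : polar Q u (D w) = 0 := by
        rw [← hAM u hu, h.e_sa, heD, hAM w hw, add_self_zero F, polar_zero_right]
      rw [Qadd, hAQ u hu, hAQ2 w hw, e1]
      simp
    · have hdisj : A ⊓ A.map D = ⊥ := by
        rw [eq_bot_iff]
        rintro x ⟨hx1, hx2⟩
        obtain ⟨w, hw, rfl⟩ := hx2
        rw [Submodule.mem_bot]
        have e1 := hAM _ hx1
        rw [heD, hAM w hw, add_self_zero F] at e1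
        exact e1.symm
      have e1 := Submodule.finrank_sup_add_finrank_inf_eq A (A.map D)
      rw [hdisj, finrank_bot, add_zero] at e1
      have hinj : Function.Injective D := LinearMap.ker_eq_bot.1 hkerD
      have e2 : ∀ P : Submodule F V, finrank F (P.map D) = finrank F P := fun P =>
        (Submodule.equivMapOfInjective D hinj P).finrank_eq.symm
      have e3 : finrank F A = finrank F LM :=
        (Submodule.equivMapOfInjective M.subtype M.injective_subtype LM).finrank_eq.symm
      have hle1 : M.map D ≤ LinearMap.ker e := by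
        rintro _ ⟨x, hx, rfl⟩
        exact hMD x hx
      have hle2 : (LinearMap.ker e).map D ≤ M := by
        rintro _ ⟨x, hx, rfl⟩
        rw [hMe]
        rw [heD, LinearMap.mem_ker.1 hx, map_zero, zero_add]
      have e4 := Submodule.finrank_mono hle1
      have e5 := Submodule.finrank_mono hle2
      have e6 := LinearMap.finrank_range_add_finrank_ker e
      rw [e2] at e4 e5 e1
      rw [← hM] at e6
      rw [e1]
      omega

end gen

end Pool.Agent.H49.UDN
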