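import Pool.Agent.H49.UDN.EGeneric

set_option autoImplicit false
set_option linter.unusedSectionVars false

/-!
Characteristic two: a pair of operators of field type on a nondegenerate quadratic space has a
common involutory isometry or a common Lagrangian.
-/

namespace Pool.Agent.H49.UDN

open QuadraticMap Module Polynomial

universe u v w

section primary

variable {F : Type u} {V : Type v} [Field F] [Finite F] [CharP F 2] [AddCommGroup V] [Module F V]
  [FiniteDimensional F V]
variable {Q : QuadraticForm F V} {j a : Module.End F V} {δ ε : F}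

lemma Sys.dd_dd' (h : Sys Q j a δ ε) (x : V) :
    dd j a (dd j a x) = aeval (zz j a) (X ^ 2 + X + C (δ + ε) : F[X]) x := by
  rw [h.dd_dd, map_add, map_add, map_pow, aeval_X, aeval_C, pow_two]
  rfl

theorem primary (hnd : (polarBilin Q).Nondegenerate) (h : Sys Q j a δ ε)
    (hV : ∃ x : V, x ≠ 0) (hinj : ∀ x, dd j a x = 0 → x = 0) (π : F[X]) (hπ : Irreducible π)
    (hnil : ∃ n : ℕ, aeval (zz j a) (π ^ n) = 0) : HasInv Q j a ∨ HasLag Q j a := by
  have hzz : ∀ x, zz j a x = dd j a x + j x + a x := fun x => rfl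
  by_cases he : ε = 0
  · have hgen : Gen Q a (dd j a) (zz j a) (X ^ 2 + X + C (δ + ε)) := by
      refine ⟨h.a_ssa.sa, h.dd_ssa, h.zz_ssa, ?_, h.zz_a, h.zz_dd, h.dd_a, h.dd_dd', hinj⟩
      intro x
      rw [h.a_sq, he, zero_smul, add_zero]
    have hj : ∀ x, j x = zz j a x + dd j a x + a x := by
      intro x
      rw [hzz]
      apply eq_of_two (F := F) (w := -(dd j a x + a x))
      module
    rcases generic hnd hgen π hπ hnil hV with ⟨C, hC, hCe, hCD, hCz⟩ | ⟨L, hLe, hLD, hLz, hLQ, hLd⟩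
    · left
      refine ⟨C, hC, ?_, hCe⟩
      intro x
      rw [hj, hj, map_add, map_add, hCz, hCD, hCe]
    · right
      refine ⟨L, ?_, hLe, hLQ, hLd⟩
      intro x hx
      rw [hj]
      exact L.add_mem (L.add_mem (hLz x hx) (hLD x hx)) (hLe x hx)
  have he' : ε = δ := h.eps.resolve_left he
  subst he'
  obtain ⟨n, hn⟩ := hnil
  obtain ⟨x0, hx0⟩ := hV
  have hδδ : ε + ε = 0 := by
    have := two_zero (F := F)
    linear_combination ε * this
  have hDD : ∀ x, dd j a (dd j a x) = aeval (zz j a) (X * (X + 1) : F[X]) x := by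
    intro x
    rw [h.dd_dd', hδδ]
    congr 2
    rw [C_0]
    ring
  have hpow : ∀ m : ℕ, ∀ x, aeval (zz j a) ((X * (X + 1) : F[X]) ^ m) x = 0 → x = 0 := by
    intro m
    induction m with
    | zero =>
      intro x hx
      rw [pow_zero, aeval_one_apply] at hx
      exact hx
    | succ m ih =>
      intro x hx
      rw [pow_succ, aeval_mul_apply] at hx
      have h2 := ih _ hx
      rw [← hDD] at h2
      exact hinj _ (hinj _ h2)
  have hnd0 : ¬ π ∣ (X * (X + 1) : F[X]) := by
    rintro ⟨k, hk⟩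
    apply hx0
    apply hpow n
    rw [hk, mul_pow, mul_comm, aeval_mul_apply, hn, LinearMap.zero_apply, map_zero]
  obtain ⟨g₀, g₁, hg⟩ := exists_gamma ε π hπ (fun hd => hnd0 (Dvd.dvd.mul_right hd _))
    (fun hd => hnd0 (Dvd.dvd.mul_left hd _)) n
  set z := zz j a with hz
  set D := dd j a with hD
  set G0 := aeval z g₀ with hG0
  set G1 := aeval z g₁ with hG1
  have hrel : ∀ x, ε • x + (G0 (G0 x) + G0 x) + z (G1 (G1 x) + G1 x) = 0 := by
    intro x
    obtain ⟨k, hk⟩ := hg
    have e1 : aeval z (C ε + (g₀ * g₀ + g₀) + X * (g₁ * g₁ + g₁)) x = 0 := by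
      rw [hk, mul_comm, aeval_mul_apply, hn, LinearMap.zero_apply, map_zero]
    rw [← e1]
    simp only [map_add, LinearMap.add_apply, aeval_mul_apply, aeval_X, aeval_C]
    rfl
  have hG0j : ∀ x, G0 (j x) = j (G0 x) := fun x => aeval_commute h.zz_j g₀ x
  have hG1j : ∀ x, G1 (j x) = j (G1 x) := fun x => aeval_commute h.zz_j g₁ x
  have hG0a : ∀ x, G0 (a x) = a (G0 x) := fun x => aeval_commute h.zz_a g₀ x
  have hG1a : ∀ x, G1 (a x) = a (G1 x) := fun x => aeval_commute h.zz_a g₁ x
  have hG0D : ∀ x, G0 (D x) = D (G0 x) := fun x => aeval_commute h.zz_dd g₀ x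
  have hG1D : ∀ x, G1 (D x) = D (G1 x) := fun x => aeval_commute h.zz_dd g₁ x
  have hG10 : ∀ x, G1 (G0 x) = G0 (G1 x) := fun x => aeval_comm_apply z g₁ g₀ x
  have hzG0 : ∀ x, z (G0 x) = G0 (z x) := fun x => (aeval_commute (fun _ => rfl) g₀ x).symm
  have hzG1 : ∀ x, z (G1 x) = G1 (z x) := fun x => (aeval_commute (fun _ => rfl) g₁ x).symm
  -- the idempotent
  let e : Module.End F V := j + G0 + (j + a) * G1
  have hea : ∀ x, e x = j x + G0 x + (j (G1 x) + a (G1 x)) := fun x => rfl
  have hDa : ∀ x, D x = j (a x) + a (j x) := fun x => rfl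
  have hza : ∀ x, z x = j (a x) + a (j x) + j x + a x := fun x => rfl
  have hgen : Gen Q e D z (X ^ 2 + X + C (ε + ε)) := by
    refine ⟨?_, h.dd_ssa, h.zz_ssa, ?_, ?_, h.zz_dd, ?_, h.dd_dd', hinj⟩
    · refine (h.j_ssa.sa.add (h.zz_ssa.sa.aeval g₀)).add
        (SA.mul_of_commute (h.j_ssa.sa.add h.a_ssa.sa) (h.zz_ssa.sa.aeval g₁) ?_)
      ext x
      change j (G1 x) + a (G1 x) = G1 (j x + a x)
      rw [map_add, hG1j, hG1a]
    · intro x
      have hr := hrel x
      rw [map_add] at hr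
      have e1 : z (G1 x) = j (a (G1 x)) + a (j (G1 x)) + j (G1 x) + a (G1 x) := hza _
      have e2 : z (G1 (G1 x)) = j (a (G1 (G1 x))) + a (j (G1 (G1 x))) + j (G1 (G1 x))
        + a (G1 (G1 x)) := hza _
      rw [e1, e2] at hr
      have e3 : e (e x) = e x + (ε • x + (G0 (G0 x) + G0 x) +
        ((j (a (G1 (G1 x))) + a (j (G1 (G1 x))) + j (G1 (G1 x)) + a (G1 (G1 x))) +
          (j (a (G1 x)) + a (j (G1 x)) + j (G1 x) + a (G1 x)))) := by
        simp only [hea, map_add, hG0j, hG1j, hG0a, hG1a, hG10, h.j_sq, h.a_sq]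
        apply eq_of_two (F := F) (w := -G0 x - a (G1 x) + j (G0 x) + j (G0 (G1 x))
          + a (G0 (G1 x)) + ε • G1 x + ε • G1 (G1 x))
        module
      rw [e3, hr, add_zero]
    · intro x
      rw [hea, hea, map_add, map_add, map_add, h.zz_j, h.zz_j, h.zz_a, hzG0, hzG1]
    · intro x
      rw [hea, hea, map_add, map_add, map_add, h.dd_j, h.dd_j, h.dd_a, hG0D, hG1D]
      apply eq_of_two (F := F) (w := D (G1 x))
      module
  have hj : ∀ x, j x = e x + G0 x + (D (G1 x) + z (G1 x)) := by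
    intro x
    rw [hea, hDa, hza]
    apply eq_of_two (F := F) (w := -(G0 x + j (G1 x) + a (G1 x) + j (a (G1 x)) + a (j (G1 x))))
    module
  have haa : ∀ x, a x = j x + D x + z x := by
    intro x
    rw [hDa, hza]
    apply eq_of_two (F := F) (w := -(j x + j (a x) + a (j x)))
    module
  rcases generic hnd hgen π hπ ⟨n, hn⟩ ⟨x0, hx0⟩ with
    ⟨C, hC, hCe, hCD, hCz⟩ | ⟨L, hLe, hLD, hLz, hLQ, hLd⟩
  · left
    have hC0 : ∀ x, C (G0 x) = G0 (C x) := fun x =>
      (aeval_commute (fun y => (hCz y).symm) g₀ x).symm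
    have hC1 : ∀ x, C (G1 x) = G1 (C x) := fun x =>
      (aeval_commute (fun y => (hCz y).symm) g₁ x).symm
    have hCj : ∀ x, C (j x) = j (C x) := by
      intro x
      rw [hj x, hj (C x), map_add, map_add, map_add, hCe, hCD, hCz, hC0, hC1]
    refine ⟨C, hC, hCj, ?_⟩
    intro x
    rw [haa x, haa (C x), map_add, map_add, hCj, hCD, hCz]
  · right
    have hL0 : ∀ x ∈ L, G0 x ∈ L := aeval_stable hLz g₀
    have hL1 : ∀ x ∈ L, G1 x ∈ L := aeval_stable hLz g₁
    have hLj : ∀ x ∈ L, j x ∈ L := by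
      intro x hx
      rw [hj x]
      exact L.add_mem (L.add_mem (hLe x hx) (hL0 x hx))
        (L.add_mem (hLD _ (hL1 x hx)) (hLz _ (hL1 x hx)))
    refine ⟨L, hLj, ?_, hLQ, hLd⟩
    intro x hx
    rw [haa x]
    exact L.add_mem (L.add_mem (hLj x hx) (hLD x hx)) (hLz x hx)

end primary

section split

variable {F : Type u} {V : Type v} [Field F] [Finite F] [CharP F 2] [AddCommGroup V] [Module F V]
  [FiniteDimensional F V]
variable {Q : QuadraticForm F V} {j a : Module.End F V} {δ ε : F}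

lemma Sys.restrict (h : Sys Q j a δ ε) {W : Submodule F V} (hj : ∀ x ∈ W, j x ∈ W)
    (ha : ∀ x ∈ W, a x ∈ W) : Sys (Q.comp W.subtype) (j.restrict hj) (a.restrict ha) δ ε := by
  refine ⟨fun x => h.j_ssa x, fun x => h.a_ssa x, ?_, ?_, h.irr, h.eps⟩
  · intro x
    exact Subtype.ext (h.j_sq x)
  · intro x
    exact Subtype.ext (h.a_sq x)

lemma restrict_nd_of_isCompl (hnd : (polarBilin Q).Nondegenerate) {W W' : Submodule F V}
    (hc : IsCompl W W') (horth : ∀ x ∈ W, ∀ y ∈ W', polar Q x y = 0) :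
    (polarBilin (Q.comp W.subtype)).Nondegenerate := by
  apply nondeg_of
  intro x hx
  apply Subtype.ext
  apply eq_zero_of_polar hnd
  intro y
  have hy : y ∈ W ⊔ W' := by
    rw [hc.sup_eq_top]
    trivial
  obtain ⟨u, hu, v, hv, rfl⟩ := Submodule.mem_sup.1 hy
  rw [polar_add_right, horth x x.2 v hv, add_zero]
  exact hx ⟨u, hu⟩

lemma HasInv.extend {W W' : Submodule F V} (hc : IsCompl W W')
    (horth : ∀ x ∈ W, ∀ y ∈ W', polar Q x y = 0) (hj : ∀ x ∈ W, j x ∈ W)
    (ha : ∀ x ∈ W, a x ∈ W) (hj' : ∀ x ∈ W', j x ∈ W') (ha' : ∀ x ∈ W', a x ∈ W')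
    (h : HasInv (Q.comp W.subtype) (j.restrict hj) (a.restrict ha)) : HasInv Q j a := by
  obtain ⟨C, hC, hCj, hCa⟩ := h
  let c : Module.End F V := W.subtype ∘ₗ C ∘ₗ W.projectionOnto W' hc
  have hcl : ∀ x (hx : x ∈ W), c x = C ⟨x, hx⟩ := by
    intro x hx
    change ((C (W.projectionOnto W' hc x) : W) : V) = _
    rw [Submodule.projectionOnto_apply_of_mem_left hc hx]
  have hcr : ∀ x ∈ W', c x = 0 := by
    intro x hx
    change ((C (W.projectionOnto W' hc x) : W) : V) = _
    rw [Submodule.projectionOnto_apply_of_mem_right hc hx, map_zero]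
    rfl
  have hdec : ∀ x : V, ∃ u ∈ W, ∃ v ∈ W', x = u + v := by
    intro x
    have hx : x ∈ W ⊔ W' := by
      rw [hc.sup_eq_top]
      trivial
    obtain ⟨u, hu, v, hv, h⟩ := Submodule.mem_sup.1 hx
    exact ⟨u, hu, v, hv, h.symm⟩
  have horth' : ∀ x ∈ W', ∀ y ∈ W, polar Q x y = 0 := by
    intro x hx y hy
    rw [polar_comm]
    exact horth y hy x hx
  refine ⟨c, ⟨?_, ?_, ?_, ?_⟩, ?_, ?_⟩
  · intro h0
    apply hC.ne
    ext x
    rw [← hcl x.1 x.2, h0]
    rfl
  · intro x
    obtain ⟨u, hu, v, hv, rfl⟩ := hdec x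
    rw [map_add, hcr v hv, add_zero, hcl u hu, hcl _ (C ⟨u, hu⟩).2]
    have := hC.sq ⟨u, hu⟩
    exact congrArg Subtype.val this
  · intro x y
    obtain ⟨u, hu, v, hv, rfl⟩ := hdec x
    obtain ⟨u', hu', v', hv', rfl⟩ := hdec y
    rw [map_add, hcr v hv, add_zero, hcl u hu, map_add, hcr v' hv', add_zero, hcl u' hu',
      polar_add_left, polar_add_right, horth _ (C ⟨u, hu⟩).2 v' hv',
      horth' v hv _ (C ⟨u', hu'⟩).2, add_zero, add_zero]
    exact hC.adj ⟨u, hu⟩ ⟨u', hu'⟩
  · intro x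
    obtain ⟨u, hu, v, hv, rfl⟩ := hdec x
    rw [map_add, hcr v hv, add_zero, hcl u hu, polar_add_left,
      horth' v hv _ (C ⟨u, hu⟩).2, add_zero]
    exact hC.q ⟨u, hu⟩
  · intro x
    obtain ⟨u, hu, v, hv, rfl⟩ := hdec x
    rw [map_add, map_add, hcr _ (hj' v hv), map_add, hcr v hv, add_zero, add_zero,
      hcl _ (hj u hu), hcl u hu]
    have := hCj ⟨u, hu⟩
    exact congrArg Subtype.val this
  · intro x
    obtain ⟨u, hu, v, hv, rfl⟩ := hdec x
    rw [map_add, map_add, hcr _ (ha' v hv), map_add, hcr v hv, add_zero, add_zero,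
      hcl _ (ha u hu), hcl u hu]
    have := hCa ⟨u, hu⟩
    exact congrArg Subtype.val this

lemma HasLag.sum {W W' : Submodule F V} (hc : IsCompl W W')
    (horth : ∀ x ∈ W, ∀ y ∈ W', polar Q x y = 0) (hj : ∀ x ∈ W, j x ∈ W)
    (ha : ∀ x ∈ W, a x ∈ W) (hj' : ∀ x ∈ W', j x ∈ W') (ha' : ∀ x ∈ W', a x ∈ W')
    (h : HasLag (Q.comp W.subtype) (j.restrict hj) (a.restrict ha))
    (h' : HasLag (Q.comp W'.subtype) (j.restrict hj') (a.restrict ha')) : HasLag Q j a := by
  obtain ⟨L, hLj, hLa, hLQ, hLd⟩ := h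
  obtain ⟨L', hL'j, hL'a, hL'Q, hL'd⟩ := h'
  have hLW : L.map W.subtype ≤ W := Submodule.map_subtype_le _ _
  have hLW' : L'.map W'.subtype ≤ W' := Submodule.map_subtype_le _ _
  refine ⟨L.map W.subtype ⊔ L'.map W'.subtype, ?_, ?_, ?_, ?_⟩
  · intro x hx
    obtain ⟨u, hu, v, hv, rfl⟩ := Submodule.mem_sup.1 hx
    obtain ⟨w, hw, rfl⟩ := hu
    obtain ⟨w', hw', rfl⟩ := hv
    rw [map_add]
    exact Submodule.add_mem _ (Submodule.mem_sup_left ⟨_, hLj w hw, rfl⟩)
      (Submodule.mem_sup_right ⟨_, hL'j w' hw', rfl⟩)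
  · intro x hx
    obtain ⟨u, hu, v, hv, rfl⟩ := Submodule.mem_sup.1 hx
    obtain ⟨w, hw, rfl⟩ := hu
    obtain ⟨w', hw', rfl⟩ := hv
    rw [map_add]
    exact Submodule.add_mem _ (Submodule.mem_sup_left ⟨_, hLa w hw, rfl⟩)
      (Submodule.mem_sup_right ⟨_, hL'a w' hw', rfl⟩)
  · intro x hx
    obtain ⟨u, hu, v, hv, rfl⟩ := Submodule.mem_sup.1 hx
    rw [Qadd, horth u (hLW hu) v (hLW' hv), add_zero]
    obtain ⟨w, hw, rfl⟩ := hu
    obtain ⟨w', hw', rfl⟩ := hv
    have e1 : Q (W.subtype w) = 0 := hLQ w hw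
    have e2 : Q (W'.subtype w') = 0 := hL'Q w' hw'
    rw [e1, e2, add_zero]
  · have hdisj : L.map W.subtype ⊓ L'.map W'.subtype = ⊥ := by
      rw [eq_bot_iff, ← hc.inf_eq_bot]
      exact inf_le_inf hLW hLW'
    have e1 := Submodule.finrank_sup_add_finrank_inf_eq (L.map W.subtype) (L'.map W'.subtype)
    rw [hdisj, finrank_bot, add_zero] at e1
    have e2 : finrank F (L.map W.subtype) = finrank F L :=
      (Submodule.equivMapOfInjective W.subtype W.injective_subtype L).finrank_eq.symm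
    have e3 : finrank F (L'.map W'.subtype) = finrank F L' :=
      (Submodule.equivMapOfInjective W'.subtype W'.injective_subtype L').finrank_eq.symm
    have e4 := Submodule.finrank_add_eq_of_isCompl hc
    rw [e1, e2, e3]
    omega

end split

section key

variable {F : Type u} [Field F] [Finite F] [CharP F 2] {δ ε : F}

/-- A self-adjoint operator commuting with `j` and `a`, neither nilpotent nor injective, gives a
decomposition. -/
lemma key_step {V : Type v} [AddCommGroup V] [Module F V] [FiniteDimensional F V]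
    {Q : QuadraticForm F V} (hnd : (polarBilin Q).Nondegenerate) {j a : Module.End F V}
    (ih : ∀ (W : Submodule F V) (hj : ∀ x ∈ W, j x ∈ W) (ha : ∀ x ∈ W, a x ∈ W),
      (polarBilin (Q.comp W.subtype)).Nondegenerate → finrank F W < finrank F V →
      (∃ x : W, x ≠ 0) →
      HasInv (Q.comp W.subtype) (j.restrict hj) (a.restrict ha) ∨
      HasLag (Q.comp W.subtype) (j.restrict hj) (a.restrict ha))
    (T : Module.End F V) (hT : SA Q T) (hTj : ∀ x, T (j x) = j (T x))
    (hTa : ∀ x, T (a x) = a (T x)) (hTnil : ∀ n : ℕ, T ^ n ≠ 0)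
    (hTinj : ∃ x, x ≠ 0 ∧ T x = 0) : HasInv Q j a ∨ HasLag Q j a := by
  obtain ⟨n, hn⟩ := Filter.eventually_atTop.1 (LinearMap.eventually_isCompl_ker_pow_range_pow T)
  set m := n + 1 with hm
  have hcompl := hn m (by omega)
  set W := LinearMap.ker (T ^ m) with hW
  set W' := LinearMap.range (T ^ m) with hW'
  have hTmj : ∀ x, (T ^ m) (j x) = j ((T ^ m) x) := by
    intro x
    have := aeval_commute hTj (X ^ m) x
    rwa [map_pow, aeval_X] at this
  have hTma : ∀ x, (T ^ m) (a x) = a ((T ^ m) x) := by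
    intro x
    have := aeval_commute hTa (X ^ m) x
    rwa [map_pow, aeval_X] at this
  have hWj : ∀ x ∈ W, j x ∈ W := by
    intro x hx
    rw [hW, LinearMap.mem_ker] at hx ⊢
    rw [hTmj, hx, map_zero]
  have hWa : ∀ x ∈ W, a x ∈ W := by
    intro x hx
    rw [hW, LinearMap.mem_ker] at hx ⊢
    rw [hTma, hx, map_zero]
  have hW'j : ∀ x ∈ W', j x ∈ W' := by
    rintro _ ⟨x, rfl⟩
    exact ⟨j x, hTmj x⟩
  have hW'a : ∀ x ∈ W', a x ∈ W' := by
    rintro _ ⟨x, rfl⟩
    exact ⟨a x, hTma x⟩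
  have horth : ∀ x ∈ W, ∀ y ∈ W', polar Q x y = 0 := by
    rintro x hx _ ⟨y, rfl⟩
    rw [← hT.pow m, LinearMap.mem_ker.1 hx, polar_zero_left]
  have horth' : ∀ x ∈ W', ∀ y ∈ W, polar Q x y = 0 := by
    intro x hx y hy
    rw [polar_comm]
    exact horth y hy x hx
  have hWne : ∃ x : W, x ≠ 0 := by
    obtain ⟨x, hx, hTx⟩ := hTinj
    refine ⟨⟨x, ?_⟩, ?_⟩
    · rw [hW, LinearMap.mem_ker, hm, pow_succ, Module.End.mul_apply, hTx, map_zero]
    · intro h0
      exact hx (congrArg Subtype.val h0)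
  have hW'ne : ∃ x : W', x ≠ 0 := by
    by_contra hcon
    push Not at hcon
    apply hTnil m
    ext x
    exact congrArg Subtype.val (hcon ⟨(T ^ m) x, ⟨x, rfl⟩⟩)
  have hpos : ∀ U : Submodule F V, (∃ x : U, x ≠ 0) → 0 < finrank F U := by
    rintro U ⟨x, hx⟩
    exact finrank_pos_iff_exists_ne_zero.2 ⟨x, hx⟩
  have hsum := Submodule.finrank_add_eq_of_isCompl hcompl
  have hp1 := hpos W hWne
  have hp2 := hpos W' hW'ne
  have h1 := ih W hWj hWa (restrict_nd_of_isCompl hnd hcompl horth) (by omega) hWne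
  have h2 := ih W' hW'j hW'a (restrict_nd_of_isCompl hnd hcompl.symm horth') (by omega) hW'ne
  rcases h1 with h1 | h1
  · left
    exact HasInv.extend hcompl horth hWj hWa hW'j hW'a h1
  · rcases h2 with h2 | h2
    · left
      exact HasInv.extend hcompl.symm horth' hW'j hW'a hWj hWa h2
    · right
      exact HasLag.sum hcompl horth hWj hWa hW'j hW'a h1 h2

theorem key_aux (n : ℕ) : ∀ (V : Type v) [AddCommGroup V] [Module F V] [FiniteDimensional F V]
    (Q : QuadraticForm F V) (_ : (polarBilin Q).Nondegenerate) (j a : Module.End F V)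
    (_ : Sys Q j a δ ε) (_ : ∃ x : V, x ≠ 0) (_ : finrank F V = n),
    HasInv Q j a ∨ HasLag Q j a := by
  induction n using Nat.strong_induction_on with
  | _ n ih =>
    intro V _ _ _ Q hnd j a h hV hn
    have ih' : ∀ (W : Submodule F V) (hj : ∀ x ∈ W, j x ∈ W) (ha : ∀ x ∈ W, a x ∈ W),
        (polarBilin (Q.comp W.subtype)).Nondegenerate → finrank F W < finrank F V →
        (∃ x : W, x ≠ 0) →
        HasInv (Q.comp W.subtype) (j.restrict hj) (a.restrict ha) ∨
        HasLag (Q.comp W.subtype) (j.restrict hj) (a.restrict ha) := by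
      intro W hj ha hW hlt hWne
      exact ih (finrank F W) (by omega) W (Q.comp W.subtype) hW _ _ (h.restrict hj ha) hWne rfl
    by_cases hnil : ∃ n : ℕ, (dd j a) ^ n = 0
    · exact special hnd h hV hnil
    push Not at hnil
    by_cases hinj : ∀ x, dd j a x = 0 → x = 0
    · -- primary decomposition of `zz`
      obtain ⟨x0, hx0⟩ := hV
      have hmin0 : minpoly F (zz j a) ≠ 0 :=
        minpoly.ne_zero (Algebra.IsIntegral.isIntegral (zz j a))
      have hminu : ¬ IsUnit (minpoly F (zz j a)) := by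
        intro hu
        obtain ⟨b, hb⟩ := hu.exists_right_inv
        apply hx0
        have e1 : aeval (zz j a) (minpoly F (zz j a) * b) x0 = x0 := by
          rw [hb, aeval_one_apply]
        rw [mul_comm, aeval_mul_apply, minpoly.aeval, LinearMap.zero_apply, map_zero] at e1
        exact e1.symm
      obtain ⟨π, hπ, k, hk⟩ := WfDvdMonoid.exists_irreducible_factor hminu hmin0
      by_cases hπn : ∃ m : ℕ, aeval (zz j a) (π ^ m) = 0
      · exact primary hnd h ⟨x0, hx0⟩ hinj π hπ hπn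
      push Not at hπn
      apply key_step hnd ih' (aeval (zz j a) π) (h.zz_ssa.sa.aeval π)
        (fun x => aeval_commute h.zz_j π x) (fun x => aeval_commute h.zz_a π x)
      · intro m
        rw [← map_pow]
        exact hπn m
      · by_contra hcon
        push Not at hcon
        have hk0 : aeval (zz j a) k = 0 := by
          ext x
          by_contra hne
          apply hcon _ hne
          rw [← aeval_mul_apply, ← hk, minpoly.aeval]
          rfl
        have hdvd : minpoly F (zz j a) ∣ k := minpoly.dvd F _ hk0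
        obtain ⟨c, hc⟩ := hdvd
        have hk00 : k ≠ 0 := by
          rintro rfl
          exact hmin0 (by rw [hk, mul_zero])
        apply hπ.not_isUnit
        rw [hk] at hc
        have e1 : k * 1 = k * (π * c) := by
          rw [mul_one]
          calc k = π * k * c := hc
            _ = k * (π * c) := by ring
        exact IsUnit.of_mul_eq_one c (mul_left_cancel₀ hk00 e1).symm
    · -- Fitting decomposition of the anticommutator
      push Not at hinj
      obtain ⟨x1, hx1, hx10⟩ := hinj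
      apply key_step hnd ih' (dd j a * dd j a)
        (SA.mul_of_commute h.dd_ssa.sa h.dd_ssa.sa rfl) h.dd_sq_j h.dd_sq_a
      · intro m hm
        rw [← pow_two, ← pow_mul] at hm
        exact hnil _ hm
      · exact ⟨x1, hx10, by rw [Module.End.mul_apply, hx1, map_zero]⟩

/-- Two operators of field type (or one of field type and one self-adjoint idempotent) have a
common involutory isometry or a common Lagrangian. -/
theorem key {V : Type v} [AddCommGroup V] [Module F V] [FiniteDimensional F V]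
    {Q : QuadraticForm F V} (hnd : (polarBilin Q).Nondegenerate) {j a : Module.End F V}
    (h : Sys Q j a δ ε) (hV : ∃ x : V, x ≠ 0) : HasInv Q j a ∨ HasLag Q j a :=
  key_aux (finrank F V) V Q hnd j a h hV rfl

end key

end Pool.Agent.H49.UDN
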