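import Pool.Agent.H49.UDN.ESplit

set_option autoImplicit false
set_option linter.unusedSectionVars false

/-!
Characteristic two: two conjugates in the orthogonal group always have a common nontrivial
companion.
-/

namespace Pool.Agent.H49.UDN

open QuadraticMap Module Polynomial

universe u v w

section root

variable {F K : Type u} [Field F] [Field K] [Finite K] [Algebra F K] [CharP F 2]

lemma exists_root_fixed (σ : K ≃ₐ[F] K) (h2 : ∀ x, σ (σ x) = x) (h1 : σ ≠ 1)
    (hd : finrank F K % 4 = 0) {δ : F} (hirr : ∀ c : F, c * c + c + δ ≠ 0) :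
    ∃ j : K, j * j = j + algebraMap F K δ ∧ σ j = j := by
  have := Finite.of_injective _ (algebraMap F K).injective
  have hfd : FiniteDimensional F K := Module.Finite.of_finite (R := F) (M := K)
  have hPirr := PP_irreducible hirr
  have : Fact (Irreducible (PP δ)) := ⟨hPirr⟩
  have hdeg : (PP δ).natDegree = 2 := by
    rw [PP]
    compute_degree!
  have hfr : finrank F (AdjoinRoot (PP δ)) = 2 := by
    rw [(AdjoinRoot.powerBasis hPirr.ne_zero).finrank, AdjoinRoot.powerBasis_dim, hdeg]
  have h6 := finrank_fixF σ h2 h1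
  obtain ⟨φ⟩ : Nonempty (AdjoinRoot (PP δ) →ₐ[F] fixF σ) := by
    apply FiniteField.nonempty_algHom_of_finrank_dvd
    rw [hfr]
    omega
  have hroot : aeval (φ (AdjoinRoot.root (PP δ))) (PP δ) = 0 := by
    rw [aeval_algHom_apply, AdjoinRoot.aeval_eq, AdjoinRoot.mk_self, map_zero]
  set i := φ (AdjoinRoot.root (PP δ)) with hi
  refine ⟨(i : K), ?_, mem_fixF.1 i.2⟩
  have e1 : i * i + i + algebraMap F (fixF σ) δ = 0 := by
    rw [PP] at hroot
    simp only [map_add, map_pow, aeval_X, aeval_C] at hroot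
    linear_combination hroot
  have hch : CharP K 2 := charP_of_injective_algebraMap (algebraMap F K).injective 2
  have h20 := two_zero (F := K)
  have e2 : (i : K) * (i : K) + (i : K) + algebraMap F K δ = 0 := by
    have := congrArg (fun t : fixF σ => (t : K)) e1
    exact this
  linear_combination e2 - ((i : K) + algebraMap F K δ) * h20

lemma exists_delta (F : Type u) [Field F] [Finite F] : ∃ δ : F, ∀ c : F, c * c + c + δ ≠ 0 := by
  have hninj : ¬ Function.Injective (fun c : F => c * c + c) := by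
    intro h
    have h1 : (0 : F) = -1 := h (by ring)
    have h2 : (1 : F) = 0 := by linear_combination h1
    exact one_ne_zero h2
  have hnsurj : ¬ Function.Surjective (fun c : F => c * c + c) := by
    intro h
    exact hninj (Finite.injective_iff_surjective.2 h)
  rw [Function.Surjective] at hnsurj
  push Not at hnsurj
  obtain ⟨a, ha⟩ := hnsurj
  refine ⟨-a, ?_⟩
  intro c hc
  apply ha c
  linear_combination hc

end root

section link

variable {F : Type u} {V : Type v} [Field F] [Finite F] [CharP F 2] [AddCommGroup V] [Module F V]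
  [FiniteDimensional F V] {Q : QuadraticForm F V}

/-- Operators of field type. -/
structure FieldLike (Q : QuadraticForm F V) (δ : F) (J : Module.End F V) : Prop where
  ssa : SSA Q J
  sq : ∀ x, J (J x) = J x + δ • x

lemma FieldLike.no_eigen {δ : F} {J : Module.End F V} (h : FieldLike Q δ J)
    (hirr : ∀ c : F, c * c + c + δ ≠ 0) {x : V} {c : F} (hx : J x = c • x) : x = 0 := by
  have h1 := h.sq x
  rw [hx, map_smul, hx] at h1
  have h2 : (c * c + c + δ) • x = 0 := by
    have h20 := two_zero (F := F)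
    have e1 : (c * c + c + δ) • x = (c • c • x - (c • x + δ • x)) + (2 : F) • (c • x + δ • x) := by
      module
    rw [e1, h1, sub_self, h20, zero_smul, add_zero]
  exact (smul_eq_zero.1 h2).resolve_left (hirr c)

lemma FieldLike.conj {δ : F} {J : Module.End F V} (h : FieldLike Q δ J) (g : orth Q) :
    FieldLike Q δ ((g.1 : V →ₗ[F] V) ∘ₗ J ∘ₗ ((g⁻¹).1 : V →ₗ[F] V)) := by
  have hc : ∀ x, ((g.1 : V →ₗ[F] V) ∘ₗ J ∘ₗ ((g⁻¹).1 : V →ₗ[F] V)) x = g.1 (J ((g⁻¹).1 x)) :=
    fun x => rfl
  refine ⟨?_, ?_⟩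
  · intro x
    obtain ⟨x', rfl⟩ : ∃ x', x = g.1 x' := ⟨(g⁻¹).1 x, (orth_apply_inv_self g x).symm⟩
    rw [hc, orth_inv_apply_self, orth_polar]
    exact h.ssa x'
  · intro x
    rw [hc, hc, orth_inv_apply_self, h.sq, map_add, map_smul, orth_apply_inv_self]

lemma not_allEich_cent_field (hnd : (polarBilin Q).Nondegenerate) (hdim : 7 ≤ finrank F V)
    {δ : F} {J : Module.End F V} (hJ : FieldLike Q δ J) (hirr : ∀ c : F, c * c + c + δ ≠ 0) :
    ¬ AllEich Q (cent Q J) := by
  intro h
  obtain ⟨a, _, ha0, ha⟩ := exists_singular Q (⊤ : Submodule F V) (by rw [finrank_top]; omega)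
  obtain ⟨c, hc⟩ := eigen_of_commute hnd hdim J (by
    intro u v hu huv x
    exact (mem_cent.1 (h u v hu huv) x).symm) a ha
  exact ha0 (hJ.no_eigen hirr hc)

/-- An irreducible isometry in dimension divisible by four commutes with a map of field type. -/
lemma field_of_irr (hnd : (polarBilin Q).Nondegenerate) (t : orth Q)
    (hirr : IrrOp (t.1 : V →ₗ[F] V)) (hdim : finrank F V % 4 = 0) (hdim2 : 2 ≤ finrank F V)
    {δ : F} (hδ : ∀ c : F, c * c + c + δ ≠ 0) :
    ∃ J : Module.End F V, FieldLike Q δ J ∧ ∀ x, t.1 (J x) = J (t.1 x) := by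
  obtain ⟨K, _, _, _, _, _, σ, hadj, h2, h1, hcomm, hfr, hfr1⟩ := irr_structure Q hnd t hirr hdim2
  obtain ⟨j, hj, hσj⟩ := exists_root_fixed σ h2 h1 (by rw [hfr]; exact hdim) hδ
  let J : Module.End F V :=
    { toFun := fun x => j • x
      map_add' := fun x y => smul_add j x y
      map_smul' := fun a x => smul_comm j a x }
  have hJ : ∀ x, J x = j • x := fun x => rfl
  have hadjJ : ∀ x y, polar Q (J x) y = polar Q x (J y) := by
    intro x y
    rw [hJ, hadj, hσj, hJ]
  have hct : ∀ x, t.1 (J x) = J (t.1 x) := by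
    intro x
    rw [hJ, hJ, hcomm]
  refine ⟨J, ⟨?_, ?_⟩, hct⟩
  · intro x
    exact semilinear_eq_zero (fun x => polar Q (J x) x)
      (by
        intro x y
        have e1 : polar Q (J y) x = polar Q (J x) y := by
          rw [hadjJ, polar_comm]
        rw [map_add, polar_add_left, polar_add_right, polar_add_right, e1]
        linear_combination (polar Q (J x) y) * two_zero (F := F))
      (by
        intro a x
        rw [map_smul, polar_smul_left, polar_smul_right]
        simp only [smul_eq_mul]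
        ring) (t.1 : V →ₗ[F] V)
      (by
        intro x
        change polar Q (J (t.1 x)) (t.1 x) = _
        rw [← hct, orth_polar]) hirr hdim2 x
  · intro x
    rw [hJ, hJ, smul_smul, hj, add_smul, algebraMap_smul]

/-- Gluing maps of field type. -/
lemma field_glue (s : orth Q) (W : Submodule F V)
    (hs : ∀ x ∈ W, s.1 x ∈ W) (hs' : ∀ x ∈ perp Q W, s.1 x ∈ perp Q W)
    (hc : IsCompl W (perp Q W)) {δ : F} (J₁ : Module.End F W) (J₂ : Module.End F (perp Q W))
    (h₁ : FieldLike (Q.comp W.subtype) δ J₁)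
    (h₂ : FieldLike (Q.comp (perp Q W).subtype) δ J₂)
    (c₁ : ∀ x, (restrOrth s W hs).1 (J₁ x) = J₁ ((restrOrth s W hs).1 x))
    (c₂ : ∀ x, (restrOrth s (perp Q W) hs').1 (J₂ x) = J₂ ((restrOrth s (perp Q W) hs').1 x)) :
    ∃ J : Module.End F V, FieldLike Q δ J ∧ ∀ x, s.1 (J x) = J (s.1 x) := by
  let J : V →ₗ[F] V := LinearMap.ofIsCompl hc (W.subtype ∘ₗ J₁) ((perp Q W).subtype ∘ₗ J₂)
  have e₁ : ∀ x : W, J x = (J₁ x : V) := by
    intro x
    exact LinearMap.ofIsCompl_apply_left hc x
  have e₂ : ∀ x : perp Q W, J x = (J₂ x : V) := by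
    intro x
    exact LinearMap.ofIsCompl_apply_right hc x
  have dec : ∀ x : V, ∃ (a : W) (b : perp Q W), x = a + b := by
    intro x
    have : x ∈ W ⊔ perp Q W := by
      rw [hc.sup_eq_top]
      trivial
    obtain ⟨a, ha, b, hb, rfl⟩ := Submodule.mem_sup.1 this
    exact ⟨⟨a, ha⟩, ⟨b, hb⟩, rfl⟩
  have orth0 : ∀ (a : W) (b : perp Q W), polar Q (a : V) (b : V) = 0 := by
    intro a b
    exact (mem_perp.1 b.2) a a.2
  have orth0' : ∀ (a : W) (b : perp Q W), polar Q (b : V) (a : V) = 0 := by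
    intro a b
    rw [polar_comm]
    exact orth0 a b
  refine ⟨J, ⟨?_, ?_⟩, ?_⟩
  · intro x
    obtain ⟨a, b, rfl⟩ := dec x
    have k₁ : polar Q (J₁ a : V) (a : V) = 0 := h₁.ssa a
    have k₂ : polar Q (J₂ b : V) (b : V) = 0 := h₂.ssa b
    rw [map_add, e₁, e₂]
    simp only [polar_add_left, polar_add_right, orth0, orth0', k₁, k₂, add_zero]
  · intro x
    obtain ⟨a, b, rfl⟩ := dec x
    have k₁ := congrArg Subtype.val (h₁.sq a)
    have k₂ := congrArg Subtype.val (h₂.sq b)
    simp only [Submodule.coe_add, Submodule.coe_smul] at k₁ k₂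
    rw [map_add, map_add, e₁, e₂, e₁, e₂, k₁, k₂]
    module
  · intro x
    obtain ⟨a, b, rfl⟩ := dec x
    have k₁ : s.1 (J₁ a : V) = (J₁ ((restrOrth s W hs).1 a) : V) :=
      congrArg Subtype.val (c₁ a)
    have k₂ : s.1 (J₂ b : V) = (J₂ ((restrOrth s (perp Q W) hs').1 b) : V) :=
      congrArg Subtype.val (c₂ b)
    have l₁ : s.1 (a : V) = (((restrOrth s W hs).1 a : W) : V) := rfl
    have l₂ : s.1 (b : V) = (((restrOrth s (perp Q W) hs').1 b : perp Q W) : V) := rfl
    rw [map_add, map_add, map_add, e₁, e₂, k₁, k₂, l₁, l₂, map_add, e₁, e₂]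

/-- Two operators of field type on a nonsplit space. -/
lemma link_field (hnd : (polarBilin Q).Nondegenerate) (hdim : 7 ≤ finrank F V)
    (hns : ¬ Split Q) (K : Subgroup (orth Q)) (hK : AllEich Q K) {δ : F}
    (hδ : ∀ c : F, c * c + c + δ ≠ 0) {J J' : Module.End F V} (hJ : FieldLike Q δ J)
    (hJ' : FieldLike Q δ J') (s s' : orth Q) (hs : ∀ x, s.1 (J x) = J (s.1 x))
    (hs' : ∀ x, s'.1 (J' x) = J' (s'.1 x)) : Linked Q K s s' := by
  have hV : ∃ x : V, x ≠ 0 := by
    obtain ⟨x, _, hx, _⟩ := exists_singular Q (⊤ : Submodule F V) (by rw [finrank_top]; omega)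
    exact ⟨x, hx⟩
  rcases key hnd (Sys.mk hJ.ssa hJ'.ssa hJ.sq hJ'.sq hδ (Or.inr rfl) : Sys Q J J' δ δ) hV with
    ⟨C, hC, hCJ, hCJ'⟩ | ⟨L, _, _, hL, hLd⟩
  · obtain ⟨T, hTK, hT⟩ := exists_mem hnd K hK hJ.ssa hJ.sq hδ hC hCJ
    refine ⟨T, cent Q J, cent Q J', hTK, ?_, ?_, ?_, hs, hs',
      not_allEich_cent_field hnd hdim hJ hδ, not_allEich_cent_field hnd hdim hJ' hδ⟩
    · apply nonCent_of_unip hnd hdim T C hT hC.ne
      intro x
      rw [hC.sq]
    · rw [mem_cent]
      intro x
      rw [hT, hT, map_add, hCJ]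
    · rw [mem_cent]
      intro x
      rw [hT, hT, map_add, hCJ']
  · exact absurd ⟨L, hL, hLd⟩ hns

/-- An operator of field type and a nonsplit nondegenerate subspace of half the dimension. -/
lemma link_stab (hnd : (polarBilin Q).Nondegenerate) (hdim : 7 ≤ finrank F V)
    (K : Subgroup (orth Q)) (hK : AllEich Q K) {δ : F}
    (hδ : ∀ c : F, c * c + c + δ ≠ 0) {J : Module.End F V} (hJ : FieldLike Q δ J)
    (W : Submodule F V) (hc : IsCompl W (perp Q W)) (hW : 2 * finrank F W = finrank F V)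
    (hns : ¬ Split (Q.comp W.subtype)) (s s' : orth Q) (hs : ∀ x ∈ W, s.1 x ∈ W)
    (hs' : ∀ x, s'.1 (J x) = J (s'.1 x)) : Linked Q K s s' := by
  have hV : ∃ x : V, x ≠ 0 := by
    obtain ⟨x, _, hx, _⟩ := exists_singular Q (⊤ : Submodule F V) (by rw [finrank_top]; omega)
    exact ⟨x, hx⟩
  let a : Module.End F V := W.subtype ∘ₗ W.projectionOnto (perp Q W) hc
  have hal : ∀ x ∈ W, a x = x := by
    intro x hx
    change ((W.projectionOnto (perp Q W) hc x : W) : V) = x
    rw [Submodule.projectionOnto_apply_of_mem_left hc hx]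
  have har : ∀ x ∈ perp Q W, a x = 0 := by
    intro x hx
    change ((W.projectionOnto (perp Q W) hc x : W) : V) = 0
    rw [Submodule.projectionOnto_apply_of_mem_right hc hx]
    rfl
  have hamem : ∀ x, a x ∈ W := fun x => (W.projectionOnto (perp Q W) hc x).2
  have dec : ∀ x : V, ∃ u ∈ W, ∃ v ∈ perp Q W, x = u + v := by
    intro x
    have hx : x ∈ W ⊔ perp Q W := by
      rw [hc.sup_eq_top]
      trivial
    obtain ⟨u, hu, v, hv, h⟩ := Submodule.mem_sup.1 hx
    exact ⟨u, hu, v, hv, h.symm⟩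
  have ha_ssa : SSA Q a := by
    intro x
    obtain ⟨u, hu, v, hv, rfl⟩ := dec x
    rw [map_add, hal u hu, har v hv, add_zero, polar_add_right, polar_self_zero,
      mem_perp.1 hv u hu, add_zero]
  have ha_sq : ∀ x, a (a x) = a x + (0 : F) • x := by
    intro x
    rw [zero_smul, add_zero, hal _ (hamem x)]
  rcases key hnd (Sys.mk hJ.ssa ha_ssa hJ.sq ha_sq hδ (Or.inl rfl) : Sys Q J a δ 0) hV with
    ⟨C, hC, hCJ, hCa⟩ | ⟨L, _, hLa, hL, hLd⟩
  · obtain ⟨T, hTK, hT⟩ := exists_mem hnd K hK hJ.ssa hJ.sq hδ hC hCJ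
    have hW0 : W ≠ ⊥ := by
      intro h
      rw [h, finrank_bot] at hW
      omega
    have hWtop : W ≠ ⊤ := by
      intro h
      rw [h, finrank_top] at hW
      omega
    refine ⟨T, stab Q W, cent Q J, hTK, ?_, ?_, ?_, mem_stab_of hs, hs',
      not_allEich_stab hnd hdim W hW0 hWtop, not_allEich_cent_field hnd hdim hJ hδ⟩
    · apply nonCent_of_unip hnd hdim T C hT hC.ne
      intro x
      rw [hC.sq]
    · apply mem_stab_of
      intro x hx
      rw [hT]
      apply W.add_mem hx
      have : C x = a (C x) := by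
        rw [← hCa, hal x hx]
      rw [this]
      exact hamem _
    · rw [mem_cent]
      intro x
      rw [hT, hT, map_add, hCJ]
  · exfalso
    apply hns
    -- dimensions
    have hiso : ∀ S : Submodule F V, (∀ x ∈ S, Q x = 0) → ∀ U U' : Submodule F V, S ≤ U →
        (∀ x ∈ U, ∀ y ∈ U', polar Q x y = 0) → U ⊓ U' = ⊥ →
        2 * finrank F S + finrank F U' ≤ finrank F V := by
      intro S hS U U' hSU hUU' hbot
      have h1 : S ⊔ U' ≤ perp Q S := by
        apply sup_le
        · intro x hx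
          rw [mem_perp]
          intro y hy
          exact polar_zero_of_sing hS hy hx
        · intro x hx
          rw [mem_perp]
          intro y hy
          exact hUU' y (hSU hy) x hx
      have h2 := Submodule.finrank_mono h1
      have h3 := finrank_perp hnd S
      have h4 := Submodule.finrank_sup_add_finrank_inf_eq S U'
      have h5 : S ⊓ U' = ⊥ := by
        rw [eq_bot_iff, ← hbot]
        exact inf_le_inf_right _ hSU
      rw [h5, finrank_bot] at h4
      have h6 := Submodule.finrank_le S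
      omega
    have hsum := Submodule.finrank_add_eq_of_isCompl hc
    have d1 := hiso (L ⊓ W) (fun x hx => hL x hx.1) W (perp Q W) inf_le_right
      (fun x hx y hy => mem_perp.1 hy x hx) hc.inf_eq_bot
    have d2 := hiso (L ⊓ perp Q W) (fun x hx => hL x hx.1) (perp Q W) W inf_le_right
      (fun x hx y hy => by rw [polar_comm]; exact mem_perp.1 hx y hy) hc.symm.inf_eq_bot
    have d3 : L ≤ (L ⊓ W) ⊔ (L ⊓ perp Q W) := by
      intro x hx
      obtain ⟨u, hu, v, hv, rfl⟩ := dec x
      have e1 : a (u + v) = u := by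
        rw [map_add, hal u hu, har v hv, add_zero]
      have e2 : u ∈ L := by
        rw [← e1]
        exact hLa _ hx
      have e3 : v ∈ L := by
        have := L.sub_mem hx e2
        rwa [add_sub_cancel_left] at this
      exact Submodule.add_mem _ (Submodule.mem_sup_left ⟨e2, hu⟩)
        (Submodule.mem_sup_right ⟨e3, hv⟩)
    have d4 := Submodule.finrank_mono d3
    have d5 := Submodule.finrank_sup_add_finrank_inf_eq (L ⊓ W) (L ⊓ perp Q W)
    refine ⟨(L ⊓ W).comap W.subtype, fun x hx => hL x hx.1, ?_⟩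
    have e1 : ((L ⊓ W).comap W.subtype).map W.subtype = L ⊓ W := by
      rw [Submodule.map_comap_subtype]
      exact inf_eq_right.2 inf_le_right
    have e2 : finrank F (((L ⊓ W).comap W.subtype).map W.subtype) =
        finrank F ((L ⊓ W).comap W.subtype) :=
      (Submodule.equivMapOfInjective W.subtype W.injective_subtype _).finrank_eq.symm
    rw [e1] at e2
    rw [← e2]
    omega

end link

end Pool.Agent.H49.UDN
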