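import Pool.Agent.H49.UDN.Main

set_option autoImplicit false

/-!
Total dominating sets in the simple orthogonal groups.
-/

namespace Pool.Agent.H49.UDN

open QuadraticMap Module Polynomial
open scoped commutatorElement

universe u v

/-- `S` is a total dominating set of the group `G`: for every `x ≠ 1` some `s ∈ S` generates `G`
together with `x`. -/
def IsTDS (G : Type*) [Group G] (S : Set G) : Prop :=
  ∀ x : G, x ≠ 1 → ∃ s ∈ S, Subgroup.closure {x, s} = ⊤

/-- The uniform domination number: the smallest size of a total dominating set whose elements all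
lie in one conjugacy class (the value is `⊤` if there is none). -/
noncomputable def gammaU (G : Type*) [Group G] : ℕ∞ :=
  ⨅ (S : Finset G) (_ : IsTDS G (S : Set G) ∧ ∀ a ∈ S, ∀ b ∈ S, IsConj a b), (S.card : ℕ∞)

/-- The group `Ω`, the commutator subgroup of the orthogonal group of `Q`, modulo its centre. -/
abbrev POmega {F : Type*} {V : Type*} [Field F] [AddCommGroup V] [Module F V]
    (Q : QuadraticForm F V) : Type _ :=
  (commutator (orth Q)) ⧸ Subgroup.center (commutator (orth Q))

section final

variable {F : Type u} {V : Type v} [Field F] [Finite F] [AddCommGroup V] [Module F V]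
  [FiniteDimensional F V] {Q : QuadraticForm F V}

lemma allEich_commutator (hnd : (polarBilin Q).Nondegenerate) (hdim : 7 ≤ finrank F V) :
    AllEich Q (commutator (orth Q)) := by
  intro u v hu huv
  apply eich_mem_of_comm hnd hdim
  intro u v hu huv u' v' hu' huv'
  rw [commutator_def]
  exact Subgroup.commutator_mem_commutator (Subgroup.mem_top _) (Subgroup.mem_top _)

/-- The second derived subgroup. -/
def der2 (Q : QuadraticForm F V) : Subgroup (orth Q) :=
  (commutator (commutator (orth Q))).map (commutator (orth Q)).subtype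

lemma allEich_der2 (hnd : (polarBilin Q).Nondegenerate) (hdim : 7 ≤ finrank F V) :
    AllEich Q (der2 Q) := by
  intro u v hu huv
  apply eich_mem_of_comm hnd hdim
  intro u v hu huv u' v' hu' huv'
  have h1 : ⁅(⟨eich Q u v hu huv, allEich_commutator hnd hdim u v hu huv⟩ : commutator (orth Q)),
      (⟨eich Q u' v' hu' huv', allEich_commutator hnd hdim u' v' hu' huv'⟩ :
        commutator (orth Q))⁆ ∈ commutator (commutator (orth Q)) := by
    rw [commutator_def (commutator (orth Q))]
    exact Subgroup.commutator_mem_commutator (Subgroup.mem_top _) (Subgroup.mem_top _)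
  exact ⟨_, h1, rfl⟩

/-- If the image of `H` in `POmega Q` is everything then `H` contains all Siegel
transformations. -/
lemma allEich_of_map_top (hnd : (polarBilin Q).Nondegenerate) (hdim : 7 ≤ finrank F V)
    (H : Subgroup (orth Q))
    (h : (H.subgroupOf (commutator (orth Q))).map
      (QuotientGroup.mk' (Subgroup.center (commutator (orth Q)))) = ⊤) : AllEich Q H := by
  have key : ∀ x y : commutator (orth Q), (⁅x, y⁆ : commutator (orth Q)).1 ∈ H := by
    have dec : ∀ x : commutator (orth Q), ∃ h' ∈ H.subgroupOf (commutator (orth Q)),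
        ∃ z ∈ Subgroup.center (commutator (orth Q)), x = h' * z := by
      intro x
      have hx : (QuotientGroup.mk' (Subgroup.center (commutator (orth Q)))) x ∈
          (H.subgroupOf (commutator (orth Q))).map
            (QuotientGroup.mk' (Subgroup.center (commutator (orth Q)))) := by
        rw [h]
        trivial
      obtain ⟨h', hh', hh⟩ := hx
      refine ⟨h', hh', h'⁻¹ * x, ?_, by group⟩
      exact QuotientGroup.eq.1 hh
    intro x y
    obtain ⟨a, ha, z, hz, rfl⟩ := dec x
    obtain ⟨b, hb, w, hw, rfl⟩ := dec y
    have e : ⁅a * z, b * w⁆ = ⁅a, b⁆ := by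
      rw [Subgroup.mem_center_iff] at hz hw
      have hzi : ∀ g, g * z⁻¹ = z⁻¹ * g := by
        intro g
        rw [eq_inv_mul_iff_mul_eq, ← mul_assoc, ← hz g, mul_inv_cancel_right]
      have hwi : ∀ g, g * w⁻¹ = w⁻¹ * g := by
        intro g
        rw [eq_inv_mul_iff_mul_eq, ← mul_assoc, ← hw g, mul_inv_cancel_right]
      rw [commutatorElement_def, commutatorElement_def, mul_inv_rev, mul_inv_rev]
      calc a * z * (b * w) * (z⁻¹ * a⁻¹) * (w⁻¹ * b⁻¹)
          = a * (z * (b * w) * z⁻¹) * (a⁻¹ * w⁻¹) * b⁻¹ := by group
        _ = a * (b * w) * (w⁻¹ * a⁻¹) * b⁻¹ := by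
            rw [← hz (b * w), mul_inv_cancel_right, hwi]
        _ = a * b * a⁻¹ * b⁻¹ := by group
    rw [e]
    exact (Subgroup.mem_subgroupOf.1
      ((H.subgroupOf (commutator (orth Q))).mul_mem
        ((H.subgroupOf (commutator (orth Q))).mul_mem
          ((H.subgroupOf (commutator (orth Q))).mul_mem ha hb)
          ((H.subgroupOf (commutator (orth Q))).inv_mem ha))
        ((H.subgroupOf (commutator (orth Q))).inv_mem hb)))
  intro u v hu huv
  apply eich_mem_of_comm hnd hdim
  intro u v hu huv u' v' hu' huv'
  exact key ⟨eich Q u v hu huv, allEich_commutator hnd hdim u v hu huv⟩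
    ⟨eich Q u' v' hu' huv', allEich_commutator hnd hdim u' v' hu' huv'⟩

/-- If any two conjugates in `Ω` are linked then the uniform domination number is at least
three. -/
theorem three_le_gammaU (hnd : (polarBilin Q).Nondegenerate) (hdim : 7 ≤ finrank F V)
    (hlink : ∀ s g : orth Q, Linked Q (der2 Q) s (g * s * g⁻¹)) : 3 ≤ gammaU (POmega Q) := by
  classical
  rw [gammaU]
  refine le_iInf fun S => le_iInf fun hS => ?_
  obtain ⟨hTDS, hconj⟩ := hS
  by_contra hlt
  have hcard : S.card ≤ 2 := by
    have h1 : (S.card : ℕ∞) < 3 := not_le.1 hlt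
    have h2 : S.card < 3 := by exact_mod_cast h1
    omega
  -- all elements of `S` lie in a pair of conjugates
  obtain ⟨a, g, hag⟩ : ∃ a g : POmega Q, ∀ c ∈ S, c = a ∨ c = g * a * g⁻¹ := by
    rcases S.eq_empty_or_nonempty with h0 | ⟨a, ha⟩
    · exact ⟨1, 1, by
        intro c hc
        rw [h0] at hc
        exact absurd hc (Finset.notMem_empty _)⟩
    · by_cases hb : ∃ b ∈ S, b ≠ a
      · obtain ⟨b, hbS, hba⟩ := hb
        obtain ⟨g, hg⟩ := isConj_iff.1 (hconj a ha b hbS)
        refine ⟨a, g, ?_⟩
        intro c hc
        by_contra hne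
        push Not at hne
        have h3 : ({a, b, c} : Finset (POmega Q)).card = 3 := by
          rw [Finset.card_eq_three]
          exact ⟨a, b, c, hba.symm, hne.1.symm, by rw [hg] at hne; exact hne.2.symm, rfl⟩
        have h4 : ({a, b, c} : Finset (POmega Q)) ⊆ S := by
          intro x hx
          simp only [Finset.mem_insert, Finset.mem_singleton] at hx
          rcases hx with rfl | rfl | rfl
          · exact ha
          · exact hbS
          · exact hc
        have h5 := Finset.card_le_card h4
        omega
      · push Not at hb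
        exact ⟨a, 1, fun c hc => Or.inl (hb c hc)⟩
  obtain ⟨s, rfl⟩ := QuotientGroup.mk_surjective a
  obtain ⟨γ, rfl⟩ := QuotientGroup.mk_surjective g
  obtain ⟨T, H, H', hTK, hTnc, hTH, hTH', hsH, hsH', hH, hH'⟩ := hlink s.1 γ.1
  obtain ⟨T0, hT0, rfl⟩ := hTK
  have hT1 : ((T0 : commutator (orth Q)) : POmega Q) ≠ 1 := by
    intro h
    have h1 := (QuotientGroup.eq_one_iff T0).1 h
    obtain ⟨u, v, hu, huv, hne⟩ := hTnc
    apply hne
    have h2 := (Subgroup.mem_center_iff.1 h1)
      ⟨eich Q u v hu huv, allEich_commutator hnd hdim u v hu huv⟩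
    exact (congrArg Subtype.val h2).symm
  have hmain : ∀ (c : commutator (orth Q)) (L : Subgroup (orth Q)), c.1 ∈ L → T0.1 ∈ L →
      Subgroup.closure {((T0 : commutator (orth Q)) : POmega Q), (c : POmega Q)} = ⊤ →
      AllEich Q L := by
    intro c L hc hT hcl
    apply allEich_of_map_top hnd hdim
    rw [eq_top_iff, ← hcl, Subgroup.closure_le]
    intro x hx
    rcases hx with rfl | hx
    · exact ⟨T0, Subgroup.mem_subgroupOf.2 hT, rfl⟩
    · rw [Set.mem_singleton_iff] at hx
      rw [hx]
      exact ⟨c, Subgroup.mem_subgroupOf.2 hc, rfl⟩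
  obtain ⟨c, hcS, hcl⟩ := hTDS _ hT1
  rcases hag c hcS with rfl | rfl
  · exact hH (hmain s H hsH hTH hcl)
  · exact hH' (hmain (γ * s * γ⁻¹) H' hsH' hTH' hcl)

/-- The uniform domination number of `PΩ⁺(2r, q)` is at least three if `r = 2` modulo `4` and
`r > 2`. -/
theorem three_le_gammaU_plus (F : Type u) [Field F] [Finite F] (r : ℕ) (hr : r % 4 = 2)
    (hr4 : 4 ≤ r) : 3 ≤ gammaU (POmega (plusForm F r)) := by
  apply three_le_gammaU plusForm_nondegenerate (by rw [finrank_plus]; omega)
  intro s g
  exact linked plusForm_nondegenerate r hr (by omega) finrank_plus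
    (fun t => fun h => not_irr_plus (by omega) t h) (der2 _)
    (allEich_der2 plusForm_nondegenerate (by rw [finrank_plus]; omega)) s g

end final

/-- The commutator subgroup of a group, as a type. -/
def Derived (G : Type u) [Group G] : Type u := commutator G

instance (G : Type u) [Group G] : Group (Derived G) := inferInstanceAs (Group (commutator G))

/-- The quotient of a group by its centre. -/
def ModCenter (G : Type u) [Group G] : Type u := G ⧸ Subgroup.center G

instance (G : Type u) [Group G] : Group (ModCenter G) :=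
  inferInstanceAs (Group (G ⧸ Subgroup.center G))

/-- The orthogonal group of a quadratic form, as a type. -/
def OrthGroup {F : Type u} {V : Type v} [Field F] [AddCommGroup V] [Module F V]
    (Q : QuadraticForm F V) : Type v := orth Q

instance {F : Type u} {V : Type v} [Field F] [AddCommGroup V] [Module F V]
    (Q : QuadraticForm F V) : Group (OrthGroup Q) := inferInstanceAs (Group (orth Q))

/-- The group `PΩ⁺(2r, F)`: the commutator subgroup of the orthogonal group of the quadratic form
of plus type in dimension `2r`, modulo its centre. -/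
def POmegaPlus (F : Type u) [Field F] (r : ℕ) : Type u :=
  ModCenter (Derived (OrthGroup (plusForm F r)))

instance (F : Type u) [Field F] (r : ℕ) : Group (POmegaPlus F r) :=
  inferInstanceAs (Group (ModCenter (Derived (OrthGroup (plusForm F r)))))

/-- The uniform domination number of `PΩ⁺(2r, q)` is at least three if `r = 2` modulo `4` and
`r > 2`. -/
theorem three_le_gammaU_POmegaPlus (F : Type u) [Field F] [Finite F] (r : ℕ) (hr : r % 4 = 2)
    (hr4 : 4 ≤ r) : 3 ≤ gammaU (POmegaPlus F r) :=
  three_le_gammaU_plus F r hr hr4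

end Pool.Agent.H49.UDN
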