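import Pool.Agent.H49.UDN.EKey
import Pool.Agent.H49.UDN.Final

set_option autoImplicit false
set_option linter.unusedSectionVars false

/-!
Characteristic two: an involutory isometry commuting with an operator of field type is a product
of Siegel transformations.
-/

namespace Pool.Agent.H49.UDN

open QuadraticMap Module Polynomial

universe u v w

section mem

variable {F : Type u} {V : Type v} [Field F] [Finite F] [CharP F 2] [AddCommGroup V] [Module F V]
  [FiniteDimensional F V] {Q : QuadraticForm F V}

/-- The operator attached to a vector `y` and an operator `J` of field type. -/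
def lineJ (Q : QuadraticForm F V) (J : Module.End F V) (y : V) : Module.End F V :=
  (polarBilin Q (J y)).smulRight y + (polarBilin Q y).smulRight (J y + y)

lemma lineJ_apply (J : Module.End F V) (y x : V) :
    lineJ Q J y x = polar Q (J y) x • y + polar Q y x • (J y + y) := rfl

lemma mem_of_inv (hnd : (polarBilin Q).Nondegenerate) (K : Subgroup (orth Q))
    (hK : AllEich Q K) {J : Module.End F V} {δ : F} (hJ : SSA Q J)
    (hJ2 : ∀ x, J (J x) = J x + δ • x) (hirr : ∀ c : F, c * c + c + δ ≠ 0) :
    ∀ (n : ℕ) (C : Module.End F V), SA Q C → (∀ x, C (C x) = 0) →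
      (∀ x, Q (C x) = polar Q x (C x)) → (∀ x, C (J x) = J (C x)) →
      finrank F (LinearMap.range C) ≤ n → ∃ T : orth Q, T ∈ K ∧ ∀ x, T.1 x = x + C x := by
  have h20 := two_zero (F := F)
  have hneg : ∀ c : F, -c = c := fun c => by linear_combination (-c) * h20
  intro n
  induction n with
  | zero =>
    intro C _ _ _ _ hn
    have h0 : LinearMap.range C = ⊥ := by
      apply Submodule.finrank_eq_zero.1
      omega
    have hC : C = 0 := LinearMap.range_eq_bot.1 h0
    exact ⟨1, K.one_mem, fun x => by rw [hC]; simp⟩
  | succ n ih =>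
    intro C hCsa hCC hCq hCJ hn
    by_cases hS : ∀ x, Q (C x) = 0
    · -- the range is totally singular
      apply exists_prod Q hnd K hK (LinearMap.range C) ?_ (n + 1) C (fun x => ⟨x, rfl⟩) ?_ hn
      · rintro _ ⟨x, rfl⟩
        exact hS x
      · intro x
        rw [polar_comm, ← hCq, hS]
    push Not at hS
    obtain ⟨x₁, hx₁⟩ := hS
    -- a good vector of the range
    obtain ⟨x₀, hx₀, hJx₀⟩ : ∃ x₀, Q (C x₀) = 0 ∧ Q (J (C x₀)) = 1 := by
      set y₀ := C x₁ with hy₀
      obtain ⟨s, hs⟩ := exists_sqrt (Q (J y₀))
      obtain ⟨t, ht⟩ := exists_sqrt (Q y₀)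
      have ht0 : t ≠ 0 := by
        rintro rfl
        rw [mul_zero] at ht
        exact hx₁ ht.symm
      have e0 : polar Q y₀ (J y₀) = 0 := by
        rw [polar_comm]
        exact hJ y₀
      set x₂ := s • x₁ + t • J x₁ with hx₂
      have hCx₂ : C x₂ = s • y₀ + t • J y₀ := by
        rw [hx₂, map_add, map_smul, map_smul, hCJ]
      have hJCx₂ : J (C x₂) = (t * δ) • y₀ + (s + t) • J y₀ := by
        rw [hCx₂, map_add, map_smul, map_smul, hJ2]
        module
      have e1 : Q (C x₂) = 0 := by
        rw [hCx₂, Qadd, Qsmul, Qsmul, polar_smul_left, polar_smul_right, e0, ← hs, ← ht]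
        simp only [smul_zero, add_zero]
        linear_combination (s * s * t * t) * h20
      have e2 : Q (J (C x₂)) ≠ 0 := by
        intro h0
        rw [hJCx₂, Qadd, Qsmul, Qsmul, polar_smul_left, polar_smul_right, e0, ← hs, ← ht] at h0
        simp only [smul_zero, add_zero] at h0
        -- a square root of the value
        have h1 : (t * (t * δ) + (s + t) * s) * (t * (t * δ) + (s + t) * s) = 0 := by
          linear_combination h0 + (t * (t * δ) * ((s + t) * s)) * h20
        have h2 : t * (t * δ) + (s + t) * s = 0 := mul_self_eq_zero.1 h1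
        apply hirr (s / t)
        field_simp
        linear_combination h2
      obtain ⟨c, hc⟩ := exists_sqrt (Q (J (C x₂)))
      have hc0 : c ≠ 0 := by
        rintro rfl
        rw [mul_zero] at hc
        exact e2 hc.symm
      refine ⟨c⁻¹ • x₂, ?_, ?_⟩
      · rw [map_smul, Qsmul, e1, mul_zero]
      · rw [map_smul, map_smul, Qsmul, ← hc]
        field_simp
    set y := C x₀ with hy
    have hyJ : polar Q y (J y) = 0 := by
      rw [polar_comm]
      exact hJ y
    have hJy : polar Q (J y) y = 0 := hJ y
    have hyy : polar Q y y = 0 := polar_self_zero Q y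
    have hJyJy : polar Q (J y) (J y) = 0 := polar_self_zero Q _
    have hx₀y : polar Q y x₀ = 0 := by
      rw [polar_comm, ← hCq x₀, hx₀]
    have hx₀Jy : polar Q (J y) x₀ = 1 := by
      have e1 := hCq (J x₀)
      rw [hCJ, ← hy, hJx₀, hJ.sa, hJ2, polar_add_right, polar_smul_right, polar_comm Q x₀ y,
        hx₀y, smul_zero, add_zero] at e1
      rw [polar_comm]
      exact e1.symm
    set E := lineJ Q J y with hE
    have hEa : ∀ x, E x = polar Q (J y) x • y + polar Q y x • (J y + y) := fun x => rfl
    have hEx₀ : E x₀ = y := by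
      rw [hEa, hx₀y, hx₀Jy, one_smul, zero_smul, add_zero]
    have hCy : C y = 0 := hCC x₀
    have hCJy : C (J y) = 0 := by rw [hCJ, hCy, map_zero]
    have hCE : ∀ x, C (E x) = 0 := by
      intro x
      rw [hEa, map_add, map_smul, map_smul, map_add, hCy, hCJy]
      simp
    have hEC : ∀ x, E (C x) = 0 := by
      intro x
      rw [hEa, ← hCsa, ← hCsa, hCJy, hCy, polar_zero_left]
      simp
    have hEE : ∀ x, E (E x) = 0 := by
      intro x
      have e1 : E y = 0 := by
        rw [hEa, hJy, hyy]
        simp
      have e2 : E (J y) = 0 := by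
        rw [hEa, hJyJy, hyJ]
        simp
      rw [hEa x, map_add, map_smul, map_smul, map_add, e1, e2]
      simp
    have hEsa : SA Q E := by
      intro x x'
      rw [hEa, hEa]
      simp only [polar_add_left, polar_add_right, polar_smul_left, polar_smul_right, smul_eq_mul]
      rw [polar_comm Q x y, polar_comm Q x (J y)]
      ring
    have hEJ : ∀ x, E (J x) = J (E x) := by
      intro x
      rw [hEa, hEa, ← hJ.sa, ← hJ.sa, hJ2, map_add, map_smul, map_smul, map_add, hJ2,
        polar_add_left, polar_smul_left, smul_eq_mul]
      apply eq_of_two (F := F) (w := polar Q (J y) x • y - polar Q y x • J y)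
      module
    have hEQ : ∀ x, Q (E x) = polar Q y x * polar Q y x := by
      intro x
      rw [hEa, Qadd, Qsmul, Qsmul, hx₀, Qadd, hJx₀, hx₀, hJy, polar_smul_left, polar_smul_right,
        polar_add_right, hyJ, hyy]
      simp
    have hEq : ∀ x, Q (E x) = polar Q x (E x) := by
      intro x
      rw [hEQ, hEa]
      simp only [polar_add_right, polar_smul_right, smul_eq_mul]
      rw [polar_comm Q x y, polar_comm Q x (J y)]
      linear_combination (-(polar Q (J y) x * polar Q y x)) * h20
    -- the new operator
    have hCE2 : ∀ x, polar Q (C x) (E x) = 0 := by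
      intro x
      rw [hCsa, hCE, polar_zero_right]
    obtain ⟨T₁, hT₁, hT₁x⟩ := ih (C + E) (hCsa.add hEsa)
      (by
        intro x
        simp only [LinearMap.add_apply, map_add, hCC, hCE, hEC, hEE]
        simp)
      (by
        intro x
        rw [LinearMap.add_apply, Qadd, hCq, hEq, hCE2, polar_add_right, add_zero])
      (by
        intro x
        rw [LinearMap.add_apply, LinearMap.add_apply, hCJ, hEJ, map_add])
      (by
        have hker : LinearMap.ker C < LinearMap.ker (C + E) := by
          rw [SetLike.lt_iff_le_and_exists]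
          refine ⟨?_, x₀, ?_, ?_⟩
          · intro x hx
            rw [LinearMap.mem_ker] at hx ⊢
            have e1 : polar Q y x = 0 := by
              rw [hy, hCsa, hx, polar_zero_right]
            have e2 : polar Q (J y) x = 0 := by
              rw [hy, ← hCJ, hCsa, hx, polar_zero_right]
            rw [LinearMap.add_apply, hx, hEa, e1, e2]
            simp
          · rw [LinearMap.mem_ker, LinearMap.add_apply, hEx₀]
            exact add_self_zero F y
          · rw [LinearMap.mem_ker, ← hy]
            intro h0
            rw [h0, map_zero] at hJx₀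
            rw [QuadraticMap.map_zero] at hJx₀
            exact zero_ne_one hJx₀
        have hlt := Submodule.finrank_lt_finrank_of_lt hker
        have e1 := LinearMap.finrank_range_add_finrank_ker C
        have e2 := LinearMap.finrank_range_add_finrank_ker (C + E)
        omega)
    -- the Siegel transformation
    have hu : Q (y : V) = 0 := hx₀
    have hw : polar Q y (J y) = 0 := hyJ
    refine ⟨T₁ * eich Q y (J y) hu hw, K.mul_mem hT₁ (hK _ _ _ _), ?_⟩
    intro x
    have e1 : (eich Q y (J y) hu hw).1 x = x + E x := by
      rw [eich_apply, eichLin_apply, hJx₀, hEa]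
      apply eq_of_two (F := F) (w := -(polar Q (J y) x • y) - polar Q y x • y)
      module
    rw [orth_mul_apply, e1, hT₁x, LinearMap.add_apply, map_add, map_add, hCE, hEE]
    apply eq_of_two (F := F) (w := E x)
    module

/-- Involutory isometries commuting with an operator of field type. -/
lemma exists_mem (hnd : (polarBilin Q).Nondegenerate) (K : Subgroup (orth Q))
    (hK : AllEich Q K) {J : Module.End F V} {δ : F} (hJ : SSA Q J)
    (hJ2 : ∀ x, J (J x) = J x + δ • x) (hirr : ∀ c : F, c * c + c + δ ≠ 0)
    {C : Module.End F V} (hC : IsInv Q C) (hCJ : ∀ x, C (J x) = J (C x)) :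
    ∃ T : orth Q, T ∈ K ∧ ∀ x, T.1 x = x + C x :=
  mem_of_inv hnd K hK hJ hJ2 hirr _ C hC.adj hC.sq hC.q hCJ le_rfl

end mem

end Pool.Agent.H49.UDN
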