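import Pool.Agent.H49.UDN.ESys

set_option autoImplicit false
set_option linter.unusedSectionVars false

/-!
Characteristic two: the case in which the anticommutator is nilpotent.
-/

namespace Pool.Agent.H49.UDN

open QuadraticMap Module Polynomial

universe u v w

section special

variable {F : Type u} {V : Type v} [Field F] [CharP F 2] [AddCommGroup V] [Module F V]

/-- There is an involutory isometry `1 + C` that commutes with `j` and `a`. -/
def HasInv (Q : QuadraticForm F V) (j a : Module.End F V) : Prop :=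
  ∃ C : Module.End F V, IsInv Q C ∧ (∀ x, C (j x) = j (C x)) ∧ (∀ x, C (a x) = a (C x))

/-- There is a Lagrangian stable under `j` and `a`. -/
def HasLag (Q : QuadraticForm F V) (j a : Module.End F V) : Prop :=
  ∃ L : Submodule F V, (∀ x ∈ L, j x ∈ L) ∧ (∀ x ∈ L, a x ∈ L) ∧ (∀ x ∈ L, Q x = 0) ∧
    2 * finrank F L = finrank F V

/-- The polynomial of `j`. -/
noncomputable def PP (δ : F) : F[X] := X ^ 2 + X + C δ

lemma PP_irreducible {δ : F} (hirr : ∀ c : F, c * c + c + δ ≠ 0) : Irreducible (PP δ) := by
  have hdeg : (PP δ).natDegree = 2 := by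
    rw [PP]
    compute_degree!
  have hmonic : (PP δ).Monic := by
    rw [PP]
    monicity!
  rw [hmonic.irreducible_iff_roots_eq_zero_of_degree_le_three (by omega) (by omega)]
  rw [Multiset.eq_zero_iff_forall_notMem]
  intro c hc
  rw [mem_roots hmonic.ne_zero] at hc
  apply hirr c
  have : eval c (PP δ) = 0 := hc
  rw [PP] at this
  simp only [eval_add, eval_pow, eval_X, eval_C] at this
  linear_combination this

variable {Q : QuadraticForm F V} {j a : Module.End F V} {δ ε : F}

lemma Sys.PP_zero (h : Sys Q j a δ ε) (x : V) : aeval j (PP δ) x = 0 := by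
  have e0 : aeval j (PP δ) x = j (j x) + j x + δ • x := by
    rw [PP, map_add, map_add, map_pow, aeval_X, aeval_C, pow_two]
    rfl
  have e : j x + δ • x + j x + δ • x = (j x + j x) + (δ • x + δ • x) := by abel
  rw [e0, h.j_sq, e, add_self_zero F, add_self_zero F, add_zero]

lemma Sys.ker_stable (h : Sys Q j a δ ε) {u : V} (hu : dd j a u = 0) (q : F[X]) :
    dd j a (aeval j q u) = 0 ∧ a (aeval j q u) = aeval j q (a u) := by
  induction q using Polynomial.induction_on' with
  | add p q hp hq =>
    rw [map_add, LinearMap.add_apply, map_add, hp.1, hq.1, map_add, hp.2, hq.2,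
      LinearMap.add_apply, add_zero]
    exact ⟨rfl, rfl⟩
  | monomial n c =>
    have hn : dd j a ((j ^ n) u) = 0 ∧ a ((j ^ n) u) = (j ^ n) (a u) := by
      induction n with
      | zero => exact ⟨hu, rfl⟩
      | succ n ih =>
        rw [pow_succ', Module.End.mul_apply, Module.End.mul_apply]
        refine ⟨by rw [h.dd_j, ih.1, map_zero, add_zero], ?_⟩
        have h1 := ih.1
        rw [dd_apply] at h1
        rw [← ih.2]
        have h2 := add_self_zero F (j (a ((j ^ n) u)))
        have h3 := h1.trans h2.symm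
        exact (add_left_cancel h3)
    rw [aeval_monomial, ← Algebra.smul_def, LinearMap.smul_apply, LinearMap.smul_apply, map_smul,
      map_smul, hn.1, hn.2, smul_zero]
    exact ⟨rfl, rfl⟩

/-- Eigenvector decomposition of the kernel of the anticommutator. -/
lemma Sys.decomp (h : Sys Q j a δ ε) {u : V} (hu : dd j a u = 0) :
    ∃ (u₁ u₂ : V) (p₁ p₂ : F[X]), u = u₁ + u₂ ∧ dd j a u₁ = 0 ∧ dd j a u₂ = 0 ∧
      a u₁ = aeval j p₁ u₁ ∧ a u₂ = aeval j p₂ u₂ ∧ polar Q u₁ u₂ = 0 := by
  have haj : a (j u) = j (a u) := by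
    have h1 := hu
    rw [dd_apply] at h1
    exact add_left_cancel (h1.trans (add_self_zero F (j (a u))).symm)
  rcases h.eps with he | he
  · subst he
    refine ⟨a u, a u + u, 1, 0, ?_, ?_, ?_, ?_, ?_, ?_⟩
    · rw [← add_assoc, add_self_zero F, zero_add]
    · rw [h.dd_a, hu, map_zero, add_zero]
    · rw [map_add, h.dd_a, hu, map_zero, add_zero, add_zero]
    · rw [h.a_sq, zero_smul, add_zero, map_one]
      rfl
    · rw [map_add, h.a_sq, zero_smul, add_zero, add_self_zero F, map_zero]
      rfl
    · rw [polar_add_right, polar_self_zero, h.a_ssa, add_zero]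
  · subst he
    refine ⟨a u + j u + u, a u + j u, X, X + 1, ?_, ?_, ?_, ?_, ?_, ?_⟩
    · have : a u + j u + u + (a u + j u) = u + ((a u + a u) + (j u + j u)) := by abel
      rw [this, add_self_zero F, add_self_zero F, add_zero, add_zero]
    · rw [map_add, map_add, h.dd_a, h.dd_j, hu, map_zero, map_zero]
      simp
    · rw [map_add, h.dd_a, h.dd_j, hu, map_zero, map_zero]
      simp
    · rw [aeval_X, map_add, map_add, map_add, map_add, h.a_sq, haj, h.j_sq]
      apply eq_of_two (F := F) (w := a u - j u)
      module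
    · have e : aeval j (X + 1 : F[X]) = j + 1 := by rw [map_add, map_one, aeval_X]
      rw [e, LinearMap.add_apply, map_add, map_add, h.a_sq, haj, h.j_sq, Module.End.one_apply]
      apply eq_of_two (F := F) (w := -j u)
      module
    · rw [polar_add_left, polar_self_zero, polar_add_right, polar_comm Q u (a u),
        polar_comm Q u (j u), h.a_ssa, h.j_ssa]
      simp

/-- A rank one operator given by a normalised isotropic line is an involution. -/
lemma isInv_of_line {R : Type w} [Field R] [Algebra F R] {τ : R →ₗ[F] F}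
    (hτ2 : ∀ x, τ (x * x) = τ x * τ x) {ι : R →ₗ[F] V} {β : V →ₗ[F] R} (h : IsLine Q τ ι β)
    (hnd : (polarBilin Q).Nondegenerate)
    (hQ : ∀ κ, Q (ι κ) = τ κ * τ κ) (hiso : ∀ κ κ', polar Q (ι κ) (ι κ') = 0)
    (hinj : ∀ κ, ι κ = 0 → κ = 0) : IsInv Q (lineOp ι β) := by
  refine ⟨?_, ?_, h.sa, ?_⟩
  · intro h0
    have hβ : ∀ v, β v = 0 := by
      intro v
      apply hinj
      exact LinearMap.congr_fun h0 v
    have h1 : ι 1 = 0 := by
      by_contra hne
      obtain ⟨y, hy⟩ := exists_polar_ne_zero hnd hne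
      apply hy
      rw [polar_comm, h.rep, hβ, mul_zero, map_zero]
    exact one_ne_zero (hinj 1 h1)
  · intro x
    rw [lineOp_apply, lineOp_apply, h.beta_zero (fun s => hiso _ _), map_zero]
  · intro x
    rw [lineOp_apply, hQ, h.self, hτ2]

end special

section special2

variable {F : Type u} {V : Type v} [Field F] [Finite F] [CharP F 2] [AddCommGroup V] [Module F V]
  [FiniteDimensional F V]
variable {Q : QuadraticForm F V} {j a : Module.End F V} {δ ε : F}

/-- The range of a self-adjoint operator is the orthogonal complement of its kernel. -/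
lemma perp_ker_eq_range (hnd : (polarBilin Q).Nondegenerate) {A : Module.End F V} (hA : SA Q A) :
    perp Q (LinearMap.ker A) = LinearMap.range A := by
  symm
  apply Submodule.eq_of_le_of_finrank_le
  · rintro _ ⟨x, rfl⟩
    rw [mem_perp]
    intro w hw
    rw [← hA, LinearMap.mem_ker.1 hw, polar_zero_left]
  · rw [finrank_perp hnd]
    have := LinearMap.finrank_range_add_finrank_ker A
    omega

/-- Semilinear functionals are squares of inner products. -/
lemma exists_vec (hnd : (polarBilin Q).Nondegenerate) (g : V → F)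
    (hadd : ∀ x y, g (x + y) = g x + g y) (hsmul : ∀ (c : F) (x : V), g (c • x) = c * c * g x) :
    ∃ y, ∀ x, g x = polar Q x y * polar Q x y := by
  have hinj : Function.Injective (polarBilin Q) := by
    rw [← LinearMap.ker_eq_bot]
    exact LinearMap.BilinForm.Nondegenerate.ker_eq_bot hnd
  have hsurj : Function.Surjective (polarBilin Q) := by
    rw [← LinearMap.range_eq_top]
    apply Submodule.eq_top_of_finrank_eq
    rw [LinearMap.finrank_range_of_inj hinj]
    exact (Subspace.dual_finrank_eq (K := F) (V := V)).symm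
  obtain ⟨y, hy⟩ := hsurj (rtFun g hadd hsmul)
  refine ⟨y, ?_⟩
  intro x
  rw [← rtFun_mul g hadd hsmul, ← hy]
  change polar Q y x * polar Q y x = _
  rw [polar_comm]

/-- The case of a nilpotent anticommutator. -/
theorem special (hnd : (polarBilin Q).Nondegenerate) (h : Sys Q j a δ ε)
    (hV : ∃ x : V, x ≠ 0) (hnil : ∃ n : ℕ, (dd j a) ^ n = 0) : HasInv Q j a ∨ HasLag Q j a := by
  classical
  set D := dd j a with hD
  have hPirr := PP_irreducible h.irr
  have : Fact (Irreducible (PP δ)) := ⟨hPirr⟩
  have hfd : FiniteDimensional F (AdjoinRoot (PP δ)) := finite_adjoinRoot hPirr.ne_zero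
  have hfin : Finite (AdjoinRoot (PP δ)) := Module.finite_of_finite F
  obtain ⟨τ, hτ2, hτ, _⟩ := exists_tau F (AdjoinRoot (PP δ))
  -- lines
  have hline : ∀ (u : V) (p : F[X]), D u = 0 → a u = aeval j p u →
      ∃ (ι : AdjoinRoot (PP δ) →ₗ[F] V) (β : V →ₗ[F] AdjoinRoot (PP δ)), IsLine Q τ ι β ∧
        (∀ q, ι (AdjoinRoot.mk _ q) = aeval j q u) ∧ (∀ κ, D (ι κ) = 0) ∧
        (∀ κ, j (ι κ) = ι (AdjoinRoot.mk _ X * κ)) ∧ (∀ κ, a (ι κ) = ι (AdjoinRoot.mk _ p * κ)) ∧
        (∀ κ κ', polar Q (ι κ) (ι κ') = 0) := by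
    intro u p hu hp
    obtain ⟨ι, hι⟩ := exists_polyLine j (PP δ) u (h.PP_zero u)
    obtain ⟨β, hβ⟩ := exists_line Q τ hτ ι
    refine ⟨ι, β, hβ, hι, ?_, ?_, ?_, ?_⟩
    · intro κ
      obtain ⟨q, rfl⟩ := AdjoinRoot.mk_surjective κ
      rw [hι]
      exact (h.ker_stable hu q).1
    · intro κ
      obtain ⟨q, rfl⟩ := AdjoinRoot.mk_surjective κ
      rw [hι, ← map_mul, hι, aeval_mul_apply, aeval_X]
    · intro κ
      obtain ⟨q, rfl⟩ := AdjoinRoot.mk_surjective κ
      rw [hι, ← map_mul, hι, (h.ker_stable hu q).2, hp, aeval_comm_apply, aeval_mul_apply]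
    · intro κ κ'
      obtain ⟨q, rfl⟩ := AdjoinRoot.mk_surjective κ
      obtain ⟨q', rfl⟩ := AdjoinRoot.mk_surjective κ'
      rw [hι, hι, ← (h.j_ssa.sa.aeval q'), ← aeval_mul_apply]
      exact h.j_ssa.aeval _ u
  by_cases hS : ∃ u, D u = 0 ∧ Q u ≠ 0
  · -- a nonsingular vector in the kernel
    left
    obtain ⟨u, hu, hQu⟩ := hS
    obtain ⟨u₁, u₂, p₁, p₂, huu, hu₁, hu₂, hp₁, hp₂, h12⟩ := h.decomp hu
    obtain ⟨w, p, hw, hp, hQw⟩ : ∃ (w : V) (p : F[X]), D w = 0 ∧ a w = aeval j p w ∧ Q w ≠ 0 := by
      by_cases h1 : Q u₁ = 0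
      · refine ⟨u₂, p₂, hu₂, hp₂, ?_⟩
        intro h2
        apply hQu
        rw [huu, Qadd, h1, h2, h12]
        simp
      · exact ⟨u₁, p₁, hu₁, hp₁, h1⟩
    obtain ⟨ι, β, hβ, hι, hιD, hιj, hιa, hιi⟩ := hline w p hw hp
    have hw0 : w ≠ 0 := by
      rintro rfl
      exact hQw (by simp)
    obtain ⟨μ, hμ⟩ := exists_repr_semi hτ (fun κ => Q (ι κ))
      (by
        intro x y
        rw [map_add, Qadd, hιi, add_zero])
      (by
        intro c x
        rw [map_smul, Qsmul])
    have hι1 : ι 1 = w := by
      rw [← (AdjoinRoot.mk (PP δ)).map_one, hι, aeval_one_apply]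
    have hμ0 : μ ≠ 0 := by
      rintro rfl
      apply hQw
      have := hμ 1
      simp only [hι1] at this
      rw [this]
      simp
    set y := ι μ⁻¹ with hy
    have hyD : D y = 0 := hιD _
    have hyp : a y = aeval j p y := by
      obtain ⟨q, hq⟩ := AdjoinRoot.mk_surjective μ⁻¹
      rw [hy, hιa, ← hq, ← map_mul, hι, hι, aeval_mul_apply]
    obtain ⟨ι', β', hβ', hι', hι'D, hι'j, hι'a, hι'i⟩ := hline y p hyD hyp
    have hιι : ∀ κ, ι' κ = ι (κ * μ⁻¹) := by
      intro κ
      obtain ⟨q, rfl⟩ := AdjoinRoot.mk_surjective κ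
      obtain ⟨r, hr⟩ := AdjoinRoot.mk_surjective μ⁻¹
      rw [hι', hy, ← hr, ← map_mul, hι, hι, aeval_mul_apply]
    refine ⟨lineOp ι' β', ?_, ?_, ?_⟩
    · apply isInv_of_line hτ2 hβ' hnd
      · intro κ
        have := hμ (κ * μ⁻¹)
        rw [hιι, this]
        have e : μ * (κ * μ⁻¹) = κ := by
          field_simp
        rw [e]
      · exact hι'i
      · intro κ hκ
        rw [hιι] at hκ
        have := polyLine_injective hPirr (h.PP_zero w) hw0 hι hκ
        exact (mul_eq_zero.1 this).resolve_right (inv_ne_zero hμ0)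
    · intro x
      exact hβ'.op_comm h.j_ssa.sa hι'j x
    · intro x
      exact hβ'.op_comm h.a_ssa.sa hι'a x
  · push Not at hS
    -- the kernel is totally singular
    have hex : ∃ n : ℕ, D ^ n = 0 := hnil
    set N := Nat.find hex with hN
    have hNz : D ^ N = 0 := Nat.find_spec hex
    have hNmin : ∀ m, m < N → D ^ m ≠ 0 := fun m hm => Nat.find_min hex hm
    have hDssa : SSA Q D := h.dd_ssa
    obtain ⟨x0, hx0⟩ := hV
    have hN0 : N ≠ 0 := by
      intro h0
      rw [h0, pow_zero] at hNz
      apply hx0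
      exact LinearMap.congr_fun hNz x0
    have hN1 : N ≠ 1 := by
      intro h1
      rw [h1, pow_one] at hNz
      obtain ⟨y, hy⟩ := exists_polar_ne_zero hnd hx0
      apply hy
      have hz : ∀ x, Q x = 0 := fun x => hS x (by rw [hNz]; rfl)
      rw [polar, hz, hz, hz]
      simp
    have hpow0 : ∀ m, N ≤ m → D ^ m = 0 := by
      intro m hm
      obtain ⟨k, rfl⟩ := Nat.exists_eq_add_of_le hm
      rw [pow_add, hNz, zero_mul]
    have hpow_apply : ∀ (m k : ℕ) (x : V), (D ^ m) ((D ^ k) x) = (D ^ (m + k)) x := by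
      intro m k x
      rw [pow_add]
      rfl
    have hkerpol : ∀ x y, D x = 0 → D y = 0 → polar Q x y = 0 := by
      intro x y hx hy
      exact polar_zero_of_sing (L := LinearMap.ker D) (fun z hz => hS z (LinearMap.mem_ker.1 hz))
        (LinearMap.mem_ker.2 hx) (LinearMap.mem_ker.2 hy)
    -- even powers commute
    have hevj : ∀ k x, (D ^ (2 * k)) (j x) = j ((D ^ (2 * k)) x) := by
      intro k
      induction k with
      | zero => intro x; rfl
      | succ k ih =>
        intro x
        have e : D ^ (2 * (k + 1)) = D ^ (2 * k) * (D * D) := by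
          rw [← pow_two, ← pow_add]
          rfl
        rw [e, Module.End.mul_apply, Module.End.mul_apply, Module.End.mul_apply,
          Module.End.mul_apply, h.dd_sq_j, ih]
    have heva : ∀ k x, (D ^ (2 * k)) (a x) = a ((D ^ (2 * k)) x) := by
      intro k
      induction k with
      | zero => intro x; rfl
      | succ k ih =>
        intro x
        have e : D ^ (2 * (k + 1)) = D ^ (2 * k) * (D * D) := by
          rw [← pow_two, ← pow_add]
          rfl
        rw [e, Module.End.mul_apply, Module.End.mul_apply, Module.End.mul_apply,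
          Module.End.mul_apply, h.dd_sq_a, ih]
    by_cases hN2 : N = 2
    · -- the kernel is a Lagrangian
      right
      have hrange : LinearMap.ker D = LinearMap.range D := by
        rw [← perp_ker_eq_range hnd hDssa.sa]
        apply le_antisymm
        · intro x hx
          rw [mem_perp]
          intro w hw
          exact hkerpol w x (LinearMap.mem_ker.1 hw) (LinearMap.mem_ker.1 hx)
        · rw [perp_ker_eq_range hnd hDssa.sa]
          rintro _ ⟨x, rfl⟩
          rw [LinearMap.mem_ker]
          have := LinearMap.congr_fun (hN2 ▸ hNz) x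
          rw [pow_two] at this
          exact this
      refine ⟨LinearMap.ker D, ?_, ?_, ?_, ?_⟩
      · intro x hx
        rw [LinearMap.mem_ker] at hx ⊢
        rw [h.dd_j]
        change j (D x) + D x = 0
        rw [hx, map_zero, add_zero]
      · intro x hx
        rw [LinearMap.mem_ker] at hx ⊢
        rw [h.dd_a]
        change a (D x) + D x = 0
        rw [hx, map_zero, add_zero]
      · intro x hx
        exact hS x (LinearMap.mem_ker.1 hx)
      · have h1 := LinearMap.finrank_range_add_finrank_ker D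
        rw [← hrange] at h1
        omega
    left
    rcases Nat.even_or_odd N with ⟨k, hk⟩ | ⟨k, hk⟩
    · -- even exponent at least four
      have hk2 : 2 ≤ k := by omega
      obtain ⟨l, rfl⟩ : ∃ l, k = l + 1 := ⟨k - 1, by omega⟩
      have hl : 1 ≤ l := by omega
      have hNl : N = 2 * l + 2 := by omega
      set n := D ^ (2 * l) with hn
      have hDn : ∀ x, D (n x) = (D ^ (2 * l + 1)) x := by
        intro x
        rw [hn, pow_succ']
        rfl
      have hnD : ∀ x, n (D x) = (D ^ (2 * l + 1)) x := by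
        intro x
        rw [hn, pow_succ]
        rfl
      have hnssa : SSA Q n := hDssa.pow _
      have hnn : ∀ x, n (n x) = 0 := by
        intro x
        rw [hn, hpow_apply, hpow0 _ (by omega)]
        rfl
      have hniso : ∀ x y, polar Q (n x) (n y) = 0 := by
        intro x y
        rw [hnssa.sa, hnn, polar_zero_right]
      obtain ⟨y0, hy0⟩ := exists_vec hnd (fun x => Q (n x))
        (by
          intro x y
          rw [map_add, Qadd, hniso, add_zero])
        (by
          intro c x
          rw [map_smul, Qsmul])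
      have hDy0 : D y0 = 0 := by
        by_contra hne
        obtain ⟨x, hx⟩ := exists_polar_ne_zero hnd hne
        apply hx
        rw [hDssa.sa, polar_comm]
        have h1 := hy0 (D x)
        have h2 : Q (n (D x)) = 0 := by
          apply hS
          have e : (D ^ (2 * l + 1)) (D x) = (D ^ (2 * l + 1 + 1)) x := by
            rw [pow_succ D (2 * l + 1)]
            rfl
          rw [hDn, e, hpow0 _ (by omega)]
          rfl
        rw [h2] at h1
        exact mul_self_eq_zero.1 h1.symm
      obtain ⟨u₁, u₂, p₁, p₂, huu, hu₁, hu₂, hp₁, hp₂, h12⟩ := h.decomp hDy0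
      obtain ⟨ι₁, β₁, hβ₁, hι₁, hι₁D, hι₁j, hι₁a, hι₁i⟩ := hline u₁ p₁ hu₁ hp₁
      obtain ⟨ι₂, β₂, hβ₂, hι₂, hι₂D, hι₂j, hι₂a, hι₂i⟩ := hline u₂ p₂ hu₂ hp₂
      have hι1 : ι₁ 1 = u₁ := by
        rw [← (AdjoinRoot.mk (PP δ)).map_one, hι₁, aeval_one_apply]
      have hι2 : ι₂ 1 = u₂ := by
        rw [← (AdjoinRoot.mk (PP δ)).map_one, hι₂, aeval_one_apply]
      set E := lineOp ι₁ β₁ + lineOp ι₂ β₂ with hE
      have hEa : ∀ x, E x = ι₁ (β₁ x) + ι₂ (β₂ x) := fun x => rfl
      have hDE : ∀ x, D (E x) = 0 := by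
        intro x
        rw [hEa, map_add, hι₁D, hι₂D, add_zero]
      have hEsa : SA Q E := hβ₁.sa.add hβ₂.sa
      have hEker : ∀ x, D x = 0 → E x = 0 := by
        intro x hx
        rw [hEa, hβ₁.beta_zero (fun s => hkerpol _ _ hx (hι₁D s)),
          hβ₂.beta_zero (fun s => hkerpol _ _ hx (hι₂D s)), map_zero, map_zero, add_zero]
      have hEn : ∀ x, E (n x) = 0 := by
        intro x
        by_contra hne
        obtain ⟨y, hy⟩ := exists_polar_ne_zero hnd hne
        apply hy
        rw [hEsa, hnssa.sa]
        have h1 : n (E y) = 0 := by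
          have : n = D ^ (2 * l - 1) * D := by
            rw [← pow_succ, hn]
            congr 1
            omega
          rw [this, Module.End.mul_apply, hDE, map_zero]
        rw [h1, polar_zero_right]
      have hnE : ∀ x, n (E x) = 0 := by
        intro x
        have : n = D ^ (2 * l - 1) * D := by
          rw [← pow_succ, hn]
          congr 1
          omega
        rw [this, Module.End.mul_apply, hDE, map_zero]
      refine ⟨n + E, ⟨?_, ?_, ?_, ?_⟩, ?_, ?_⟩
      · intro h0
        apply hNmin (2 * l + 1) (by omega)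
        ext x
        rw [← hDn]
        have h1 : n x = - E x := by
          have := LinearMap.congr_fun h0 x
          rw [LinearMap.add_apply] at this
          exact eq_neg_of_add_eq_zero_left this
        rw [h1, map_neg, hDE, neg_zero]
        rfl
      · intro x
        simp only [LinearMap.add_apply, map_add, hnn, hnE, hEn, hEker _ (hDE x)]
        simp
      · exact hnssa.sa.add hEsa
      · intro x
        rw [LinearMap.add_apply, Qadd, polar_add_right, hnssa.sa x (E x), hnE, polar_zero_right,
          hS _ (hDE x), hEa, polar_add_right, hβ₁.self, hβ₂.self, hτ2, hτ2]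
        have e0 : polar Q x (n x) = 0 := by
          rw [polar_comm]
          exact hnssa x
        have e1 : τ (β₁ x) = polar Q x u₁ := by
          rw [← hι1, hβ₁.rep, one_mul]
        have e2 : τ (β₂ x) = polar Q x u₂ := by
          rw [← hι2, hβ₂.rep, one_mul]
        have e3 := hy0 x
        rw [e0, e1, e2, e3, huu, polar_add_right]
        have := two_zero (F := F)
        linear_combination (polar Q x u₁ * polar Q x u₂) * this
      · intro x
        have e1 := hβ₁.op_comm h.j_ssa.sa hι₁j x
        have e2 := hβ₂.op_comm h.j_ssa.sa hι₂j x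
        have e3 := hevj l x
        change (D ^ (2 * l)) (j x) + (lineOp ι₁ β₁ (j x) + lineOp ι₂ β₂ (j x)) =
          j ((D ^ (2 * l)) x + (lineOp ι₁ β₁ x + lineOp ι₂ β₂ x))
        rw [e1, e2, e3, map_add, map_add]
      · intro x
        have e1 := hβ₁.op_comm h.a_ssa.sa hι₁a x
        have e2 := hβ₂.op_comm h.a_ssa.sa hι₂a x
        have e3 := heva l x
        change (D ^ (2 * l)) (a x) + (lineOp ι₁ β₁ (a x) + lineOp ι₂ β₂ (a x)) =
          a ((D ^ (2 * l)) x + (lineOp ι₁ β₁ x + lineOp ι₂ β₂ x))
        rw [e1, e2, e3, map_add, map_add]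
    · -- odd exponent
      have hk1 : 1 ≤ k := by omega
      have hnssa : SSA Q (D ^ (2 * k)) := hDssa.pow _
      have hker : ∀ x, D ((D ^ (2 * k)) x) = 0 := by
        intro x
        have : D ((D ^ (2 * k)) x) = (D ^ (2 * k + 1)) x := by
          rw [pow_succ']
          rfl
        rw [this, ← hk, hNz]
        rfl
      refine ⟨D ^ (2 * k), ⟨hNmin _ (by omega), ?_, hnssa.sa, ?_⟩, hevj k, heva k⟩
      · intro x
        rw [hpow_apply, hpow0 _ (by omega)]
        rfl
      · intro x
        rw [hS _ (hker x), polar_comm]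
        exact (hnssa x).symm

end special2

end Pool.Agent.H49.UDN
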