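import Pool.Agent.H49.UDN.ETau

set_option autoImplicit false
set_option linter.unusedSectionVars false

/-!
Characteristic two: operators `A` with `B (A x, x) = 0` for all `x`, rank one operators over
commutative algebras, and involutory isometries.
-/

namespace Pool.Agent.H49.UDN

open QuadraticMap Module Polynomial

universe u v w

section ssa

variable {F : Type u} {V : Type v} [Field F] [CharP F 2] [AddCommGroup V] [Module F V]

variable (F) in
include F in
lemma add_self_zero (x : V) : x + x = 0 := by
  rw [← two_smul F x, two_zero, zero_smul]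

lemma polar_self_zero (Q : QuadraticForm F V) (x : V) : polar Q x x = 0 := by
  rw [polar_self', two_zero, zero_mul]

/-- `B (A x, x) = 0` for all `x`. -/
def SSA (Q : QuadraticForm F V) (A : Module.End F V) : Prop := ∀ x, polar Q (A x) x = 0

/-- `A` is self-adjoint. -/
def SA (Q : QuadraticForm F V) (A : Module.End F V) : Prop :=
  ∀ x y, polar Q (A x) y = polar Q x (A y)

variable {Q : QuadraticForm F V} {A A' : Module.End F V}

lemma SSA.sa (h : SSA Q A) : SA Q A := by
  intro x y
  have h1 := h (x + y)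
  rw [map_add, polar_add_left, polar_add_right, polar_add_right, h x, h y, polar_comm Q (A y) x]
    at h1
  linear_combination h1 - polar Q x (A y) * (two_zero (F := F))

lemma SSA.add (h : SSA Q A) (h' : SSA Q A') : SSA Q (A + A') := by
  intro x
  rw [LinearMap.add_apply, polar_add_left, h, h', add_zero]

lemma SSA.smul (h : SSA Q A) (c : F) : SSA Q (c • A) := by
  intro x
  rw [LinearMap.smul_apply, polar_smul_left, h, smul_zero]

lemma ssa_one : SSA Q (1 : Module.End F V) := fun x => polar_self_zero Q x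

lemma ssa_zero : SSA Q (0 : Module.End F V) := fun x => by
  rw [LinearMap.zero_apply, polar_zero_left]

lemma SSA.conj (h : SSA Q A) (h' : SA Q A') : SSA Q (A' * A * A') := by
  intro x
  rw [Module.End.mul_apply, Module.End.mul_apply, h']
  exact h _

lemma SA.mul_of_commute (h : SA Q A) (h' : SA Q A') (hc : A * A' = A' * A) : SA Q (A * A') := by
  intro x y
  rw [Module.End.mul_apply, h, h', ← Module.End.mul_apply, ← hc]

lemma SA.add (h : SA Q A) (h' : SA Q A') : SA Q (A + A') := by
  intro x y
  rw [LinearMap.add_apply, polar_add_left, h, h', LinearMap.add_apply, polar_add_right]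

lemma SA.pow (h : SA Q A) (n : ℕ) : SA Q (A ^ n) := by
  induction n with
  | zero => intro x y; rfl
  | succ n ih =>
    rw [pow_succ]
    exact ih.mul_of_commute h (by rw [← pow_succ, ← pow_succ'])

lemma SSA.pow (h : SSA Q A) (n : ℕ) : SSA Q (A ^ n) := by
  rcases Nat.even_or_odd n with ⟨k, rfl⟩ | ⟨k, rfl⟩
  · intro x
    rw [pow_add, Module.End.mul_apply, h.sa.pow k]
    exact polar_self_zero Q _
  · have : A ^ (2 * k + 1) = A ^ k * A * A ^ k := by
      rw [← pow_succ, ← pow_add]
      congr 1
      omega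
    rw [this]
    exact h.conj (h.sa.pow k)

lemma SSA.aeval (h : SSA Q A) (p : F[X]) : SSA Q (aeval A p) := by
  induction p using Polynomial.induction_on' with
  | add p q hp hq => rw [map_add]; exact hp.add hq
  | monomial n a =>
    rw [aeval_monomial, ← Algebra.smul_def]
    exact (h.pow n).smul a

lemma SA.aeval (h : SA Q A) (p : F[X]) : SA Q (aeval A p) := by
  induction p using Polynomial.induction_on' with
  | add p q hp hq => rw [map_add]; exact hp.add hq
  | monomial n a =>
    rw [aeval_monomial, ← Algebra.smul_def]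
    intro x y
    rw [LinearMap.smul_apply, LinearMap.smul_apply, polar_smul_left, polar_smul_right, h.pow n]

lemma SSA.anti (h : SA Q A) (h' : SA Q A') : SSA Q (A * A' + A' * A) := by
  intro x
  have e1 : polar Q (A (A' x)) x = polar Q (A' x) (A x) := h _ _
  have e2 : polar Q (A' (A x)) x = polar Q (A x) (A' x) := h' _ _
  rw [LinearMap.add_apply, polar_add_left, Module.End.mul_apply, Module.End.mul_apply, e1, e2,
    polar_comm Q (A' x) (A x)]
  have := (two_zero (F := F))
  linear_combination (polar Q (A x) (A' x)) * this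

/-- `1 + C` is an isometry of order two. -/
structure IsInv (Q : QuadraticForm F V) (C : Module.End F V) : Prop where
  ne : C ≠ 0
  sq : ∀ x, C (C x) = 0
  adj : SA Q C
  q : ∀ x, Q (C x) = polar Q x (C x)

lemma IsInv.q_add {C : Module.End F V} (h : IsInv Q C) (x : V) : Q (x + C x) = Q x := by
  rw [Qadd, h.q]
  have := (two_zero (F := F))
  linear_combination (polar Q x (C x)) * this

lemma IsInv.isotropic {C : Module.End F V} (h : IsInv Q C) (x y : V) :
    polar Q (C x) (C y) = 0 := by
  rw [h.adj, h.sq, polar_zero_right]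

/-- Totally singular subspaces are isotropic. -/
lemma polar_zero_of_sing {L : Submodule F V} (hL : ∀ x ∈ L, Q x = 0) {x y : V} (hx : x ∈ L)
    (hy : y ∈ L) : polar Q x y = 0 := by
  rw [polar, hL x hx, hL y hy, hL _ (L.add_mem hx hy)]
  simp

end ssa

section line

variable {F : Type u} {V : Type v} {R : Type w} [Field F] [AddCommGroup V] [Module F V]
  [CommRing R] [Algebra F R]

/-- Data of a rank one operator over a commutative algebra. -/
structure IsLine (Q : QuadraticForm F V) (ℓ : R →ₗ[F] F) (ι : R →ₗ[F] V) (β : V →ₗ[F] R) :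
    Prop where
  nd : ∀ r, (∀ s, ℓ (r * s) = 0) → r = 0
  rep : ∀ v s, polar Q v (ι s) = ℓ (s * β v)

lemma exists_line [FiniteDimensional F R] (Q : QuadraticForm F V) (ℓ : R →ₗ[F] F)
    (hℓ : ∀ r, (∀ s, ℓ (r * s) = 0) → r = 0) (ι : R →ₗ[F] V) :
    ∃ β : V →ₗ[F] R, IsLine Q ℓ ι β := by
  let P : V →ₗ[F] R →ₗ[F] F :=
    { toFun := fun v => (polarBilin Q v) ∘ₗ ι
      map_add' := by
        intro x y
        ext s
        simp
      map_smul' := by
        intro a x
        ext s
        simp }
  obtain ⟨β, hβ⟩ := exists_beta ℓ hℓ P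
  exact ⟨β, hℓ, fun v s => hβ v s⟩

variable {Q : QuadraticForm F V} {ℓ : R →ₗ[F] F} {ι : R →ₗ[F] V} {β : V →ₗ[F] R}

lemma IsLine.uniq (h : IsLine Q ℓ ι β) {r r' : R} (hr : ∀ s, ℓ (s * r) = ℓ (s * r')) : r = r' := by
  rw [← sub_eq_zero]
  apply h.nd
  intro s
  rw [mul_comm, mul_sub, map_sub, hr, sub_self]

lemma IsLine.comm (h : IsLine Q ℓ ι β) {A : Module.End F V}
    (hA : ∀ x y, polar Q (A x) y = polar Q x (A y)) {α : R} (hι : ∀ s, A (ι s) = ι (α * s))
    (v : V) : β (A v) = α * β v := by
  apply h.uniq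
  intro s
  rw [← h.rep, hA, hι, h.rep]
  congr 1
  ring

lemma IsLine.adj (h : IsLine Q ℓ ι β) (v w : V) :
    polar Q (ι (β v)) w = polar Q v (ι (β w)) := by
  rw [polar_comm, h.rep, h.rep, mul_comm]

lemma IsLine.self (h : IsLine Q ℓ ι β) (v : V) : polar Q v (ι (β v)) = ℓ (β v * β v) := h.rep v _

/-- The rank one operator. -/
def lineOp (ι : R →ₗ[F] V) (β : V →ₗ[F] R) : Module.End F V := ι ∘ₗ β

lemma lineOp_apply (v : V) : lineOp ι β v = ι (β v) := rfl

lemma IsLine.sa (h : IsLine Q ℓ ι β) : SA Q (lineOp ι β) := fun v w => h.adj v w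

lemma IsLine.op_comm (h : IsLine Q ℓ ι β) {A : Module.End F V}
    (hA : ∀ x y, polar Q (A x) y = polar Q x (A y)) {α : R} (hι : ∀ s, A (ι s) = ι (α * s))
    (v : V) : lineOp ι β (A v) = A (lineOp ι β v) := by
  rw [lineOp_apply, lineOp_apply, h.comm hA hι, hι]

/-- The map `β` vanishes on vectors orthogonal to the line. -/
lemma IsLine.beta_zero (h : IsLine Q ℓ ι β) {v : V} (hv : ∀ s, polar Q v (ι s) = 0) :
    β v = 0 := by
  apply h.uniq
  intro s
  rw [← h.rep, hv, mul_zero, map_zero]

end line

end Pool.Agent.H49.UDN
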