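import Pool.Agent.H49.UDN.ESsa

set_option autoImplicit false
set_option linter.unusedSectionVars false

/-!
Characteristic two: pairs of operators `j, a` with `j ^ 2 = j + δ`, `a ^ 2 = a + ε`.
-/

namespace Pool.Agent.H49.UDN

open QuadraticMap Module Polynomial

universe u v w

section sys

variable {F : Type u} {V : Type v} [Field F] [CharP F 2] [AddCommGroup V] [Module F V]

/-- A pair of operators generating a quaternion algebra over the polynomials in `zz j a`. -/
structure Sys (Q : QuadraticForm F V) (j a : Module.End F V) (δ ε : F) : Prop where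
  j_ssa : SSA Q j
  a_ssa : SSA Q a
  j_sq : ∀ x, j (j x) = j x + δ • x
  a_sq : ∀ x, a (a x) = a x + ε • x
  irr : ∀ c : F, c * c + c + δ ≠ 0
  eps : ε = 0 ∨ ε = δ

/-- The anticommutator. -/
def dd (j a : Module.End F V) : Module.End F V := j * a + a * j

/-- The central element. -/
def zz (j a : Module.End F V) : Module.End F V := dd j a + j + a

variable {Q : QuadraticForm F V} {j a : Module.End F V} {δ ε : F}

lemma dd_apply (x : V) : dd j a x = j (a x) + a (j x) := rfl

lemma zz_apply (x : V) : zz j a x = j (a x) + a (j x) + j x + a x := rfl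

lemma eq_of_two {x y w : V} (h : x = y + (2 : F) • w) : x = y := by
  rw [h, two_zero, zero_smul, add_zero]

namespace Sys

variable (h : Sys Q j a δ ε)

include h

lemma dd_ssa : SSA Q (dd j a) := SSA.anti h.j_ssa.sa h.a_ssa.sa

lemma zz_ssa : SSA Q (zz j a) := (h.dd_ssa.add h.j_ssa).add h.a_ssa

lemma dd_j (x : V) : dd j a (j x) = j (dd j a x) + dd j a x := by
  apply eq_of_two (F := F) (w := -j (a x))
  simp only [dd_apply, h.j_sq, map_add, map_smul]
  module

lemma dd_a (x : V) : dd j a (a x) = a (dd j a x) + dd j a x := by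
  apply eq_of_two (F := F) (w := -a (j x))
  simp only [dd_apply, h.a_sq, map_add, map_smul]
  module

lemma zz_j (x : V) : zz j a (j x) = j (zz j a x) := by
  have e1 : zz j a (j x) = dd j a (j x) + j (j x) + a (j x) := rfl
  have e2 : zz j a x = dd j a x + j x + a x := rfl
  rw [e1, e2, h.dd_j]
  apply eq_of_two (F := F) (w := a (j x))
  simp only [map_add, dd_apply]
  module

lemma zz_a (x : V) : zz j a (a x) = a (zz j a x) := by
  have e1 : zz j a (a x) = dd j a (a x) + j (a x) + a (a x) := rfl
  have e2 : zz j a x = dd j a x + j x + a x := rfl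
  rw [e1, e2, h.dd_a]
  apply eq_of_two (F := F) (w := j (a x))
  simp only [map_add, dd_apply]
  module

lemma zz_dd (x : V) : zz j a (dd j a x) = dd j a (zz j a x) := by
  rw [dd_apply, map_add, h.zz_j, h.zz_a, h.zz_a, h.zz_j, dd_apply]

lemma dd_dd (x : V) :
    dd j a (dd j a x) = zz j a (zz j a x) + zz j a x + (δ + ε) • x := by
  have e1 : ∀ y, zz j a y = dd j a y + j y + a y := fun y => rfl
  have e3 : dd j a (j x) = j (dd j a x) + dd j a x := h.dd_j x
  have e4 : dd j a (a x) = a (dd j a x) + dd j a x := h.dd_a x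
  rw [e1 (zz j a x)]
  rw [e1 x]
  simp only [map_add, e3, e4, h.j_sq, h.a_sq]
  apply eq_of_two (F := F) (w := -(dd j a x + j (dd j a x) + a (dd j a x) + j x + a x
    + δ • x + ε • x + dd j a x))
  rw [dd_apply x]
  simp only [map_add, dd_apply]
  module

lemma dd_sq_j (x : V) : dd j a (dd j a (j x)) = j (dd j a (dd j a x)) := by
  rw [h.dd_j, map_add, h.dd_j]
  apply eq_of_two (F := F) (w := dd j a (dd j a x))
  module

lemma dd_sq_a (x : V) : dd j a (dd j a (a x)) = a (dd j a (dd j a x)) := by
  rw [h.dd_a, map_add, h.dd_a]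
  apply eq_of_two (F := F) (w := dd j a (dd j a x))
  module

end Sys

end sys

section poly

variable {F : Type u} {V : Type v} [Field F] [AddCommGroup V] [Module F V]

lemma aeval_commute {A C : Module.End F V} (h : ∀ x, A (C x) = C (A x)) (p : F[X]) (x : V) :
    aeval A p (C x) = C (aeval A p x) := by
  have h1 : Commute C A := by
    ext y
    exact (h y).symm
  have h2 : Commute C (aeval A p) := by
    induction p using Polynomial.induction_on' with
    | add p q hp hq => rw [map_add]; exact hp.add_right hq
    | monomial n a =>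
      rw [aeval_monomial]
      exact (Algebra.commute_algebraMap_right a C).mul_right (h1.pow_right n)
  exact (LinearMap.congr_fun h2.eq x).symm

lemma aeval_stable {A : Module.End F V} {W : Submodule F V} (hW : ∀ x ∈ W, A x ∈ W) (p : F[X]) :
    ∀ x ∈ W, aeval A p x ∈ W := by
  induction p using Polynomial.induction_on' with
  | add p q hp hq =>
    intro x hx
    rw [map_add]
    exact W.add_mem (hp x hx) (hq x hx)
  | monomial n a =>
    have hn : ∀ x ∈ W, (A ^ n) x ∈ W := by
      induction n with
      | zero => intro x hx; exact hx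
      | succ n ih =>
        intro x hx
        rw [pow_succ, Module.End.mul_apply]
        exact ih _ (hW x hx)
    intro x hx
    rw [aeval_monomial, ← Algebra.smul_def, LinearMap.smul_apply]
    exact W.smul_mem _ (hn x hx)

lemma aeval_mul_apply (A : Module.End F V) (p q : F[X]) (x : V) :
    aeval A (p * q) x = aeval A p (aeval A q x) := by
  rw [map_mul]; rfl

lemma aeval_one_apply (A : Module.End F V) (x : V) : aeval A (1 : F[X]) x = x := by
  rw [map_one]; rfl

lemma aeval_comm_apply (A : Module.End F V) (p q : F[X]) (x : V) :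
    aeval A p (aeval A q x) = aeval A q (aeval A p x) := by
  rw [← aeval_mul_apply, mul_comm, aeval_mul_apply]

/-- The line spanned by a vector over `F[X] / (f)`. -/
lemma exists_polyLine (A : Module.End F V) (f : F[X]) (m : V) (hm : aeval A f m = 0) :
    ∃ ι : AdjoinRoot f →ₗ[F] V, ∀ p, ι (AdjoinRoot.mk f p) = aeval A p m := by
  have hsurj : Function.Surjective (AdjoinRoot.mk f) := AdjoinRoot.mk_surjective
  have hwd : ∀ p q : F[X], AdjoinRoot.mk f p = AdjoinRoot.mk f q → aeval A p m = aeval A q m := by
    intro p q hpq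
    rw [AdjoinRoot.mk_eq_mk] at hpq
    obtain ⟨r, hr⟩ := hpq
    have h1 : aeval A (p - q) m = 0 := by
      rw [hr, mul_comm, aeval_mul_apply, hm, map_zero]
    rw [map_sub, LinearMap.sub_apply, sub_eq_zero] at h1
    exact h1
  have hs : ∀ κ, AdjoinRoot.mk f (Function.surjInv hsurj κ) = κ := Function.surjInv_eq hsurj
  refine ⟨{ toFun := fun κ => aeval A (Function.surjInv hsurj κ) m
            map_add' := ?_
            map_smul' := ?_ }, ?_⟩
  · intro x y
    rw [← LinearMap.add_apply, ← map_add]
    apply hwd
    rw [map_add, hs, hs, hs]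
  · intro c x
    rw [RingHom.id_apply, ← LinearMap.smul_apply, ← map_smul]
    apply hwd
    rw [hs, Polynomial.smul_eq_C_mul, map_mul, hs, Algebra.smul_def]
    rfl
  · intro p
    apply hwd
    rw [hs]

lemma finite_adjoinRoot {f : F[X]} (hf : f ≠ 0) : FiniteDimensional F (AdjoinRoot f) :=
  (AdjoinRoot.powerBasis hf).finite

/-- An irreducible polynomial that kills an operator: all polynomials act as zero or
injectively. -/
lemma polyLine_injective {A : Module.End F V} {f : F[X]} (hf : Irreducible f) {m : V}
    (hm : aeval A f m = 0) (hm0 : m ≠ 0) {ι : AdjoinRoot f →ₗ[F] V}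
    (hι : ∀ p, ι (AdjoinRoot.mk f p) = aeval A p m) {κ : AdjoinRoot f} (h : ι κ = 0) : κ = 0 := by
  obtain ⟨p, rfl⟩ := AdjoinRoot.mk_surjective κ
  rw [hι] at h
  rw [AdjoinRoot.mk_eq_zero]
  by_contra hnd
  obtain ⟨u, v, huv⟩ := (hf.coprime_iff_not_dvd.2 hnd)
  apply hm0
  have h1 : aeval A (u * f + v * p) m = m := by
    rw [huv, map_one]; rfl
  rw [← h1, map_add, LinearMap.add_apply, aeval_mul_apply, aeval_mul_apply, hm, h]
  simp

end poly

end Pool.Agent.H49.UDN
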