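import Pool.Agent.H49.UDN.Cases

set_option autoImplicit false

/-!
Characteristic two: square roots, the trace functional of a finite field extension, and the
representation of linear and semilinear functionals.
-/

namespace Pool.Agent.H49.UDN

open QuadraticMap Module Polynomial

universe u v

section sqrt

variable {F : Type u} [Field F] [CharP F 2]

lemma two_zero : (2 : F) = 0 := CharTwo.two_eq_zero

lemma mul_self_inj {a b : F} (h : a * a = b * b) : a = b := by
  have h1 : (a - b) * (a - b) = 0 := by
    linear_combination h - a * b * (two_zero (F := F)) + b * b * (two_zero (F := F))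
  exact sub_eq_zero.1 (mul_self_eq_zero.1 h1)

variable [Finite F]

lemma exists_sqrt (a : F) : ∃ b : F, b * b = a := by
  have hchar : ringChar F = 2 := ringChar.eq F 2
  obtain ⟨b, hb⟩ := FiniteField.isSquare_of_char_two hchar a
  exact ⟨b, hb.symm⟩

/-- Square root in characteristic two. -/
noncomputable def rt (a : F) : F := (exists_sqrt a).choose

lemma rt_mul (a : F) : rt a * rt a = a := (exists_sqrt a).choose_spec

lemma rt_add (a b : F) : rt (a + b) = rt a + rt b := by
  apply mul_self_inj
  rw [rt_mul]
  have : (rt a + rt b) * (rt a + rt b) = rt a * rt a + rt b * rt b + 2 * (rt a * rt b) := by ring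
  rw [this, rt_mul, rt_mul, two_zero, zero_mul, add_zero]

lemma rt_sq_mul (a b : F) : rt (a * a * b) = a * rt b := by
  apply mul_self_inj
  rw [rt_mul]
  have : a * rt b * (a * rt b) = a * a * (rt b * rt b) := by ring
  rw [this, rt_mul]

/-- The linear functional whose square is a given semilinear functional. -/
noncomputable def rtFun {V : Type v} [AddCommGroup V] [Module F V] (g : V → F)
    (hadd : ∀ x y, g (x + y) = g x + g y) (hsmul : ∀ (a : F) (x : V), g (a • x) = a * a * g x) :
    V →ₗ[F] F where
  toFun x := rt (g x)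
  map_add' x y := by rw [hadd, rt_add]
  map_smul' a x := by rw [hsmul, rt_sq_mul, smul_eq_mul, RingHom.id_apply]

lemma rtFun_mul {V : Type v} [AddCommGroup V] [Module F V] (g : V → F)
    (hadd : ∀ x y, g (x + y) = g x + g y) (hsmul : ∀ (a : F) (x : V), g (a • x) = a * a * g x)
    (x : V) : rtFun g hadd hsmul x * rtFun g hadd hsmul x = g x := rt_mul _

end sqrt

section dual

variable {F : Type u} {R : Type v} [Field F] [CommRing R] [Algebra F R] [FiniteDimensional F R]

/-- A nondegenerate functional on a commutative algebra represents every functional. -/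
lemma exists_repr (ℓ : R →ₗ[F] F) (hℓ : ∀ r, (∀ s, ℓ (r * s) = 0) → r = 0) (f : R →ₗ[F] F) :
    ∃ r : R, ∀ s, f s = ℓ (r * s) := by
  let Θ : R →ₗ[F] (R →ₗ[F] F) :=
    { toFun := fun r => ℓ ∘ₗ (LinearMap.mulLeft F r)
      map_add' := by
        intro a b
        ext s
        simp [add_mul]
      map_smul' := by
        intro a b
        ext s
        simp }
  have hΘ : ∀ r s, Θ r s = ℓ (r * s) := fun r s => rfl
  have hinj : Function.Injective Θ := by
    rw [injective_iff_map_eq_zero]
    intro r hr
    apply hℓ
    intro s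
    rw [← hΘ, hr]
    rfl
  have hsurj : Function.Surjective Θ := by
    rw [← LinearMap.range_eq_top]
    apply Submodule.eq_top_of_finrank_eq
    rw [LinearMap.finrank_range_of_inj hinj]
    exact (Subspace.dual_finrank_eq (K := F) (V := R)).symm
  obtain ⟨r, hr⟩ := hsurj f
  exact ⟨r, fun s => by rw [← hr, hΘ]⟩

/-- Linear version of the representation. -/
lemma exists_beta {V : Type*} [AddCommGroup V] [Module F V] (ℓ : R →ₗ[F] F)
    (hℓ : ∀ r, (∀ s, ℓ (r * s) = 0) → r = 0) (P : V →ₗ[F] R →ₗ[F] F) :
    ∃ β : V →ₗ[F] R, ∀ v s, P v s = ℓ (s * β v) := by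
  have h1 := fun v => exists_repr ℓ hℓ (P v)
  choose b hb using h1
  have huniq : ∀ r r' : R, (∀ s, ℓ (r * s) = ℓ (r' * s)) → r = r' := by
    intro r r' h
    rw [← sub_eq_zero]
    apply hℓ
    intro s
    rw [sub_mul, map_sub, h, sub_self]
  refine ⟨{ toFun := b, map_add' := ?_, map_smul' := ?_ }, ?_⟩
  · intro x y
    apply huniq
    intro s
    rw [← hb, map_add, LinearMap.add_apply, hb, hb, add_mul, map_add]
  · intro a x
    apply huniq
    intro s
    rw [← hb, map_smul, LinearMap.smul_apply, hb, RingHom.id_apply, Algebra.smul_mul_assoc,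
      map_smul]
  · intro v s
    change P v s = ℓ (s * b v)
    rw [mul_comm, hb]

end dual

section tau

variable (F : Type u) (K : Type v) [Field F] [Field K] [Finite K] [Algebra F K] [CharP F 2]

/-- The trace of a finite extension of finite fields of characteristic two. -/
lemma exists_tau : ∃ τ : K →ₗ[F] F, (∀ x, τ (x * x) = τ x * τ x) ∧
    (∀ x, (∀ y, τ (x * y) = 0) → x = 0) ∧ ∃ x, τ x = 1 := by
  have : Finite F := Finite.of_injective _ (algebraMap F K).injective
  have hfd : FiniteDimensional F K := Module.Finite.of_finite (R := F) (M := K)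
  have hch : CharP K 2 := charP_of_injective_algebraMap (algebraMap F K).injective 2
  have hnd : ∀ x, (∀ y, Algebra.trace F K (x * y) = 0) → x = 0 := by
    intro x hx
    exact (traceForm_nondegenerate F K).1 x hx
  refine ⟨Algebra.trace F K, ?_, hnd, ?_⟩
  · intro x
    apply (algebraMap F K).injective
    rw [RingHom.map_mul, trace_eq_sum_automorphisms, trace_eq_sum_automorphisms,
      CharTwo.sum_mul_self]
    simp only [map_mul]
  · obtain ⟨y, hy⟩ : ∃ y, Algebra.trace F K y ≠ 0 := by
      by_contra hcon
      push Not at hcon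
      exact one_ne_zero (hnd 1 (fun y => hcon _))
    refine ⟨(Algebra.trace F K y)⁻¹ • y, ?_⟩
    rw [map_smul, smul_eq_mul, inv_mul_cancel₀ hy]

variable {F K}

/-- Semilinear functionals are represented by the trace. -/
lemma exists_repr_semi [Finite F] {τ : K →ₗ[F] F}
    (hτ : ∀ x, (∀ y, τ (x * y) = 0) → x = 0) (g : K → F)
    (hadd : ∀ x y, g (x + y) = g x + g y) (hsmul : ∀ (a : F) (x : K), g (a • x) = a * a * g x) :
    ∃ μ : K, ∀ x, g x = τ (μ * x) * τ (μ * x) := by
  have hfd : FiniteDimensional F K := Module.Finite.of_finite (R := F) (M := K)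
  obtain ⟨μ, hμ⟩ := exists_repr τ hτ (rtFun g hadd hsmul)
  refine ⟨μ, ?_⟩
  intro x
  rw [← rtFun_mul g hadd hsmul, hμ]

end tau

end Pool.Agent.H49.UDN
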