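import Pool.Agent.H49.UDN.Gamma

set_option autoImplicit false

/-!
The field generated by an operator all of whose polynomial expressions are zero or injective.
-/

namespace Pool.Agent.H49.UDN

open QuadraticMap Module Polynomial

universe u v

lemma exists_field {F : Type u} {S : Type v} [Field F] [Finite F] [AddCommGroup S] [Module F S]
    [FiniteDimensional F S] (z : Module.End F S) (hne : ∃ x : S, x ≠ 0)
    (hinj : ∀ p : F[X], aeval z p ≠ 0 → ∀ x : S, aeval z p x = 0 → x = 0) :
    ∃ (K : Type u) (_ : Field K) (_ : Finite K) (_ : Algebra F K) (_ : Module K S)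
      (_ : IsScalarTower F K S), (∀ κ : K, ∃ p : F[X], ∀ x : S, κ • x = aeval z p x) ∧
      (∀ p : F[X], ∃ κ : K, ∀ x : S, κ • x = aeval z p x) := by
  classical
  set f : F[X] →+* Module.End F S := (aeval z : F[X] →ₐ[F] Module.End F S).toRingHom with hf
  set I : Ideal F[X] := RingHom.ker f with hI
  have hprime : I.IsPrime := by
    constructor
    · intro htop
      obtain ⟨x, hx⟩ := hne
      have h1 : (1 : F[X]) ∈ I := by
        rw [htop]
        trivial
      have h2 : f 1 = 0 := h1
      rw [map_one] at h2
      apply hx
      have := LinearMap.congr_fun h2 x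
      simpa using this
    · intro p q hpq
      by_contra hcon
      push Not at hcon
      obtain ⟨hp, hq⟩ := hcon
      apply hq
      have h1 : f (p * q) = 0 := hpq
      rw [map_mul] at h1
      change f q = 0
      ext x
      have h2 := LinearMap.congr_fun h1 x
      exact hinj p hp _ h2
  have hfinEnd : Finite (Module.End F S) := by
    have : Finite S := Module.finite_of_finite F
    exact Finite.of_injective (fun g : Module.End F S => (g : S → S)) DFunLike.coe_injective
  have hfin : Finite (F[X] ⧸ I) :=
    Finite.of_injective (RingHom.kerLift f) (RingHom.kerLift_injective f)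
  have hdom : IsDomain (F[X] ⧸ I) := (Ideal.Quotient.isDomain_iff_prime I).2 hprime
  have hmax : I.IsMaximal := Ideal.Quotient.maximal_of_isField I (Finite.isField_of_domain _)
  let _ : Field (F[X] ⧸ I) := Ideal.Quotient.field I
  let _ : Module (F[X] ⧸ I) S := Module.compHom S (RingHom.kerLift f)
  have hsmul : ∀ (p : F[X]) (x : S), (Ideal.Quotient.mk I p) • x = aeval z p x := by
    intro p x
    rfl
  refine ⟨F[X] ⧸ I, inferInstance, hfin, inferInstance, inferInstance, ?_, ?_, ?_⟩
  · constructor
    intro c κ x
    obtain ⟨p, rfl⟩ := Ideal.Quotient.mk_surjective κ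
    have : c • (Ideal.Quotient.mk I p) = Ideal.Quotient.mk I (c • p) := rfl
    rw [this, hsmul, hsmul, map_smul, LinearMap.smul_apply]
  · intro κ
    obtain ⟨p, rfl⟩ := Ideal.Quotient.mk_surjective κ
    exact ⟨p, fun x => hsmul p x⟩
  · intro p
    exact ⟨Ideal.Quotient.mk I p, fun x => hsmul p x⟩

end Pool.Agent.H49.UDN
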