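import Pool.Agent.H49.UDN.Irr

set_option autoImplicit false

/-!
Consequences of the structure of irreducible isometries: parity of the dimension, roots of
quadratic polynomials, and the divisibility of the number of singular vectors.
-/

namespace Pool.Agent.H49.UDN

open QuadraticMap Module Polynomial

universe u v

section fix

variable {F K : Type u} [Field F] [Field K] [Finite K] [Algebra F K]

/-- The fixed field of an involution. -/
noncomputable def fixF (σ : K ≃ₐ[F] K) : IntermediateField F K :=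
  IntermediateField.fixedField (Subgroup.zpowers σ)

omit [Finite K] in
lemma mem_fixF {σ : K ≃ₐ[F] K} {x : K} : x ∈ fixF σ ↔ σ x = x := by
  rw [fixF, IntermediateField.mem_fixedField_iff]
  constructor
  · intro h
    exact h σ (Subgroup.mem_zpowers σ)
  · intro h f hf
    have h1 : σ ∈ MulAction.stabilizer (K ≃ₐ[F] K) x := h
    have h2 : Subgroup.zpowers σ ≤ MulAction.stabilizer (K ≃ₐ[F] K) x := by
      rwa [Subgroup.zpowers_le]
    exact h2 hf

lemma finrank_fixF (σ : K ≃ₐ[F] K) (h2 : ∀ x, σ (σ x) = x) (h1 : σ ≠ 1) :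
    finrank F (fixF σ) * 2 = finrank F K := by
  have := Finite.of_injective _ (algebraMap F K).injective
  have hfd : FiniteDimensional F K := Module.Finite.of_finite (R := F) (M := K)
  have hord : orderOf σ = 2 := by
    apply orderOf_eq_prime
    · ext x
      rw [pow_two]
      exact h2 x
    · exact h1
  have hc : finrank (fixF σ) K = 2 := by
    rw [fixF, IntermediateField.finrank_fixedField_eq_card, Nat.card_zpowers, hord]
  rw [← hc]
  exact Module.finrank_mul_finrank F (fixF σ) K

lemma even_finrank (σ : K ≃ₐ[F] K) (h2 : ∀ x, σ (σ x) = x) (h1 : σ ≠ 1) :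
    Even (finrank F K) := by
  rw [← finrank_fixF σ h2 h1]
  exact even_two.mul_left _

lemma exists_root (σ : K ≃ₐ[F] K) (h2 : ∀ x, σ (σ x) = x) (h1 : σ ≠ 1)
    (hd : finrank F K % 4 = 2) {τ ν : F} (hirr : ∀ c : F, c ^ 2 - τ * c + ν ≠ 0) :
    ∃ j : K, j * j = algebraMap F K τ * j - algebraMap F K ν ∧ σ j = algebraMap F K τ - j := by
  have := Finite.of_injective _ (algebraMap F K).injective
  have hfd : FiniteDimensional F K := Module.Finite.of_finite (R := F) (M := K)
  set P : F[X] := X ^ 2 - C τ * X + C ν with hP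
  have hdeg : P.natDegree = 2 := by
    rw [hP]
    compute_degree!
  have hmonic : P.Monic := by
    rw [hP]
    monicity!
  have hPirr : Irreducible P := by
    rw [hmonic.irreducible_iff_roots_eq_zero_of_degree_le_three (by omega) (by omega)]
    rw [Multiset.eq_zero_iff_forall_notMem]
    intro c hc
    rw [mem_roots hmonic.ne_zero] at hc
    apply hirr c
    have : eval c P = 0 := hc
    rw [hP] at this
    simpa using this
  have : Fact (Irreducible P) := ⟨hPirr⟩
  have hfr : finrank F (AdjoinRoot P) = 2 := by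
    rw [(AdjoinRoot.powerBasis hmonic.ne_zero).finrank, AdjoinRoot.powerBasis_dim, hdeg]
  obtain ⟨φ⟩ : Nonempty (AdjoinRoot P →ₐ[F] K) := by
    apply FiniteField.nonempty_algHom_of_finrank_dvd
    rw [hfr]
    omega
  have hroot : aeval (φ (AdjoinRoot.root P)) P = 0 := by
    rw [aeval_algHom_apply, AdjoinRoot.aeval_eq, AdjoinRoot.mk_self, map_zero]
  set j := φ (AdjoinRoot.root P) with hj
  have hj2 : j * j = algebraMap F K τ * j - algebraMap F K ν := by
    rw [hP] at hroot
    simp only [map_add, map_sub, map_mul, map_pow, aeval_X, aeval_C] at hroot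
    linear_combination hroot
  refine ⟨j, hj2, ?_⟩
  have hne : σ j ≠ j := by
    intro h
    have h3 : (σ : K →ₐ[F] K).comp φ = φ := by
      apply AdjoinRoot.algHom_ext
      exact h
    have h4 : ∀ x, φ x ∈ (fixF σ).toSubalgebra := by
      intro x
      have : φ x ∈ fixF σ := by
        rw [mem_fixF]
        exact congrArg (fun f : AdjoinRoot P →ₐ[F] K => f x) h3
      exact this
    have h5 : Nonempty (AdjoinRoot P →ₐ[F] fixF σ) := ⟨φ.codRestrict (fixF σ).toSubalgebra h4⟩
    have : Finite (fixF σ) := inferInstance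
    rw [FiniteField.nonempty_algHom_iff_finrank_dvd, hfr] at h5
    have h6 := finrank_fixF σ h2 h1
    omega
  have h7 : σ j * σ j = algebraMap F K τ * σ j - algebraMap F K ν := by
    have := congrArg σ hj2
    rwa [map_mul, map_sub, map_mul, AlgEquiv.commutes, AlgEquiv.commutes] at this
  have h8 : (σ j - j) * (σ j - (algebraMap F K τ - j)) = 0 := by
    linear_combination h7 - hj2
  rcases mul_eq_zero.1 h8 with h | h
  · exact absurd (sub_eq_zero.1 h) hne
  · exact sub_eq_zero.1 h

/-- The norm-one group of an involution has order divisible by `q ^ m + 1`. -/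
lemma card_norm_one (σ : K ≃ₐ[F] K) (h2 : ∀ x, σ (σ x) = x) (h1 : σ ≠ 1) (m : ℕ)
    (hd : finrank F K = 2 * m) (C : Subgroup Kˣ) (hC : ∀ c : Kˣ, c ∈ C ↔ (c : K) * σ c = 1) :
    Nat.card F ^ m + 1 ∣ Nat.card C := by
  have := Finite.of_injective _ (algebraMap F K).injective
  have hfd : FiniteDimensional F K := Module.Finite.of_finite (R := F) (M := K)
  have hfr := finrank_fixF σ h2 h1
  have hm : finrank F (fixF σ) = m := by omega
  let N : Kˣ →* (fixF σ)ˣ :=
    { toFun := fun x => ⟨⟨(x : K) * σ x, by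
          rw [mem_fixF, map_mul, h2, mul_comm]⟩, ⟨((x⁻¹ : Kˣ) : K) * σ ((x⁻¹ : Kˣ) : K), by
          rw [mem_fixF, map_mul, h2, mul_comm]⟩, by
          apply Subtype.ext
          change (x : K) * σ x * (((x⁻¹ : Kˣ) : K) * σ ((x⁻¹ : Kˣ) : K)) = 1
          have e1 : (x : K) * ((x⁻¹ : Kˣ) : K) = 1 := x.mul_inv
          have e2 : σ (x : K) * σ ((x⁻¹ : Kˣ) : K) = 1 := by rw [← map_mul, e1, map_one]
          linear_combination (σ (x : K) * σ ((x⁻¹ : Kˣ) : K)) * e1 + e2, by
          apply Subtype.ext
          change ((x⁻¹ : Kˣ) : K) * σ ((x⁻¹ : Kˣ) : K) * ((x : K) * σ x) = 1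
          have e1 : (x : K) * ((x⁻¹ : Kˣ) : K) = 1 := x.mul_inv
          have e2 : σ (x : K) * σ ((x⁻¹ : Kˣ) : K) = 1 := by rw [← map_mul, e1, map_one]
          linear_combination (σ (x : K) * σ ((x⁻¹ : Kˣ) : K)) * e1 + e2⟩
      map_one' := by
        apply Units.ext
        apply Subtype.ext
        change ((1 : Kˣ) : K) * σ ((1 : Kˣ) : K) = 1
        simp
      map_mul' := by
        intro x y
        apply Units.ext
        apply Subtype.ext
        change ((x * y : Kˣ) : K) * σ ((x * y : Kˣ) : K) = (x : K) * σ x * ((y : K) * σ y)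
        rw [Units.val_mul, map_mul]
        ring }
  have hN : ∀ x : Kˣ, (((N x : (fixF σ)ˣ) : fixF σ) : K) = (x : K) * σ x := fun x => rfl
  have hker : N.ker = C := by
    ext x
    rw [MonoidHom.mem_ker, hC]
    constructor
    · intro h
      rw [← hN, h]
      rfl
    · intro h
      apply Units.ext
      apply Subtype.ext
      rw [hN, h]
      rfl
  have e1 : Nat.card Kˣ = Nat.card C * Nat.card N.range := by
    rw [← hker, mul_comm]
    have h3 := Subgroup.card_eq_card_quotient_mul_card_subgroup N.ker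
    rw [h3]
    congr 1
    exact Nat.card_congr (QuotientGroup.quotientKerEquivRange N).toEquiv
  have e2 : Nat.card N.range ∣ Nat.card (fixF σ)ˣ := Subgroup.card_subgroup_dvd_card _
  have e3 : Nat.card Kˣ = Nat.card F ^ (2 * m) - 1 := by
    rw [Nat.card_units, Module.natCard_eq_pow_finrank (K := F) (V := K), hd]
  have e4 : Nat.card (fixF σ)ˣ = Nat.card F ^ m - 1 := by
    rw [Nat.card_units, Module.natCard_eq_pow_finrank (K := F) (V := fixF σ), hm]
  obtain ⟨e, he⟩ := e2
  rw [e4] at he
  have hq : 1 ≤ Nat.card F ^ m := Nat.one_le_pow _ _ Nat.card_pos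
  have e5 : Nat.card F ^ (2 * m) - 1 = (Nat.card F ^ m - 1) * (Nat.card F ^ m + 1) := by
    obtain ⟨a, ha⟩ := Nat.exists_eq_add_of_le hq
    rw [two_mul, pow_add, ha, Nat.add_sub_cancel_left]
    rw [show (1 + a) * (1 + a) = a * (1 + a + 1) + 1 by ring, Nat.add_sub_cancel]
  rw [e3, e5, he] at e1
  have hpos : 0 < Nat.card N.range := Nat.card_pos
  have e6 : e * (Nat.card F ^ m + 1) = Nat.card C := by
    apply Nat.eq_of_mul_eq_mul_left hpos
    rw [← mul_assoc, e1, mul_comm]
  exact ⟨e, by rw [← e6, mul_comm]⟩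

omit [Finite K] in
/-- A set of nonzero vectors in a line that is stable under a subgroup of `Kˣ` has cardinality
divisible by the order of that subgroup. -/
lemma card_dvd_of_stable {U : Type v} [AddCommGroup U] [Module K U] (hU : finrank K U = 1)
    (C : Subgroup Kˣ) (A : Set U) (h0 : (0 : U) ∉ A)
    (hA : ∀ c ∈ C, ∀ x ∈ A, (c : K) • x ∈ A) : Nat.card C ∣ Nat.card A := by
  obtain ⟨x0, hx0, hx⟩ := finrank_eq_one_iff'.1 hU
  let S : Set Kˣ := {k | (k : K) • x0 ∈ A}
  have hS : ∀ k : Kˣ, k ∈ S ↔ (k : K) • x0 ∈ A := fun k => Iff.rfl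
  have e1 : Nat.card A = Nat.card S := by
    symm
    apply Nat.card_congr
    refine Equiv.ofBijective (fun k : S => (⟨(k.1 : K) • x0, k.2⟩ : A)) ⟨?_, ?_⟩
    · intro a b hab
      have h3 : (a.1 : K) • x0 = (b.1 : K) • x0 := congrArg Subtype.val hab
      rw [← sub_eq_zero, ← sub_smul] at h3
      have h4 := sub_eq_zero.1 ((smul_eq_zero.1 h3).resolve_right hx0)
      exact Subtype.ext (Units.ext h4)
    · rintro ⟨y, hy⟩
      obtain ⟨c, hc⟩ := hx y
      have hc0 : c ≠ 0 := by
        rintro rfl
        apply h0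
        rw [zero_smul] at hc
        rwa [hc]
      refine ⟨⟨Units.mk0 c hc0, ?_⟩, ?_⟩
      · rw [hS, Units.val_mk0, hc]
        exact hy
      · apply Subtype.ext
        exact hc
  have e2 : S = QuotientGroup.mk ⁻¹' (QuotientGroup.mk (s := C) '' S) := by
    ext k
    constructor
    · intro hk
      exact ⟨k, hk, rfl⟩
    · rintro ⟨k', hk', hkk⟩
      have h3 : k'⁻¹ * k ∈ C := QuotientGroup.eq.1 hkk
      have h4 := hA _ h3 _ hk'
      rw [smul_smul, ← Units.val_mul, mul_comm (k'⁻¹ * k), mul_inv_cancel_left] at h4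
      exact h4
  have e3 : Nat.card S = Nat.card C * Nat.card (QuotientGroup.mk (s := C) '' S) := by
    rw [← Nat.card_prod]
    conv_lhs => rw [e2]
    exact Nat.card_congr (QuotientGroup.preimageMkEquivSubgroupProdSet C _)
  rw [e1, e3]
  exact dvd_mul_right _ _

end fix

end Pool.Agent.H49.UDN
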