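import Pool.Agent.H49.UDN.Beta

set_option autoImplicit false

/-!
The alternating form on a two-dimensional space, the resulting skew map with image in a totally
singular subspace, and products of Siegel transformations.
-/

namespace Pool.Agent.H49.UDN

open QuadraticMap Module
open scoped commutatorElement

section gamma

variable {K S : Type*} [Field K] [AddCommGroup S] [Module K S]

/-- The determinant form of a two-dimensional space with respect to a basis. -/
noncomputable def detForm (b : Basis (Fin 2) K S) : S →ₗ[K] S →ₗ[K] K :=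
  LinearMap.mk₂ K (fun x y => b.repr x 0 * b.repr y 1 - b.repr x 1 * b.repr y 0)
    (by intro x y z; simp only [map_add, Finsupp.add_apply]; ring)
    (by intro c x y; simp only [map_smul, Finsupp.smul_apply, smul_eq_mul]; ring)
    (by intro x y z; simp only [map_add, Finsupp.add_apply]; ring)
    (by intro c x y; simp only [map_smul, Finsupp.smul_apply, smul_eq_mul]; ring)

lemma detForm_apply (b : Basis (Fin 2) K S) (x y : S) :
    detForm b x y = b.repr x 0 * b.repr y 1 - b.repr x 1 * b.repr y 0 := rfl

lemma detForm_self (b : Basis (Fin 2) K S) (x : S) : detForm b x x = 0 := by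
  rw [detForm_apply]
  ring

lemma detForm_swap (b : Basis (Fin 2) K S) (x y : S) : detForm b x y = - detForm b y x := by
  rw [detForm_apply, detForm_apply]
  ring

lemma detForm_nondeg (b : Basis (Fin 2) K S) (x : S) (h : ∀ y, detForm b x y = 0) : x = 0 := by
  have h0 := h (b 0)
  have h1 := h (b 1)
  rw [detForm_apply] at h0 h1
  simp only [Basis.repr_self] at h0 h1
  rw [← b.repr.map_eq_zero_iff]
  ext i
  fin_cases i
  · simpa using h1
  · simpa using h0

lemma detForm_adj (b : Basis (Fin 2) K S) {τ ν : K} (G : S →ₗ[K] S)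
    (hG : ∀ x, G (G x) = τ • G x - ν • x) (hns : ¬ ∃ c : K, ∀ x, G x = c • x) (x y : S) :
    detForm b (G x) y = detForm b x (τ • y - G y) := by
  set a := b.repr (G (b 0)) 0 with ha
  set c := b.repr (G (b 0)) 1 with hc
  set e := b.repr (G (b 1)) 0 with he
  set d := b.repr (G (b 1)) 1 with hd
  have hrep : ∀ x : S, b.repr (G x) 0 = b.repr x 0 * a + b.repr x 1 * e ∧
      b.repr (G x) 1 = b.repr x 0 * c + b.repr x 1 * d := by
    intro x
    have h1 := b.sum_repr x
    rw [Fin.sum_univ_two] at h1
    constructor
    · conv_lhs => rw [← h1]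
      simp only [map_add, map_smul, Finsupp.add_apply, Finsupp.smul_apply, smul_eq_mul]
      rfl
    · conv_lhs => rw [← h1]
      simp only [map_add, map_smul, Finsupp.add_apply, Finsupp.smul_apply, smul_eq_mul]
      rfl
  have h0 := hG (b 0)
  have h1 := hG (b 1)
  have e00 : a * a + c * e = τ * a - ν := by
    have := congrArg (fun t => b.repr t 0) h0
    simp only [(hrep _).1, map_sub, map_smul, Finsupp.sub_apply, Finsupp.smul_apply, smul_eq_mul,
      Basis.repr_self] at this
    simpa using this
  have e01 : a * c + c * d = τ * c := by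
    have := congrArg (fun t => b.repr t 1) h0
    simp only [(hrep _).2, map_sub, map_smul, Finsupp.sub_apply, Finsupp.smul_apply, smul_eq_mul,
      Basis.repr_self] at this
    simpa using this
  have e10 : e * a + d * e = τ * e := by
    have := congrArg (fun t => b.repr t 0) h1
    simp only [(hrep _).1, map_sub, map_smul, Finsupp.sub_apply, Finsupp.smul_apply, smul_eq_mul,
      Basis.repr_self] at this
    simpa using this
  have e11 : e * c + d * d = τ * d - ν := by
    have := congrArg (fun t => b.repr t 1) h1
    simp only [(hrep _).2, map_sub, map_smul, Finsupp.sub_apply, Finsupp.smul_apply, smul_eq_mul,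
      Basis.repr_self] at this
    simpa using this
  have htr : a + d - τ = 0 := by
    by_contra hne
    apply hns
    have c0 : c = 0 := by
      have : (a + d - τ) * c = 0 := by linear_combination e01
      exact (mul_eq_zero.1 this).resolve_left hne
    have e0 : e = 0 := by
      have : (a + d - τ) * e = 0 := by linear_combination e10
      exact (mul_eq_zero.1 this).resolve_left hne
    have ad : a - d = 0 := by
      have : (a + d - τ) * (a - d) = 0 := by linear_combination e00 - e11
      exact (mul_eq_zero.1 this).resolve_left hne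
    refine ⟨a, fun x => ?_⟩
    apply b.repr.injective
    ext i
    fin_cases i
    · simp only [map_smul, Finsupp.smul_apply, smul_eq_mul]
      change b.repr (G x) 0 = a * b.repr x 0
      rw [(hrep x).1, e0]
      ring
    · simp only [map_smul, Finsupp.smul_apply, smul_eq_mul]
      change b.repr (G x) 1 = a * b.repr x 1
      rw [(hrep x).2, c0]
      linear_combination -(b.repr x 1) * ad
  rw [detForm_apply, detForm_apply, (hrep x).1, (hrep x).2]
  simp only [map_sub, map_smul, Finsupp.sub_apply, Finsupp.smul_apply, smul_eq_mul, (hrep y).1,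
    (hrep y).2]
  linear_combination (b.repr x 0 * b.repr y 1 - b.repr x 1 * b.repr y 0) * htr

end gamma

section skew

variable {F K V : Type*} [Field F] [Finite F] [Field K] [Finite K] [Algebra F K]
  [AddCommGroup V] [Module F V] [FiniteDimensional F V]

omit [Finite F] in
lemma exists_skew (Q : QuadraticForm F V) (hnd : (polarBilin Q).Nondegenerate)
    (S0 : Submodule F V) [Module K S0] [IsScalarTower F K S0] (hfr : finrank K S0 = 2)
    (τ ν : F) (JV J'V : V →ₗ[F] V)
    (hJV : ∀ x y, polar Q (JV x) y = polar Q x (τ • y - JV y))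
    (hJ'V : ∀ x y, polar Q (J'V x) y = polar Q x (τ • y - J'V y))
    (J J' : S0 →ₗ[K] S0) (hJ : ∀ x : S0, ((J x : S0) : V) = JV x)
    (hJ' : ∀ x : S0, ((J' x : S0) : V) = J'V x)
    (hJ2 : ∀ x, J (J x) = (algebraMap F K τ) • J x - (algebraMap F K ν) • x)
    (hJ'2 : ∀ x, J' (J' x) = (algebraMap F K τ) • J' x - (algebraMap F K ν) • x)
    (hns : ¬ ∃ c : K, ∀ x, J x = c • x) (hns' : ¬ ∃ c : K, ∀ x, J' x = c • x) :
    ∃ C : V →ₗ[F] V, C ≠ 0 ∧ (∀ x, C x ∈ S0) ∧ (∀ x, polar Q (C x) x = 0) ∧
      (∀ x, C (JV x) = JV (C x)) ∧ (∀ x, C (J'V x) = J'V (C x)) := by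
  have : FiniteDimensional F K := by
    have := Module.Finite.of_finite (R := F) (M := K)
    exact this
  have hfdK : FiniteDimensional K S0 := FiniteDimensional.of_finrank_pos (by omega)
  let b : Basis (Fin 2) K S0 := Module.finBasisOfFinrankEq K S0 hfr
  obtain ⟨t, ht⟩ := Algebra.trace_surjective F K 1
  have ht0 : t ≠ 0 := by
    rintro rfl
    simp at ht
  -- the `F`-valued alternating form
  let ω : LinearMap.BilinForm F S0 :=
    LinearMap.mk₂ F (fun x y => Algebra.trace F K (detForm b x y))
      (by intro x y z; rw [map_add, LinearMap.add_apply, map_add])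
      (by
        intro c x y
        rw [← algebraMap_smul K c x, map_smul, LinearMap.smul_apply, algebraMap_smul, map_smul])
      (by intro x y z; rw [map_add, map_add])
      (by
        intro c x y
        rw [← algebraMap_smul K c y, map_smul, algebraMap_smul, map_smul])
  have hω : ∀ x y, ω x y = Algebra.trace F K (detForm b x y) := fun x y => rfl
  have hω0 : ∀ x, ω x x = 0 := by
    intro x
    rw [hω, detForm_self, map_zero]
  have hsep : ∀ x, (∀ y, ω x y = 0) → x = 0 := by
    intro x hx
    apply detForm_nondeg b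
    intro y
    by_contra hne
    have h1 := hx ((t * (detForm b x y)⁻¹) • y)
    rw [hω, map_smul, smul_eq_mul, mul_assoc, inv_mul_cancel₀ hne, mul_one, ht] at h1
    exact one_ne_zero h1
  have hsep' : ∀ x, (∀ y, ω y x = 0) → x = 0 := by
    intro x hx
    apply hsep
    intro y
    rw [hω, detForm_swap, map_neg, ← hω, hx, neg_zero]
  have hωnd : ω.Nondegenerate := ⟨hsep, hsep'⟩
  obtain ⟨n, hn⟩ : ∃ n : V →ₗ[F] S0, ∀ (y : V) (x : S0), ω (n y) x = polar Q y x := by
    refine ⟨(LinearMap.BilinForm.toDual ω hωnd).symm.toLinearMap ∘ₗ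
      (LinearMap.lcomp F F S0.subtype) ∘ₗ polarBilin Q, ?_⟩
    intro y x
    exact LinearMap.BilinForm.apply_toDual_symm_apply (hB := hωnd)
      (f := ((LinearMap.lcomp F F S0.subtype) ∘ₗ polarBilin Q) y) x
  have hnJ : ∀ (G : V →ₗ[F] V) (g : S0 →ₗ[K] S0) (hg : ∀ x : S0, ((g x : S0) : V) = G x)
      (hG : ∀ x y, polar Q (G x) y = polar Q x (τ • y - G y))
      (hg2 : ∀ x, g (g x) = (algebraMap F K τ) • g x - (algebraMap F K ν) • x)
      (hgn : ¬ ∃ c : K, ∀ x, g x = c • x) (y : V), n (G y) = g (n y) := by
    intro G g hg hG hg2 hgn y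
    rw [← sub_eq_zero]
    apply hsep
    intro x
    rw [map_sub, LinearMap.sub_apply, hn, hG]
    have h1 : ω (g (n y)) x = ω (n y) (τ • x - g x) := by
      rw [hω, hω, detForm_adj b g hg2 hgn, algebraMap_smul]
    rw [h1, hn]
    simp [hg]
  refine ⟨S0.subtype ∘ₗ n, ?_, ?_, ?_, ?_, ?_⟩
  · intro h0
    have h1 : ∀ y, n y = 0 := by
      intro y
      have := LinearMap.congr_fun h0 y
      simpa using this
    -- then `S0` is orthogonal to everything
    have h2 : ∀ x : S0, x = 0 := by
      intro x
      by_contra hx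
      have hx' : (x : V) ≠ 0 := by
        intro h
        exact hx (Subtype.ext h)
      obtain ⟨y, hy⟩ := exists_polar_ne_zero hnd hx'
      apply hy
      rw [polar_comm, ← hn, h1]
      simp
    have h3 : Subsingleton S0 := ⟨fun a b => by rw [h2 a, h2 b]⟩
    have := finrank_zero_of_subsingleton (R := K) (M := S0)
    omega
  · intro x
    exact (n x).2
  · intro x
    rw [LinearMap.comp_apply, Submodule.subtype_apply, polar_comm, ← hn, hω0]
  · intro x
    change ((n (JV x) : S0) : V) = JV ((n x : S0) : V)
    rw [hnJ JV J hJ hJV hJ2 hns, hJ]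
  · intro x
    change ((n (J'V x) : S0) : V) = J'V ((n x : S0) : V)
    rw [hnJ J'V J' hJ' hJ'V hJ'2 hns', hJ']

end skew

section product

variable {F V : Type*} [Field F] [AddCommGroup V] [Module F V] [FiniteDimensional F V]

/-- A skew map with totally singular image gives a product of Siegel transformations. -/
lemma exists_prod (Q : QuadraticForm F V) (hnd : (polarBilin Q).Nondegenerate)
    (K : Subgroup (orth Q))
    (hK : ∀ (u v : V) (hu : Q u = 0) (huv : polar Q u v = 0), eich Q u v hu huv ∈ K)
    (S0 : Submodule F V) (hS0 : ∀ x ∈ S0, Q x = 0) :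
    ∀ (n : ℕ) (C : V →ₗ[F] V), (∀ x, C x ∈ S0) → (∀ x, polar Q (C x) x = 0) →
      finrank F (LinearMap.range C) ≤ n → ∃ T : orth Q, T ∈ K ∧ ∀ x, T.1 x = x + C x := by
  have hpol : ∀ x ∈ S0, ∀ y ∈ S0, polar Q x y = 0 := by
    intro x hx y hy
    rw [polar, hS0 x hx, hS0 y hy, hS0 _ (S0.add_mem hx hy)]
    simp
  intro n
  induction n with
  | zero =>
    intro C _ _ hn
    have h0 : LinearMap.range C = ⊥ := by
      apply Submodule.finrank_eq_zero.1
      omega
    have hC : C = 0 := LinearMap.range_eq_bot.1 h0
    exact ⟨1, K.one_mem, fun x => by rw [hC]; simp⟩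
  | succ n ih =>
    intro C hCS hCp hn
    by_cases hC : C = 0
    · exact ⟨1, K.one_mem, fun x => by rw [hC]; simp⟩
    obtain ⟨y, hy⟩ : ∃ y, C y ≠ 0 := by
      by_contra hcon
      push Not at hcon
      exact hC (LinearMap.ext hcon)
    have hskew : ∀ a b, polar Q (C a) b = - polar Q (C b) a := by
      intro a b
      have h1 := hCp (a + b)
      rw [map_add, polar_add_left, polar_add_right, polar_add_right, hCp, hCp] at h1
      linear_combination h1
    obtain ⟨y'', hy''⟩ := exists_polar_ne_zero hnd hy
    obtain ⟨y', hy'⟩ : ∃ y', polar Q (C y) y' = 1 :=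
      ⟨(polar Q (C y) y'')⁻¹ • y'', by
        rw [polar_smul_right, smul_eq_mul, inv_mul_cancel₀ hy'']⟩
    set u := C y with hu
    set v := C y' with hv
    have hQu : Q u = 0 := hS0 _ (hCS y)
    have hQv : Q v = 0 := hS0 _ (hCS y')
    have huv : polar Q u v = 0 := hpol _ (hCS y) _ (hCS y')
    have huy : polar Q u y = 0 := hCp y
    have hvy' : polar Q v y' = 0 := hCp y'
    have hvy : polar Q v y = -1 := by
      rw [hv, hskew y' y, ← hu, hy']
    -- the elementary skew map
    let N : V →ₗ[F] V := (polarBilin Q u).smulRight v - (polarBilin Q v).smulRight u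
    have hN : ∀ x, N x = polar Q u x • v - polar Q v x • u := by
      intro x
      simp [N]
    have heich : ∀ x, eichLin Q u v x = x + N x := by
      intro x
      rw [eichLin_apply, hN, hQv, zero_mul, zero_smul, sub_zero, add_sub_assoc]
    have hC1S : ∀ x, (C - N) x ∈ S0 := by
      intro x
      rw [LinearMap.sub_apply, hN]
      exact S0.sub_mem (hCS x) (S0.sub_mem (S0.smul_mem _ (hCS y')) (S0.smul_mem _ (hCS y)))
    have hC1p : ∀ x, polar Q ((C - N) x) x = 0 := by
      intro x
      rw [LinearMap.sub_apply, hN, polar_sub_left, polar_sub_left, polar_smul_left,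
        polar_smul_left, hCp]
      simp only [smul_eq_mul]
      ring
    have hker : LinearMap.ker C < LinearMap.ker (C - N) := by
      rw [SetLike.lt_iff_le_and_exists]
      refine ⟨?_, y, ?_, ?_⟩
      · intro x hx
        rw [LinearMap.mem_ker] at hx ⊢
        have h1 : polar Q u x = 0 := by
          rw [hu, hskew, hx, polar_zero_left, neg_zero]
        have h2 : polar Q v x = 0 := by
          rw [hv, hskew, hx, polar_zero_left, neg_zero]
        rw [LinearMap.sub_apply, hN, hx, h1, h2]
        simp
      · rw [LinearMap.mem_ker, LinearMap.sub_apply, hN, huy, hvy]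
        rw [← hu]
        simp
      · rw [LinearMap.mem_ker]
        exact hy
    have hlt := Submodule.finrank_lt_finrank_of_lt hker
    have e1 := LinearMap.finrank_range_add_finrank_ker C
    have e2 := LinearMap.finrank_range_add_finrank_ker (C - N)
    obtain ⟨T1, hT1, hT1x⟩ := ih (C - N) hC1S hC1p (by omega)
    refine ⟨eich Q u v hQu huv * T1, K.mul_mem (hK _ _ _ _) hT1, fun x => ?_⟩
    rw [orth_mul_apply, eich_apply, hT1x, heich, map_add]
    have h3 : N ((C - N) x) = 0 := by
      rw [hN, hpol u (hCS y) _ (hC1S x), hpol v (hCS y') _ (hC1S x)]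
      simp
    rw [h3, LinearMap.sub_apply]
    abel

end product

end Pool.Agent.H49.UDN
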