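import Pool.Agent.H49.UDN.Fix

set_option autoImplicit false

/-!
The hyperbolic quadratic form: nondegeneracy, number of singular vectors, and absence of
irreducible isometries.
-/

namespace Pool.Agent.H49.UDN

open QuadraticMap Module Polynomial

universe u v

section hyp

/-- The bilinear form `(v, w) ↦ ∑ v.1 i * w.2 i`. -/
def plusBilin (F : Type u) [Field F] (r : ℕ) :
    LinearMap.BilinForm F ((Fin r → F) × (Fin r → F)) :=
  LinearMap.mk₂ F (fun v w => ∑ i, v.1 i * w.2 i)
    (by intro a b c; simp [add_mul, Finset.sum_add_distrib])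
    (by intro a b c; simp [Finset.mul_sum, mul_assoc])
    (by intro a b c; simp [mul_add, Finset.sum_add_distrib])
    (by intro a b c; simp [Finset.mul_sum, mul_left_comm])

/-- The quadratic form of plus type `v ↦ ∑ v.1 i * v.2 i` on a space of dimension `2 * r`. -/
def plusForm (F : Type u) [Field F] (r : ℕ) : QuadraticForm F ((Fin r → F) × (Fin r → F)) :=
  (plusBilin F r).toQuadraticMap

variable {F : Type u} [Field F] {r : ℕ}

lemma plusForm_apply (v : (Fin r → F) × (Fin r → F)) : plusForm F r v = ∑ i, v.1 i * v.2 i := rfl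

lemma plusForm_polar (v w : (Fin r → F) × (Fin r → F)) :
    polar (plusForm F r) v w = ∑ i, (v.1 i * w.2 i + w.1 i * v.2 i) := by
  simp only [polar, plusForm_apply, Prod.fst_add, Prod.snd_add, Pi.add_apply]
  rw [← Finset.sum_sub_distrib, ← Finset.sum_sub_distrib]
  apply Finset.sum_congr rfl
  intro i _
  ring

lemma plusForm_nondegenerate : (polarBilin (plusForm F r)).Nondegenerate := by
  classical
  have h : ∀ v : (Fin r → F) × (Fin r → F), (∀ w, polar (plusForm F r) v w = 0) → v = 0 := by
    intro v hv
    apply Prod.ext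
    · funext i
      have := hv (0, Pi.single i 1)
      rw [plusForm_polar] at this
      simpa [Pi.single_apply] using this
    · funext i
      have := hv (Pi.single i 1, 0)
      rw [plusForm_polar] at this
      simpa [Pi.single_apply] using this
  refine ⟨h, ?_⟩
  intro v hv
  apply h
  intro w
  rw [polar_comm]
  exact hv w

lemma finrank_plus : finrank F ((Fin r → F) × (Fin r → F)) = 2 * r := by
  rw [Module.finrank_prod, Module.finrank_fin_fun]
  ring

variable [Finite F]

lemma card_singular (hr : 1 ≤ r) :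
    Nat.card {v : (Fin r → F) × (Fin r → F) | v ≠ 0 ∧ plusForm F r v = 0} =
      (Nat.card F ^ r - 1) * (Nat.card F ^ (r - 1) + 1) := by
  classical
  set q := Nat.card F with hq
  have hq1 : 1 ≤ q := Nat.card_pos
  -- the functional attached to `x`
  let L : (Fin r → F) → ((Fin r → F) →ₗ[F] F) := fun x =>
    { toFun := fun y => ∑ i, x i * y i
      map_add' := by
        intro a b
        simp [mul_add, Finset.sum_add_distrib]
      map_smul' := by
        intro a b
        simp [Finset.mul_sum, mul_left_comm] }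
  have hL : ∀ x y, L x y = ∑ i, x i * y i := fun x y => rfl
  have hL0 : ∀ x, x ≠ 0 → L x ≠ 0 := by
    intro x hx h
    apply hx
    funext i
    have h1 := LinearMap.congr_fun h (Pi.single i 1)
    rw [hL] at h1
    simpa [Pi.single_apply] using h1
  have hfib : ∀ x, x ≠ 0 → Nat.card {y : Fin r → F // L x y = 0} = q ^ (r - 1) := by
    intro x hx
    have h1 := LinearMap.range_eq_top.2 (LinearMap.surjective (hL0 x hx))
    have h2 := LinearMap.finrank_range_add_finrank_ker (L x)
    rw [h1, finrank_top, finrank_self, Module.finrank_fin_fun] at h2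
    have h3 : Nat.card (LinearMap.ker (L x)) = q ^ finrank F (LinearMap.ker (L x)) :=
      Module.natCard_eq_pow_finrank
    have h4 : finrank F (LinearMap.ker (L x)) = r - 1 := by omega
    rw [h4] at h3
    rw [← h3]
    rfl
  have hfib0 : ∀ x : Fin r → F, x = 0 → Nat.card {y : Fin r → F // L x y = 0 ∧ y ≠ 0} =
      q ^ r - 1 := by
    intro x hx
    have h1 : Nat.card (Fin r → F) = q ^ r := by
      rw [Module.natCard_eq_pow_finrank (K := F), Module.finrank_fin_fun]
    have h2 : Nat.card {y : Fin r → F // L x y = 0 ∧ y ≠ 0} =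
        Nat.card {y : Fin r → F // y ≠ 0} := by
      apply Nat.card_congr
      apply Equiv.subtypeEquivRight
      intro y
      constructor
      · exact fun h => h.2
      · intro h
        refine ⟨?_, h⟩
        rw [hx, hL]
        simp
    rw [h2, ← h1]
    have := Fintype.ofFinite F
    rw [Nat.card_eq_fintype_card, Nat.card_eq_fintype_card, Fintype.card_subtype_compl,
      Fintype.card_subtype_eq]
  -- decompose
  have e1 : Nat.card {v : (Fin r → F) × (Fin r → F) | v ≠ 0 ∧ plusForm F r v = 0} =
      Nat.card ({y : Fin r → F // L 0 y = 0 ∧ y ≠ 0} ⊕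
        (Σ x : {x : Fin r → F // x ≠ 0}, {y : Fin r → F // L x.1 y = 0})) := by
    apply Nat.card_congr
    refine
      { toFun := fun v => if h : v.1.1 = 0 then Sum.inl ⟨v.1.2, by
            constructor
            · rw [hL]
              simp
            · intro h2
              exact v.2.1 (Prod.ext h h2)⟩ else
            Sum.inr ⟨⟨v.1.1, h⟩, ⟨v.1.2, v.2.2⟩⟩
        invFun := fun s => Sum.elim (fun y => ⟨(0, y.1), by
            constructor
            · intro h
              exact y.2.2 (congrArg Prod.snd h)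
            · rw [plusForm_apply]
              simp⟩) (fun s => ⟨(s.1.1, s.2.1), by
            constructor
            · intro h
              exact s.1.2 (congrArg Prod.fst h)
            · exact s.2.2⟩) s
        left_inv := ?_
        right_inv := ?_ }
    · rintro ⟨⟨x, y⟩, hv⟩
      by_cases h : x = 0
      · subst h
        simp
      · simp [h]
    · rintro (⟨y, hy⟩ | ⟨⟨x, hx⟩, ⟨y, hy⟩⟩)
      · simp
      · simp [hx]
  have := Fintype.ofFinite F
  rw [e1, Nat.card_sum, hfib0 0 rfl, Nat.card_sigma]
  have e2 : ∀ x : {x : Fin r → F // x ≠ 0}, Nat.card {y : Fin r → F // L x.1 y = 0} =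
      q ^ (r - 1) := fun x => hfib x.1 x.2
  rw [Finset.sum_congr rfl (fun x _ => e2 x), Finset.sum_const, Finset.card_univ,
    Fintype.card_subtype_compl, Fintype.card_subtype_eq, smul_eq_mul]
  have e3 : Fintype.card (Fin r → F) = q ^ r := by
    rw [← Nat.card_eq_fintype_card, Module.natCard_eq_pow_finrank (K := F),
      Module.finrank_fin_fun]
  rw [e3]
  ring

/-- There is no irreducible isometry of the hyperbolic form in dimension at least four. -/
lemma not_irr_plus (hr : 2 ≤ r) (t : orth (plusForm F r))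
    (hirr : IrrOp (t.1 : ((Fin r → F) × (Fin r → F)) →ₗ[F] ((Fin r → F) × (Fin r → F)))) :
    False := by
  classical
  obtain ⟨K, _, _, _, _, _, σ, hadj, h2, h1, hcomm, hfr, hfr1⟩ :=
    irr_structure (plusForm F r) plusForm_nondegenerate t hirr (by rw [finrank_plus]; omega)
  let C : Subgroup Kˣ :=
    { carrier := {c | (c : K) * σ c = 1}
      mul_mem' := by
        intro a b ha hb
        change ((a * b : Kˣ) : K) * σ ((a * b : Kˣ) : K) = 1
        have ha' : (a : K) * σ a = 1 := ha
        have hb' : (b : K) * σ b = 1 := hb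
        rw [Units.val_mul, map_mul]
        linear_combination ((b : K) * σ b) * ha' + hb'
      one_mem' := by
        change ((1 : Kˣ) : K) * σ ((1 : Kˣ) : K) = 1
        simp
      inv_mem' := by
        intro a ha
        change ((a⁻¹ : Kˣ) : K) * σ ((a⁻¹ : Kˣ) : K) = 1
        have ha' : (a : K) * σ a = 1 := ha
        have e1 : (a : K) * ((a⁻¹ : Kˣ) : K) = 1 := a.mul_inv
        have e2 : σ (a : K) * σ ((a⁻¹ : Kˣ) : K) = 1 := by rw [← map_mul, e1, map_one]
        linear_combination (-((a⁻¹ : Kˣ) : K) * σ ((a⁻¹ : Kˣ) : K)) * ha'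
          + (σ (a : K) * σ ((a⁻¹ : Kˣ) : K)) * e1 + e2 }
  have hC : ∀ c : Kˣ, c ∈ C ↔ (c : K) * σ c = 1 := fun c => Iff.rfl
  have d1 := card_norm_one σ h2 h1 r (by rw [hfr, finrank_plus]) C hC
  have hsing : ∀ c ∈ C, ∀ x, plusForm F r ((c : K) • x) = plusForm F r x := by
    intro c hc x
    rw [hC] at hc
    have := semilinear_eq_zero (fun x => plusForm F r ((c : K) • x) - plusForm F r x)
      (by
        intro x y
        rw [smul_add, Qadd, Qadd, hadj, smul_smul, mul_comm (σ (c : K)), hc, one_smul]
        ring)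
      (by
        intro a x
        rw [smul_comm, Qsmul, Qsmul]
        ring) (t.1 : _ →ₗ[F] _)
      (by
        intro x
        change plusForm F r ((c : K) • t.1 x) - plusForm F r (t.1 x) = _
        rw [← hcomm, t.2, t.2]) hirr (by rw [finrank_plus]; omega) x
    exact sub_eq_zero.1 this
  have d2 := card_dvd_of_stable hfr1 C
    {v : (Fin r → F) × (Fin r → F) | v ≠ 0 ∧ plusForm F r v = 0} (fun h => h.1 rfl) (by
      intro c hc x hx
      refine ⟨?_, ?_⟩
      · intro h
        exact hx.1 ((smul_eq_zero.1 h).resolve_left c.ne_zero)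
      · rw [hsing c hc]
        exact hx.2)
  rw [card_singular (by omega)] at d2
  have d3 := d1.trans d2
  set q := Nat.card F with hq
  have hq2 : 2 ≤ q := by
    have : Nontrivial F := inferInstance
    exact Finite.one_lt_card
  obtain ⟨s, rfl⟩ : ∃ s, r = s + 1 := ⟨r - 1, by omega⟩
  rw [Nat.add_sub_cancel] at d3
  have hpow : 1 ≤ q ^ (s + 1) := Nat.one_le_pow _ _ (by omega)
  have d4 : ((q : ℤ) ^ (s + 1) + 1) ∣ ((q : ℤ) ^ (s + 1) - 1) * ((q : ℤ) ^ s + 1) := by
    have := Int.natCast_dvd_natCast.2 d3
    push_cast [Nat.cast_sub hpow] at this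
    exact this
  have d5 : ((q : ℤ) ^ (s + 1) + 1) ∣ 2 * ((q : ℤ) - 1) := by
    obtain ⟨e, he⟩ := d4
    refine ⟨(q : ℤ) * ((q : ℤ) ^ s + 1) - q * e - 2, ?_⟩
    have hpow' : (q : ℤ) ^ (s + 1) = q ^ s * q := pow_succ _ _
    linear_combination (-(q : ℤ)) * he - (2 : ℤ) * hpow'
  have hq2' : (2 : ℤ) ≤ q := by exact_mod_cast hq2
  have d6 := Int.le_of_dvd (by linarith) d5
  have d7 : (q : ℤ) ^ 2 ≤ q ^ (s + 1) := pow_le_pow_right₀ (by linarith) (by omega)
  nlinarith [d6, d7, hq2']

end hyp

end Pool.Agent.H49.UDN
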