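import Pool.Agent.H49.UDN.TStep

set_option autoImplicit false

/-!
Irreducible isometries of nondegenerate quadratic spaces over finite fields.
-/

namespace Pool.Agent.H49.UDN

open QuadraticMap Module Polynomial

universe u v

section irr

variable {F : Type u} {U : Type v} [Field F] [Finite F] [AddCommGroup U] [Module F U]
  [FiniteDimensional F U]

/-- `t` has no invariant subspaces besides the two trivial ones. -/
def IrrOp (t : U →ₗ[F] U) : Prop :=
  ∀ P : Submodule F U, (∀ x ∈ P, t x ∈ P) → P = ⊥ ∨ P = ⊤

omit [FiniteDimensional F U] in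
lemma semilinear_eq_zero (f : U → F) (hadd : ∀ x y, f (x + y) = f x + f y)
    (hsmul : ∀ (a : F) (x : U), f (a • x) = a * a * f x) (t : U →ₗ[F] U)
    (ht : ∀ x, f (t x) = f x) (hirr : IrrOp t) (hdim : 2 ≤ finrank F U) (x : U) : f x = 0 := by
  let P : Submodule F U :=
    { carrier := {x | f x = 0}
      add_mem' := by
        intro a b ha hb
        change f (a + b) = 0
        rw [hadd, show f a = 0 from ha, show f b = 0 from hb, add_zero]
      zero_mem' := by
        change f 0 = 0
        have := hsmul 0 0
        rw [zero_smul] at this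
        rw [this]
        ring
      smul_mem' := by
        intro c y hy
        change f (c • y) = 0
        rw [hsmul, show f y = 0 from hy, mul_zero] }
  have hP : ∀ x, x ∈ P ↔ f x = 0 := fun x => Iff.rfl
  rcases hirr P (by
    intro y hy
    rw [hP] at hy ⊢
    rw [ht, hy]) with h | h
  · exfalso
    have hinj : ∀ y, f y = 0 → y = 0 := by
      intro y hy
      have : y ∈ P := hy
      rw [h] at this
      simpa using this
    obtain ⟨b, hb⟩ := exists_linearIndependent_of_le_finrank (R := F) (M := U) hdim
    have h0 : b 0 ≠ 0 := hb.ne_zero 0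
    have hf0 : f (b 0) ≠ 0 := fun h => h0 (hinj _ h)
    have h2 : (2 : F) = 0 := by
      have e1 : f (b 0 + b 0) = f (b 0) + f (b 0) := hadd _ _
      have e2 : f ((2 : F) • b 0) = 2 * 2 * f (b 0) := hsmul _ _
      rw [two_smul, e1] at e2
      have e3 : (2 : F) * f (b 0) = 0 := by linear_combination -e2
      exact (mul_eq_zero.1 e3).resolve_right hf0
    have hchar : ringChar F = 2 := by
      have hd : ringChar F ∣ 2 := by
        rw [← ringChar.spec]
        exact_mod_cast h2
      have hp : (ringChar F).Prime := CharP.char_is_prime F (ringChar F)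
      exact (Nat.prime_dvd_prime_iff_eq hp Nat.prime_two).1 hd
    obtain ⟨c, hc⟩ := FiniteField.isSquare_of_char_two hchar (f (b 1) / f (b 0))
    have h3 : f (c • b 0 + b 1) = 0 := by
      rw [hadd, hsmul, ← hc, div_mul_cancel₀ _ hf0]
      linear_combination (f (b 1)) * h2
    have h4 := hinj _ h3
    have h5 := (LinearIndependent.pair_iff.1 (by
      have := hb
      have e : b = ![b 0, b 1] := by
        ext i
        fin_cases i <;> rfl
      rw [e] at this
      exact this)) c 1 (by rw [one_smul]; exact h4)
    exact one_ne_zero h5.2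
  · have : x ∈ P := by
      rw [h]
      trivial
    exact this

/-- Structure of an irreducible isometry. -/
theorem irr_structure (Q : QuadraticForm F U) (hnd : (polarBilin Q).Nondegenerate) (t : orth Q)
    (hirr : IrrOp (t.1 : U →ₗ[F] U)) (hdim : 2 ≤ finrank F U) :
    ∃ (K : Type u) (_ : Field K) (_ : Finite K) (_ : Algebra F K) (_ : Module K U)
      (_ : IsScalarTower F K U) (σ : K ≃ₐ[F] K),
      (∀ (κ : K) (x y : U), polar Q (κ • x) y = polar Q x (σ κ • y)) ∧
      (∀ κ, σ (σ κ) = κ) ∧ σ ≠ 1 ∧ (∀ (κ : K) (x : U), t.1 (κ • x) = κ • t.1 x) ∧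
      finrank F K = finrank F U ∧ finrank K U = 1 := by
  classical
  set z : Module.End F U := (t.1 : U →ₗ[F] U) with hz
  have hza : ∀ x, z x = t.1 x := fun x => rfl
  have hne : ∃ x : U, x ≠ 0 := by
    by_contra hcon
    push Not at hcon
    have : Subsingleton U := ⟨fun a b => by rw [hcon a, hcon b]⟩
    have := finrank_zero_of_subsingleton (R := F) (M := U)
    omega
  have hzp : ∀ (p : F[X]) (x : U), aeval z p (z x) = z (aeval z p x) := by
    intro p x
    have h1 : (aeval z p) * z = z * (aeval z p) := by
      induction p using Polynomial.induction_on' with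
      | add p q hp hq => rw [map_add, add_mul, mul_add, hp, hq]
      | monomial n a =>
        rw [aeval_monomial, mul_assoc, ← pow_succ, pow_succ', ← mul_assoc, ← mul_assoc,
          (Algebra.commutes a z)]
    exact LinearMap.congr_fun h1 x
  have hinj : ∀ p : F[X], aeval z p ≠ 0 → ∀ x : U, aeval z p x = 0 → x = 0 := by
    intro p hp x hx
    rcases hirr (LinearMap.ker (aeval z p)) (by
      intro y hy
      rw [LinearMap.mem_ker] at hy ⊢
      have := hzp p y
      rw [hy, map_zero] at this
      exact this) with h | h
    · have : x ∈ LinearMap.ker (aeval z p) := hx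
      rw [h] at this
      simpa using this
    · exact absurd (LinearMap.ker_eq_top.1 h) hp
  obtain ⟨K, _, _, _, _, _, hK1, hK2⟩ := exists_field z hne hinj
  have hfdK : FiniteDimensional F K := Module.Finite.of_finite (R := F) (M := K)
  have hfdU : FiniteDimensional K U := Module.Finite.of_restrictScalars_finite F K U
  obtain ⟨θ, hθ⟩ := hK2 Polynomial.X
  have hθ' : ∀ x : U, θ • x = z x := by
    intro x
    rw [hθ, aeval_X]
  obtain ⟨x0, hx0⟩ := hne
  have hcancel : ∀ a b : K, (∀ x : U, a • x = b • x) → a = b := by
    intro a b h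
    have h1 := h x0
    rw [← sub_eq_zero, ← sub_smul] at h1
    exact sub_eq_zero.1 ((smul_eq_zero.1 h1).resolve_right hx0)
  have hθ0 : θ ≠ 0 := by
    intro h
    have h1 := hθ' x0
    rw [h, zero_smul] at h1
    apply hx0
    have : t.1 x0 = t.1 0 := by rw [map_zero]; exact h1.symm
    exact t.1.injective this
  have hθadj : ∀ x y, polar Q (θ • x) y = polar Q x (θ⁻¹ • y) := by
    intro x y
    have h1 : y = θ • θ⁻¹ • y := by
      rw [smul_smul, mul_inv_cancel₀ hθ0, one_smul]
    conv_lhs => rw [h1]
    rw [hθ', hθ']
    exact orth_polar t _ _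
  -- the adjoint
  have hadj : ∀ κ : K, ∃ κ' : K, ∀ x y, polar Q (κ • x) y = polar Q x (κ' • y) := by
    intro κ
    obtain ⟨p, hp⟩ := hK1 κ
    have hmain : ∀ p : F[X], ∃ κ' : K, ∀ x y, polar Q (aeval z p x) y = polar Q x (κ' • y) := by
      intro p
      induction p using Polynomial.induction_on' with
      | add p q hp hq =>
        obtain ⟨a, ha⟩ := hp
        obtain ⟨b, hb⟩ := hq
        refine ⟨a + b, ?_⟩
        intro x y
        rw [map_add, LinearMap.add_apply, polar_add_left, ha, hb, add_smul, polar_add_right]
      | monomial n a =>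
        refine ⟨algebraMap F K a * θ⁻¹ ^ n, ?_⟩
        intro x y
        rw [aeval_monomial, Module.End.mul_apply, Module.algebraMap_end_apply, polar_smul_left,
          mul_smul, algebraMap_smul, polar_smul_right]
        congr 1
        induction n generalizing x y with
        | zero => simp
        | succ n ih =>
          rw [pow_succ, Module.End.mul_apply, ih, ← hθ', hθadj, smul_smul, ← pow_succ']
    obtain ⟨κ', hκ'⟩ := hmain p
    refine ⟨κ', ?_⟩
    intro x y
    rw [hp, hκ']
  choose s hs using hadj
  have huniq : ∀ a b : K, (∀ x y, polar Q x (a • y) = polar Q x (b • y)) → a = b := by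
    intro a b h
    apply hcancel
    intro y
    by_contra hne
    have h1 : a • y - b • y ≠ 0 := sub_ne_zero.2 hne
    obtain ⟨w, hw⟩ := exists_polar_ne_zero hnd h1
    apply hw
    rw [polar_comm, polar_sub_right, h, sub_self]
  have hs1 : s 1 = 1 := by
    apply huniq
    intro x y
    rw [← hs, one_smul, one_smul]
  have hsmul : ∀ a b, s (a * b) = s a * s b := by
    intro a b
    apply huniq
    intro x y
    rw [← hs, mul_comm a b, mul_smul, hs, hs, mul_smul]
  have hsadd : ∀ a b, s (a + b) = s a + s b := by
    intro a b
    apply huniq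
    intro x y
    rw [← hs, add_smul, polar_add_left, hs, hs, add_smul, polar_add_right]
  have hs0 : s 0 = 0 := by
    apply huniq
    intro x y
    rw [← hs, zero_smul, zero_smul, polar_zero_left, polar_zero_right]
  have hsF : ∀ a : F, s (algebraMap F K a) = algebraMap F K a := by
    intro a
    apply huniq
    intro x y
    rw [← hs, algebraMap_smul, algebraMap_smul, polar_smul_left, polar_smul_right]
  have hss : ∀ κ, s (s κ) = κ := by
    intro κ
    apply huniq
    intro x y
    rw [← hs, polar_comm, ← hs, polar_comm]
  let σ₀ : K →ₐ[F] K :=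
    { toFun := s
      map_one' := hs1
      map_mul' := hsmul
      map_zero' := hs0
      map_add' := hsadd
      commutes' := hsF }
  let σ : K ≃ₐ[F] K := AlgEquiv.ofAlgHom σ₀ σ₀ (by ext x; exact hss x) (by ext x; exact hss x)
  have hσ : ∀ κ, σ κ = s κ := fun κ => rfl
  have hfr1 : finrank K U = 1 := by
    rw [finrank_eq_one_iff']
    refine ⟨x0, hx0, ?_⟩
    intro w
    rcases hirr ((Submodule.span K {x0}).restrictScalars F) (by
      intro y hy
      rw [Submodule.restrictScalars_mem] at hy ⊢
      have : (t.1 : U →ₗ[F] U) y = θ • y := (hθ' y).symm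
      rw [this]
      exact Submodule.smul_mem _ _ hy) with h | h
    · exfalso
      rw [Submodule.restrictScalars_eq_bot_iff, Submodule.span_singleton_eq_bot] at h
      exact hx0 h
    · rw [Submodule.restrictScalars_eq_top_iff] at h
      have : w ∈ Submodule.span K {x0} := by
        rw [h]
        trivial
      rw [Submodule.mem_span_singleton] at this
      exact this
  have hfr2 : finrank F K = finrank F U := by
    rw [← Module.finrank_mul_finrank F K U, hfr1, mul_one]
  refine ⟨K, inferInstance, inferInstance, inferInstance, inferInstance, inferInstance, σ,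
    ?_, ?_, ?_, ?_, hfr2, hfr1⟩
  · intro κ x y
    exact hs κ x y
  · intro κ
    exact hss κ
  · intro h1
    have h2 : s θ = θ := by
      rw [← hσ, h1]
      rfl
    have h3 : s θ = θ⁻¹ := by
      apply huniq
      intro x y
      rw [← hs, hθadj]
    rw [h2] at h3
    have h4 : θ * θ = 1 := by
      nth_rewrite 2 [h3]
      exact mul_inv_cancel₀ hθ0
    obtain ⟨c, hc⟩ : ∃ c : F, θ = algebraMap F K c := by
      rcases mul_self_eq_one_iff.1 h4 with h | h
      · exact ⟨1, by rw [h, map_one]⟩
      · exact ⟨-1, by rw [h, map_neg, map_one]⟩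
    rcases hirr (Submodule.span F {x0}) (by
      intro y hy
      have : (t.1 : U →ₗ[F] U) y = c • y := by
        have := hθ' y
        rw [hc, algebraMap_smul] at this
        exact this.symm
      rw [this]
      exact Submodule.smul_mem _ _ hy) with h | h
    · rw [Submodule.span_singleton_eq_bot] at h
      exact hx0 h
    · have h5 := finrank_span_singleton_le (F := F) x0
      rw [h, finrank_top] at h5
      omega
  · intro κ x
    obtain ⟨p, hp⟩ := hK1 κ
    rw [hp, hp]
    exact (hzp p x).symm

end irr

end Pool.Agent.H49.UDN
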