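import Pool.Agent.H49.UDN.Cases

set_option autoImplicit false

/-!
Two conjugates always have a common nontrivial companion.
-/

namespace Pool.Agent.H49.UDN

open QuadraticMap Module Polynomial

universe u v

section main

variable {F : Type u} {V : Type v} [Field F] [Finite F] [AddCommGroup V] [Module F V]
  [FiniteDimensional F V] {Q : QuadraticForm F V}

/-- `T` does not commute with all Siegel transformations. -/
def NonCent (Q : QuadraticForm F V) (T : orth Q) : Prop :=
  ∃ (u v : V) (hu : Q u = 0) (huv : polar Q u v = 0),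
    T * eich Q u v hu huv ≠ eich Q u v hu huv * T

/-- All Siegel transformations belong to `H`. -/
def AllEich (Q : QuadraticForm F V) (H : Subgroup (orth Q)) : Prop :=
  ∀ (u v : V) (hu : Q u = 0) (huv : polar Q u v = 0), eich Q u v hu huv ∈ H

/-- The two elements lie in proper subgroups that share a noncentral element. -/
def Linked (Q : QuadraticForm F V) (K : Subgroup (orth Q)) (s s' : orth Q) : Prop :=
  ∃ (T : orth Q) (H H' : Subgroup (orth Q)), T ∈ K ∧ NonCent Q T ∧ T ∈ H ∧ T ∈ H' ∧ s ∈ H ∧
    s' ∈ H' ∧ ¬ AllEich Q H ∧ ¬ AllEich Q H'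

lemma nonCent_of_unip (hnd : (polarBilin Q).Nondegenerate) (hdim : 7 ≤ finrank F V) (T : orth Q)
    (N : V →ₗ[F] V) (hTN : ∀ x, T.1 x = x + N x) (hN : N ≠ 0) (hun : ∀ x, N (N (N x)) = 0) :
    NonCent Q T := by
  obtain ⟨u, v, hu, huv, x, hx⟩ :=
    exists_not_commute hnd hdim (T.1 : V →ₗ[F] V) N hTN hN hun
  refine ⟨u, v, hu, huv, ?_⟩
  intro h
  apply hx
  exact congrArg (fun g : orth Q => g.1 x) h

lemma not_allEich_stab (hnd : (polarBilin Q).Nondegenerate) (hdim : 7 ≤ finrank F V)
    (W : Submodule F V) (h0 : W ≠ ⊥) (h1 : W ≠ ⊤) : ¬ AllEich Q (stab Q W) := by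
  intro h
  apply h1
  apply eich_irred hnd hdim W h0
  intro u v hu huv w hw
  exact (mem_stab.1 (h u v hu huv) w).2 hw

lemma not_allEich_cent (hnd : (polarBilin Q).Nondegenerate) (hdim : 7 ≤ finrank F V)
    {τ ν : F} {J : V →ₗ[F] V} (hJ : UnitaryLike Q τ ν J)
    (hirr : ∀ c : F, c ^ 2 - τ * c + ν ≠ 0) : ¬ AllEich Q (cent Q J) := by
  intro h
  obtain ⟨a, _, ha0, ha⟩ := exists_singular Q (⊤ : Submodule F V) (by rw [finrank_top]; omega)
  obtain ⟨c, hc⟩ := eigen_of_commute hnd hdim J (by
    intro u v hu huv x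
    exact (mem_cent.1 (h u v hu huv) x).symm) a ha
  exact ha0 (hJ.no_eigen hirr hc)

/-- A Siegel transformation with independent entries is noncentral. -/
lemma nonCent_eich (hnd : (polarBilin Q).Nondegenerate) (hdim : 7 ≤ finrank F V) (u v : V)
    (hu : Q u = 0) (huv : polar Q u v = 0) (hu0 : u ≠ 0) (hv : v ∉ Submodule.span F {u}) :
    NonCent Q (eich Q u v hu huv) := by
  have huu : polar Q u u = 0 := by rw [polar_self', hu, mul_zero]
  have hvu : polar Q v u = 0 := by rw [polar_comm]; exact huv
  let N : V →ₗ[F] V := (polarBilin Q u).smulRight v - (polarBilin Q v).smulRight u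
    - (Q v) • (polarBilin Q u).smulRight u
  have hN : ∀ x, N x = polar Q u x • v - polar Q v x • u - (Q v * polar Q u x) • u := by
    intro x
    simp [N, mul_smul]
  apply nonCent_of_unip hnd hdim _ N
  · intro x
    rw [eich_apply, eichLin_apply, hN]
    abel
  · intro h
    obtain ⟨x, hx⟩ := exists_polar_ne_zero hnd hu0
    apply hv
    have h1 : N x = 0 := by rw [h]; rfl
    rw [hN] at h1
    rw [Submodule.mem_span_singleton]
    refine ⟨(polar Q u x)⁻¹ * (polar Q v x + Q v * polar Q u x), ?_⟩
    have h2 : polar Q u x • v = (polar Q v x + Q v * polar Q u x) • u := by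
      have h3 : polar Q u x • v - (polar Q v x + Q v * polar Q u x) • u = 0 := by
        rw [← h1]
        module
      exact sub_eq_zero.1 h3
    rw [mul_smul, ← h2, smul_smul, inv_mul_cancel₀ hx, one_smul]
  · intro x
    simp only [hN, polar_sub_right, polar_smul_right, huu, hvu, huv, smul_zero, sub_zero,
      zero_smul, mul_zero, sub_self, polar_zero_right]

theorem linked (hnd : (polarBilin Q).Nondegenerate) (m : ℕ) (hm : m % 4 = 2) (hm6 : 6 ≤ m)
    (hfin : finrank F V = 2 * m) (hnoirr : ∀ t : orth Q, ¬ IrrOp (t.1 : V →ₗ[F] V))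
    (K : Subgroup (orth Q)) (hK : AllEich Q K) (s g : orth Q) :
    Linked Q K s (g * s * g⁻¹) := by
  have hdim : 7 ≤ finrank F V := by omega
  -- a minimal invariant subspace
  obtain ⟨W, ⟨hW0, hWs⟩, hWmin⟩ :
      ∃ W : Submodule F V, (W ≠ ⊥ ∧ (∀ x ∈ W, s.1 x ∈ W)) ∧
        ∀ P : Submodule F V, (P ≠ ⊥ ∧ (∀ x ∈ P, s.1 x ∈ P)) → finrank F W ≤ finrank F P := by
    let 𝒜 : Set (Submodule F V) := {P | P ≠ ⊥ ∧ (∀ x ∈ P, s.1 x ∈ P)}
    have hne : 𝒜.Nonempty := ⟨⊤, by
      refine ⟨?_, fun x _ => trivial⟩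
      intro h0
      have := congrArg (fun P : Submodule F V => finrank F P) h0
      simp only [finrank_top, finrank_bot] at this
      omega⟩
    obtain ⟨S, hS, hmin⟩ := (measure (fun P : Submodule F V => finrank F P)).wf.has_min 𝒜 hne
    exact ⟨S, hS, fun P hP => not_lt.1 (hmin P hP)⟩
  have hWirr : ∀ P : Submodule F V, P ≤ W → (∀ x ∈ P, s.1 x ∈ P) → P = ⊥ ∨ P = W := by
    intro P hPW h1
    by_cases hP : P = ⊥
    · exact Or.inl hP
    · right
      exact Submodule.eq_of_le_of_finrank_le hPW (hWmin P ⟨hP, h1⟩)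
  -- the translate
  set W' : Submodule F V := W.map (g.1 : V →ₗ[F] V) with hW'
  have mW' : ∀ x, x ∈ W' ↔ (g⁻¹).1 x ∈ W := by
    intro x
    constructor
    · rintro ⟨y, hy, rfl⟩
      have : (g⁻¹).1 ((g.1 : V →ₗ[F] V) y) = y := orth_inv_apply_self g y
      rw [this]
      exact hy
    · intro h
      exact ⟨_, h, orth_apply_inv_self g x⟩
  have hW's : ∀ x ∈ W', (g * s * g⁻¹).1 x ∈ W' := by
    intro x hx
    rw [mW'] at hx ⊢
    rw [orth_mul_apply, orth_mul_apply, orth_inv_apply_self]
    exact hWs _ hx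
  have hfrW' : finrank F W' = finrank F W := LinearEquiv.finrank_map_eq g.1 W
  have hW'0 : W' ≠ ⊥ := by
    intro h
    rw [h, finrank_bot] at hfrW'
    exact hW0 (Submodule.finrank_eq_zero.1 hfrW'.symm)
  have hperps : ∀ x ∈ perp Q W, s.1 x ∈ perp Q W := by
    intro x hx
    rw [mem_perp] at hx ⊢
    intro w hw
    have h1 : (s⁻¹).1 w ∈ W := by
      have h2 : s⁻¹ ∈ stab Q W := (stab Q W).inv_mem (mem_stab_of hWs)
      exact (mem_stab.1 h2 w).2 hw
    have h3 := hx _ h1
    rw [← orth_polar s, orth_apply_inv_self] at h3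
    exact h3
  have topcase : ∀ P : Submodule F V, finrank F P < 2 * m → P ≠ ⊤ := by
    intro P hP h
    rw [h, finrank_top] at hP
    omega
  by_cases hA : finrank F W ≤ m - 2
  · -- small invariant subspace
    have hsup : finrank F ↥(W ⊔ W') ≤ finrank F W + finrank F W' := by
      have := Submodule.finrank_sup_add_finrank_inf_eq W W'
      omega
    have hY := finrank_perp hnd (W ⊔ W')
    have hY4 : 4 ≤ finrank F (perp Q (W ⊔ W')) := by omega
    obtain ⟨u, huY, hu0, hu⟩ := exists_singular Q (perp Q (W ⊔ W')) (by omega)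
    have hsup2 : finrank F ↥((W ⊔ W') ⊔ Submodule.span F {u}) ≤
        finrank F ↥(W ⊔ W') + finrank F (Submodule.span F {u}) := by
      have := Submodule.finrank_sup_add_finrank_inf_eq (W ⊔ W') (Submodule.span F {u})
      omega
    have hsu := finrank_span_singleton_le (F := F) u
    have hY' := finrank_perp hnd ((W ⊔ W') ⊔ Submodule.span F {u})
    obtain ⟨v, hv, hvu⟩ : ∃ v ∈ perp Q ((W ⊔ W') ⊔ Submodule.span F {u}),
        v ∉ Submodule.span F {u} := by
      by_contra hcon
      push Not at hcon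
      have : finrank F (perp Q ((W ⊔ W') ⊔ Submodule.span F {u})) ≤
          finrank F (Submodule.span F {u}) := Submodule.finrank_mono hcon
      omega
    rw [mem_perp] at hv huY
    have huv : polar Q u v = 0 :=
      hv u (Submodule.mem_sup_right (Submodule.mem_span_singleton_self u))
    have hfix : ∀ x ∈ W ⊔ W', eichLin Q u v x = x := by
      intro x hx
      have e1 : polar Q u x = 0 := by rw [polar_comm]; exact huY x hx
      have e2 : polar Q v x = 0 := by
        rw [polar_comm]
        exact hv x (Submodule.mem_sup_left hx)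
      rw [eichLin_apply, e1, e2]
      simp
    refine ⟨eich Q u v hu huv, stab Q W, stab Q W', hK _ _ _ _,
      nonCent_eich hnd hdim u v hu huv hu0 hvu, ?_, ?_, mem_stab_of hWs, mem_stab_of hW's,
      not_allEich_stab hnd hdim W hW0 (topcase W (by omega)),
      not_allEich_stab hnd hdim W' hW'0 (topcase W' (by omega))⟩
    · apply mem_stab_of
      intro x hx
      rw [eich_apply, hfix x (Submodule.mem_sup_left hx)]
      exact hx
    · apply mem_stab_of
      intro x hx
      rw [eich_apply, hfix x (Submodule.mem_sup_right hx)]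
      exact hx
  -- large minimal subspace
  have hWirr' := irrOp_restr s W hWs hWirr
  rcases hWirr (W ⊓ perp Q W) inf_le_left (fun x hx => ⟨hWs x hx.1, hperps x hx.2⟩) with hrad | hrad
  · -- nondegenerate
    have hc : IsCompl W (perp Q W) := by
      refine ⟨disjoint_iff.2 hrad, ?_⟩
      rw [codisjoint_iff]
      apply Submodule.eq_top_of_finrank_eq
      have h1 := Submodule.finrank_sup_add_finrank_inf_eq W (perp Q W)
      have h2 := finrank_perp hnd W
      have h3 := Submodule.finrank_le W
      rw [hrad, finrank_bot] at h1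
      omega
    have hfr2 := finrank_perp hnd W
    have hle := Submodule.finrank_le W
    by_cases htop : W = ⊤
    · exfalso
      apply hnoirr s
      intro P hP
      rcases hWirr P (by rw [htop]; exact le_top) hP with h | h
      · exact Or.inl h
      · exact Or.inr (h.trans htop)
    have hlt : finrank F W < finrank F V := Submodule.finrank_lt htop
    have hPne : perp Q W ≠ ⊥ := by
      intro h
      rw [h, finrank_bot] at hfr2
      omega
    have hkm : finrank F W ≤ finrank F (perp Q W) := hWmin _ ⟨hPne, hperps⟩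
    -- parity
    have hndW := restrict_nd hrad
    have hWeven : Even (finrank F W) := by
      obtain ⟨K', _, _, _, _, _, σ, hadj, h2, h1, hcomm, hfr, hfr1⟩ :=
        irr_structure (Q.comp W.subtype) hndW (restrOrth s W hWs) hWirr' (by omega)
      rw [← hfr]
      exact even_finrank σ h2 h1
    have hk : finrank F W = m := by
      rcases hWeven with ⟨a, ha⟩
      omega
    have hPfr : finrank F (perp Q W) = m := by omega
    have hPirr : ∀ P : Submodule F V, P ≤ perp Q W → (∀ x ∈ P, s.1 x ∈ P) →
        P = ⊥ ∨ P = perp Q W := by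
      intro P hPW h1
      by_cases hP : P = ⊥
      · exact Or.inl hP
      · right
        apply Submodule.eq_of_le_of_finrank_le hPW
        have := hWmin P ⟨hP, h1⟩
        omega
    have hPirr' := irrOp_restr s (perp Q W) hperps hPirr
    have hndP : (polarBilin (Q.comp (perp Q W).subtype)).Nondegenerate := by
      apply restrict_nd
      rw [perp_perp hnd, inf_comm]
      exact hrad
    obtain ⟨τ, ν, hτν, hΔ⟩ := exists_tau_nu F
    obtain ⟨J₁, hJ₁, hc₁⟩ := unitary_of_irr hndW (restrOrth s W hWs) hWirr' (by omega) hτν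
    obtain ⟨J₂, hJ₂, hc₂⟩ := unitary_of_irr hndP (restrOrth s (perp Q W) hperps) hPirr'
      (by omega) hτν
    obtain ⟨J, hJ, hJs⟩ := unitary_glue s W hWs hperps hc J₁ J₂ hJ₁ hJ₂ hc₁ hc₂
    have hJ' := hJ.conj g
    set J' : V →ₗ[F] V := (g.1 : V →ₗ[F] V) ∘ₗ J ∘ₗ ((g⁻¹).1 : V →ₗ[F] V) with hJ'def
    have hJ'a : ∀ x, J' x = g.1 (J ((g⁻¹).1 x)) := fun x => rfl
    obtain ⟨T, C, hTK, hTC, hC0, hCC, hCJ, hCJ'⟩ := tstep hnd (by omega) K hK hτν hΔ hJ hJ'
    refine ⟨T, cent Q J, cent Q J', hTK, ?_, ?_, ?_, hJs, ?_,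
      not_allEich_cent hnd hdim hJ hτν, not_allEich_cent hnd hdim hJ' hτν⟩
    · apply nonCent_of_unip hnd hdim T C hTC hC0
      intro x
      rw [hCC]
    · rw [mem_cent]
      intro x
      rw [hTC, hTC, map_add, hCJ]
    · rw [mem_cent]
      intro x
      rw [hTC, hTC, map_add, hCJ']
    · rw [mem_cent]
      intro x
      rw [hJ'a, hJ'a]
      simp only [orth_mul_apply, orth_inv_apply_self]
      rw [hJs]
  · -- totally singular
    have hWperp : ∀ x ∈ W, ∀ y ∈ W, polar Q x y = 0 := by
      intro x hx y hy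
      have : y ∈ W ⊓ perp Q W := by rw [hrad]; exact hy
      exact mem_perp.1 this.2 x hx
    have hWQ : ∀ x ∈ W, Q x = 0 := by
      intro x hx
      exact semilinear_eq_zero (fun y : W => Q (y : V))
        (by
          intro a b
          rw [Submodule.coe_add, Qadd, hWperp _ a.2 _ b.2, add_zero])
        (by
          intro a b
          rw [Submodule.coe_smul, Qsmul]) ((restrOrth s W hWs).1 : W →ₗ[F] W)
        (by
          intro a
          exact s.2 a) hWirr' (by omega) ⟨x, hx⟩
    have hW'Q : ∀ x ∈ W', Q x = 0 := by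
      intro x hx
      rw [mW'] at hx
      rw [← hWQ _ hx, (g⁻¹).2]
    have hW'perp : ∀ x ∈ W', ∀ y ∈ W', polar Q x y = 0 := by
      intro x hx y hy
      rw [mW'] at hx hy
      rw [← orth_polar g⁻¹]
      exact hWperp _ hx _ hy
    have hne : ∀ P : Submodule F V, (∀ x ∈ P, Q x = 0) → P ≠ ⊤ := by
      intro P hP h
      obtain ⟨x, hx⟩ := exists_polar_ne_zero hnd (Submodule.exists_mem_ne_zero_of_ne_bot hW0
        ).choose_spec.2
      apply hx
      have h1 : ∀ y, Q y = 0 := fun y => hP y (by rw [h]; trivial)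
      rw [polar, h1, h1, h1]
      simp
    obtain ⟨v, hvW', hv0⟩ := Submodule.exists_mem_ne_zero_of_ne_bot hW'0
    obtain ⟨u, huW, huv, hnot⟩ : ∃ u ∈ W, polar Q u v = 0 ∧ u ∉ Submodule.span F {v} := by
      by_contra hcon
      push Not at hcon
      have h1 : W ⊓ perp Q (Submodule.span F {v}) ≤ Submodule.span F {v} := by
        rintro u ⟨hu1, hu2⟩
        apply hcon u hu1
        have hu3 : u ∈ perp Q (Submodule.span F {v}) := hu2
        rw [mem_perp_span_singleton] at hu3
        rw [polar_comm]
        exact hu3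
      have h2 := Submodule.finrank_mono h1
      have h3 := finrank_span_singleton_le (F := F) v
      have h4 := finrank_perp hnd (Submodule.span F {v})
      have h5 := Submodule.finrank_sup_add_finrank_inf_eq W (perp Q (Submodule.span F {v}))
      have h6 := Submodule.finrank_le (W ⊔ perp Q (Submodule.span F {v}))
      omega
    have hu : Q u = 0 := hWQ u huW
    have hQv : Q v = 0 := hW'Q v hvW'
    have hu0 : u ≠ 0 := by
      rintro rfl
      exact hnot (Submodule.zero_mem _)
    have hvu : v ∉ Submodule.span F {u} := by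
      intro h
      apply hnot
      rw [Submodule.mem_span_singleton] at h ⊢
      obtain ⟨a, rfl⟩ := h
      have ha : a ≠ 0 := by
        rintro rfl
        simp at hv0
      exact ⟨a⁻¹, by rw [smul_smul, inv_mul_cancel₀ ha, one_smul]⟩
    refine ⟨eich Q u v hu huv, stab Q W, stab Q W', hK _ _ _ _,
      nonCent_eich hnd hdim u v hu huv hu0 hvu, ?_, ?_, mem_stab_of hWs, mem_stab_of hW's,
      not_allEich_stab hnd hdim W hW0 (hne W hWQ), not_allEich_stab hnd hdim W' hW'0 (hne W' hW'Q)⟩
    · apply mem_stab_of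
      intro x hx
      rw [eich_apply, eichLin_apply, hWperp u huW x hx, hQv]
      simp only [zero_smul, add_zero, mul_zero, sub_zero]
      exact W.sub_mem hx (W.smul_mem _ huW)
    · apply mem_stab_of
      intro x hx
      rw [eich_apply, eichLin_apply, hW'perp v hvW' x hx, hQv]
      simp only [zero_smul, zero_mul, sub_zero]
      exact W'.add_mem hx (W'.smul_mem _ hvW')

end main

end Pool.Agent.H49.UDN
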