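import Pool.Agent.H49.UDN.Basic

set_option autoImplicit false

/-!
Nondegenerate quadratic spaces over finite fields: orthogonal complements, existence of suitable
vectors, Siegel transformations are commutators, and the group they generate is irreducible.
-/

namespace Pool.Agent.H49.UDN

open QuadraticMap Module
open scoped commutatorElement

variable {F V : Type*} [Field F] [AddCommGroup V] [Module F V]

/-- Orthogonal complement with respect to the polar form. -/
def perp (Q : QuadraticForm F V) (W : Submodule F V) : Submodule F V :=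
  LinearMap.BilinForm.orthogonal (polarBilin Q) W

lemma mem_perp {Q : QuadraticForm F V} {W : Submodule F V} {x : V} :
    x ∈ perp Q W ↔ ∀ w ∈ W, polar Q w x = 0 := by
  rw [perp, LinearMap.BilinForm.mem_orthogonal_iff]
  rfl

lemma mem_perp_span_pair {Q : QuadraticForm F V} {u v x : V} :
    x ∈ perp Q (Submodule.span F {u, v}) ↔ polar Q u x = 0 ∧ polar Q v x = 0 := by
  rw [mem_perp]
  constructor
  · intro h
    exact ⟨h u (Submodule.subset_span (by simp)), h v (Submodule.subset_span (by simp))⟩
  · rintro ⟨h1, h2⟩ w hw
    rw [Submodule.mem_span_pair] at hw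
    obtain ⟨a, b, rfl⟩ := hw
    rw [polar_add_left, polar_smul_left, polar_smul_left, h1, h2]
    simp

lemma mem_perp_span_singleton {Q : QuadraticForm F V} {u x : V} :
    x ∈ perp Q (Submodule.span F {u}) ↔ polar Q u x = 0 := by
  rw [mem_perp]
  constructor
  · intro h
    exact h u (Submodule.mem_span_singleton_self u)
  · intro h w hw
    rw [Submodule.mem_span_singleton] at hw
    obtain ⟨a, rfl⟩ := hw
    rw [polar_smul_left, h, smul_zero]

lemma finrank_span_pair_le (u v : V) : finrank F (Submodule.span F {u, v}) ≤ 2 := by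
  classical
  have h := finrank_span_finset_le_card (R := F) ({u, v} : Finset V)
  have h2 : ({u, v} : Finset V).card ≤ 2 := Finset.card_le_two
  simp only [Finset.coe_insert, Finset.coe_singleton] at h
  exact h.trans h2

lemma finrank_span_singleton_le (u : V) : finrank F (Submodule.span F {u}) ≤ 1 := by
  by_cases hu : u = 0
  · rw [hu, Submodule.span_zero_singleton, finrank_bot]
    omega
  · rw [finrank_span_singleton hu]

section nd

variable [FiniteDimensional F V] {Q : QuadraticForm F V} (hnd : (polarBilin Q).Nondegenerate)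

include hnd

lemma finrank_perp (W : Submodule F V) : finrank F (perp Q W) = finrank F V - finrank F W :=
  LinearMap.BilinForm.finrank_orthogonal hnd W

omit [FiniteDimensional F V] hnd in
lemma isRefl_polar : (polarBilin Q).IsRefl := by
  intro x y h
  have : polar Q x y = 0 := h
  change polar Q y x = 0
  rw [polar_comm]
  exact this

lemma perp_perp (W : Submodule F V) : perp Q (perp Q W) = W :=
  LinearMap.BilinForm.orthogonal_orthogonal hnd isRefl_polar W

omit [FiniteDimensional F V] in
lemma exists_polar_ne_zero {x : V} (hx : x ≠ 0) : ∃ y, polar Q x y ≠ 0 := by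
  by_contra hcon
  push Not at hcon
  apply hx
  have : x ∈ LinearMap.ker (polarBilin Q) := by
    rw [LinearMap.mem_ker]
    ext y
    exact hcon y
  rw [LinearMap.BilinForm.Nondegenerate.ker_eq_bot hnd] at this
  simpa using this

lemma exists_dual_of_notMem (W : Submodule F V) {a : V} (ha : a ∉ W) :
    ∃ w, w ∈ perp Q W ∧ polar Q a w = 1 := by
  have h1 : a ∉ perp Q (perp Q W) := by rwa [perp_perp hnd]
  rw [mem_perp] at h1
  push Not at h1
  obtain ⟨w, hw, hwa⟩ := h1
  refine ⟨(polar Q w a)⁻¹ • w, Submodule.smul_mem _ _ hw, ?_⟩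
  rw [polar_smul_right, polar_comm Q a w, smul_eq_mul, inv_mul_cancel₀ hwa]

/-- Generation principle: a subgroup that contains all commutators of Siegel transformations
contains all Siegel transformations. -/
lemma eich_mem_of_comm [Finite F] (hdim : 7 ≤ finrank F V) (K : Subgroup (orth Q))
    (hK : ∀ (u v : V) (hu : Q u = 0) (huv : polar Q u v = 0) (u' v' : V) (hu' : Q u' = 0)
      (huv' : polar Q u' v' = 0), ⁅eich Q u v hu huv, eich Q u' v' hu' huv'⁆ ∈ K)
    (u v : V) (hu : Q u = 0) (huv : polar Q u v = 0) : eich Q u v hu huv ∈ K := by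
  -- a singular vector orthogonal to `u, v` and outside their span
  have key : ∀ (u v : V) (hu : Q u = 0) (huv : polar Q u v = 0), ∃ a, ∃ _ : Q a = 0,
      ∃ _ : polar Q u a = 0, ∃ h' : polar Q u (v - Q v • a) = 0,
        eich Q u (v - Q v • a) hu h' ∈ K := by
    intro u v hu huv
    obtain ⟨Z, hZ⟩ := Submodule.exists_isCompl
      ((Submodule.span F {u, v}).comap (perp Q (Submodule.span F {u, v})).subtype)
    have hfr := Submodule.finrank_add_eq_of_isCompl hZ
    have h1 : finrank F ((Submodule.span F {u, v}).comap
        (perp Q (Submodule.span F {u, v})).subtype) ≤ 2 := by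
      refine le_trans ?_ (finrank_span_pair_le (F := F) u v)
      rw [← Submodule.finrank_map_subtype_eq]
      apply Submodule.finrank_mono
      exact Submodule.map_comap_le _ _
    have h2 := finrank_perp hnd (Submodule.span F {u, v})
    have h3 := finrank_span_pair_le (F := F) u v
    have h4 : 3 ≤ finrank F (Z.map (perp Q (Submodule.span F {u, v})).subtype) := by
      rw [Submodule.finrank_map_subtype_eq]
      omega
    obtain ⟨a, haZ, ha0, hQa⟩ := exists_singular Q _ h4
    obtain ⟨a', ha'Z, rfl⟩ := haZ
    have haperp : (a' : V) ∈ perp Q (Submodule.span F {u, v}) := a'.2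
    have hanot : (a' : V) ∉ Submodule.span F {u, v} := by
      intro hmem
      have h5 : a' ∈ (Submodule.span F {u, v}).comap
        (perp Q (Submodule.span F {u, v})).subtype := hmem
      have h6 := (Submodule.disjoint_def.1 hZ.disjoint) a' h5 ha'Z
      apply ha0
      simp [h6]
    obtain ⟨w, hw, haw⟩ := exists_dual_of_notMem hnd _ hanot
    rw [mem_perp_span_pair] at hw haperp
    have hau : polar Q (a' : V) u = 0 := by rw [polar_comm]; exact haperp.1
    have hav : polar Q (a' : V) v = 0 := by rw [polar_comm]; exact haperp.2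
    have h' : polar Q u (v - Q v • (a' : V)) = 0 := by
      rw [polar_sub_right, polar_smul_right, huv, haperp.1]
      simp
    refine ⟨a', hQa, haperp.1, h', ?_⟩
    rw [← eich_comm Q u v a' w hu hQa huv hau hav hw.1 hw.2 haw h']
    exact hK _ _ _ _ _ _ _ _
  -- first the case of singular `v`
  have sing : ∀ (u v : V) (hu : Q u = 0) (huv : polar Q u v = 0), Q v = 0 →
      eich Q u v hu huv ∈ K := by
    intro u v hu huv hv
    obtain ⟨a, _, _, h', hmem⟩ := key u v hu huv
    have heq : eich Q u (v - Q v • a) hu h' = eich Q u v hu huv := by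
      congr 1
      rw [hv]
      simp
    rwa [heq] at hmem
  obtain ⟨a, ha, hua, h', hmem⟩ := key u v hu huv
  have h1 : polar Q u (Q v • a) = 0 := by
    rw [polar_smul_right, hua, smul_zero]
  have h2 : eich Q u (Q v • a) hu h1 ∈ K := by
    apply sing
    rw [Qsmul, ha, mul_zero]
  have h3 : polar Q u ((v - Q v • a) + Q v • a) = 0 := by
    rw [sub_add_cancel]
    exact huv
  have h4 := K.mul_mem hmem h2
  rw [eich_mul Q u _ _ hu h' h1 h3] at h4
  have heq : eich Q u ((v - Q v • a) + Q v • a) hu h3 = eich Q u v hu huv := by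
    congr 1
    rw [sub_add_cancel]
  rwa [heq] at h4

/-- Singular vectors span. -/
lemma span_singular [Finite F] (hdim : 7 ≤ finrank F V) (W : Submodule F V)
    (hW : ∀ u, Q u = 0 → u ∈ W) : W = ⊤ := by
  obtain ⟨u, _, hu0, hu⟩ := exists_singular Q (⊤ : Submodule F V) (by rw [finrank_top]; omega)
  have h1 : ∀ y, polar Q u y ≠ 0 → y ∈ W := by
    intro y hy
    have h2 : Q (y - (Q y / polar Q u y) • u) = 0 := by
      rw [sub_eq_add_neg, ← neg_smul, Qadd, Qsmul, hu, polar_smul_right, polar_comm Q y u,
        smul_eq_mul]
      field_simp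
      ring
    have h3 := W.add_mem (hW _ h2) (W.smul_mem (Q y / polar Q u y) (hW u hu))
    rwa [sub_add_cancel] at h3
  obtain ⟨x, hx⟩ := exists_polar_ne_zero hnd hu0
  rw [eq_top_iff]
  intro y _
  by_cases hy : polar Q u y = 0
  · have h2 : y + x ∈ W := by
      apply h1
      rw [polar_add_right, hy, zero_add]
      exact hx
    have h3 := W.sub_mem h2 (h1 x hx)
    rwa [add_sub_cancel_right] at h3
  · exact h1 y hy

/-- The group generated by Siegel transformations acts irreducibly. -/
lemma eich_irred [Finite F] (hdim : 7 ≤ finrank F V) (W : Submodule F V) (hW0 : W ≠ ⊥)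
    (hW : ∀ u v, Q u = 0 → polar Q u v = 0 → ∀ w ∈ W, eichLin Q u v w ∈ W) : W = ⊤ := by
  obtain ⟨w, hw, hw0⟩ := Submodule.exists_mem_ne_zero_of_ne_bot hW0
  -- a singular vector not orthogonal to `w`
  obtain ⟨u, hu, huw⟩ : ∃ u, Q u = 0 ∧ polar Q u w ≠ 0 := by
    by_contra hcon
    push Not at hcon
    have h1 := span_singular hnd hdim (perp Q (Submodule.span F {w})) (by
      intro u hu
      rw [mem_perp_span_singleton, polar_comm]
      exact hcon u hu)
    obtain ⟨y, hy⟩ := exists_polar_ne_zero hnd hw0
    have h2 : y ∈ perp Q (Submodule.span F {w}) := by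
      rw [h1]
      trivial
    rw [mem_perp_span_singleton] at h2
    exact hy h2
  have h1 : ∀ v, polar Q u v = 0 → polar Q v w = 0 → v - Q v • u ∈ W := by
    intro v huv hvw
    have h2 := W.sub_mem (hW u v hu huv w hw) hw
    rw [eichLin_apply, hvw] at h2
    have h3 : w + polar Q u w • v - (0 : F) • u - (Q v * polar Q u w) • u - w
        = polar Q u w • (v - Q v • u) := by
      module
    rw [h3] at h2
    have h4 := W.smul_mem (polar Q u w)⁻¹ h2
    rwa [smul_smul, inv_mul_cancel₀ huw, one_smul] at h4
  -- two nonorthogonal vectors in the complement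
  have hP := finrank_perp hnd (Submodule.span F {u, w})
  have hS := finrank_span_pair_le (F := F) u w
  obtain ⟨v, hv, hvS⟩ : ∃ v ∈ perp Q (Submodule.span F {u, w}), v ∉ Submodule.span F {u, w} := by
    by_contra hcon
    push Not at hcon
    have : finrank F (perp Q (Submodule.span F {u, w})) ≤ finrank F (Submodule.span F {u, w}) :=
      Submodule.finrank_mono hcon
    omega
  obtain ⟨v', hv', hvv'⟩ := exists_dual_of_notMem hnd _ hvS
  rw [mem_perp_span_pair] at hv hv'
  have hvw : polar Q v w = 0 := by rw [polar_comm]; exact hv.2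
  have hvw' : polar Q v' w = 0 := by rw [polar_comm]; exact hv'.2
  have huW : u ∈ W := by
    have e1 := h1 v hv.1 hvw
    have e2 := h1 v' hv'.1 hvw'
    have e3 := h1 (v + v') (by rw [polar_add_right, hv.1, hv'.1, add_zero])
      (by rw [polar_add_left, hvw, hvw', add_zero])
    have e4 := W.sub_mem (W.add_mem e1 e2) e3
    rw [Qadd, hvv'] at e4
    have e5 : v - Q v • u + (v' - Q v' • u) - (v + v' - (Q v + Q v' + 1) • u) = u := by
      module
    rwa [e5] at e4
  have h2 : ∀ v, polar Q u v = 0 → polar Q v w = 0 → v ∈ W := by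
    intro v a b
    have := W.add_mem (h1 v a b) (W.smul_mem (Q v) huW)
    rwa [sub_add_cancel] at this
  rw [eq_top_iff]
  intro y _
  -- subtract a combination of `u` and `w`
  have huu : polar Q u u = 0 := by rw [polar_self', hu, mul_zero]
  set c := polar Q u y / polar Q u w with hc
  set d := (polar Q y w - c * polar Q w w) / polar Q u w with hd
  have h3 : y - c • w - d • u ∈ W := by
    apply h2
    · rw [polar_sub_right, polar_sub_right, polar_smul_right, polar_smul_right, huu, smul_zero,
        sub_zero, smul_eq_mul, hc, div_mul_cancel₀ _ huw, sub_self]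
    · rw [polar_sub_left, polar_sub_left, polar_smul_left, polar_smul_left, smul_eq_mul,
        smul_eq_mul, hd, div_mul_cancel₀ _ huw, sub_self]
  have h4 := W.add_mem (W.add_mem h3 (W.smul_mem d huW)) (W.smul_mem c hw)
  have h5 : y - c • w - d • u + d • u + c • w = y := by module
  rwa [h5] at h4

/-- A linear map that commutes with all Siegel transformations has every singular vector as an
eigenvector. -/
lemma eigen_of_commute [Finite F] (hdim : 7 ≤ finrank F V) (L : V →ₗ[F] V)
    (hL : ∀ u v, Q u = 0 → polar Q u v = 0 → ∀ x, L (eichLin Q u v x) = eichLin Q u v (L x))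
    (a : V) (ha : Q a = 0) : ∃ c : F, L a = c • a := by
  by_contra hcon
  push Not at hcon
  have ha0 : a ≠ 0 := by
    rintro rfl
    exact hcon 0 (by simp)
  have hP := finrank_perp hnd (Submodule.span F {a})
  have hS := finrank_span_singleton_le (F := F) a
  have hS2 := finrank_span_pair_le (F := F) a (L a)
  obtain ⟨b, hb, hbS⟩ : ∃ b ∈ perp Q (Submodule.span F {a}), b ∉ Submodule.span F {a, L a} := by
    by_contra hcon
    push Not at hcon
    have : finrank F (perp Q (Submodule.span F {a})) ≤ finrank F (Submodule.span F {a, L a}) :=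
      Submodule.finrank_mono hcon
    omega
  rw [mem_perp_span_singleton] at hb
  have hba : b ∉ Submodule.span F {a} := by
    intro h
    apply hbS
    exact Submodule.span_mono (by simp) h
  obtain ⟨x, hx, hbx⟩ := exists_dual_of_notMem hnd _ hba
  rw [mem_perp_span_singleton] at hx
  have h1 := hL a b ha hb x
  rw [eichLin_apply, eichLin_apply, hx, hbx] at h1
  simp only [zero_smul, add_zero, mul_zero, sub_zero, one_smul, map_sub] at h1
  have h2 : L a = -(polar Q a (L x)) • b + (polar Q b (L x) + Q b * polar Q a (L x)) • a := by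
    have h3 : L x - L a = L x + (polar Q a (L x) • b - polar Q b (L x) • a
        - (Q b * polar Q a (L x)) • a) := by
      rw [h1]
      module
    have h4 : L a = -(polar Q a (L x) • b - polar Q b (L x) • a
        - (Q b * polar Q a (L x)) • a) := by
      have := congrArg (fun t => L x - t) h3
      simp only [sub_sub_cancel] at this
      rw [this]
      module
    rw [h4]
    module
  by_cases h0 : polar Q a (L x) = 0
  · rw [h0] at h2
    apply hcon (polar Q b (L x) + Q b * 0)
    rw [h2]
    module
  · apply hbS
    rw [Submodule.mem_span_pair]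
    refine ⟨(polar Q b (L x) + Q b * polar Q a (L x)) / polar Q a (L x), -(polar Q a (L x))⁻¹, ?_⟩
    rw [h2]
    rw [smul_add, smul_smul, smul_smul]
    have e1 : -(polar Q a (L x))⁻¹ * -(polar Q a (L x)) = 1 := by
      field_simp
    rw [e1, one_smul]
    have e2 : ((polar Q b (L x) + Q b * polar Q a (L x)) / polar Q a (L x)) • a +
      (b + (-(polar Q a (L x))⁻¹ * (polar Q b (L x) + Q b * polar Q a (L x))) • a) = b := by
      rw [div_eq_mul_inv]
      module
    exact e2

/-- A nontrivial unipotent map does not commute with all Siegel transformations. -/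
lemma exists_not_commute [Finite F] (hdim : 7 ≤ finrank F V) (T N : V →ₗ[F] V)
    (hTN : ∀ x, T x = x + N x) (hN : N ≠ 0) (hunip : ∀ x, N (N (N x)) = 0) :
    ∃ u v, Q u = 0 ∧ polar Q u v = 0 ∧ ∃ x, T (eichLin Q u v x) ≠ eichLin Q u v (T x) := by
  by_contra hcon
  push Not at hcon
  apply hN
  rw [← LinearMap.ker_eq_top]
  apply span_singular hnd hdim
  intro a ha
  by_cases ha0 : a = 0
  · subst ha0
    exact Submodule.zero_mem _
  obtain ⟨c, hc⟩ := eigen_of_commute hnd hdim T hcon a ha
  have h2 : N a = (c - 1) • a := by
    have := hTN a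
    rw [hc] at this
    have h : N a = c • a - a := by
      rw [this]
      module
    rw [h]
    module
  have h3 := hunip a
  rw [h2, map_smul, h2, map_smul, map_smul, h2] at h3
  rw [smul_smul, smul_smul] at h3
  have h4 : (c - 1) * (c - 1) * (c - 1) = 0 := by
    rcases smul_eq_zero.1 h3 with h | h
    · exact h
    · exact absurd h ha0
  have h5 : c - 1 = 0 := by
    simpa using h4
  rw [LinearMap.mem_ker, h2, h5, zero_smul]

end nd

end Pool.Agent.H49.UDN
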