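import Pool.Agent.H49.UDN.Nondeg

set_option autoImplicit false

/-!
Linear algebra of two operators `J, J'` with `J ^ 2 = τ J - ν`, `J' ^ 2 = τ J' - ν` whose
anticommutator-like expression `τ (J + J') - J J' - J' J` is a scalar `ζ`.
-/

namespace Pool.Agent.H49.UDN

open QuadraticMap Module

section alpha

variable {K S : Type*} [Field K] [AddCommGroup S] [Module K S]

/-- The relations satisfied by the two operators. -/
structure Rel (J J' : S →ₗ[K] S) (τ ν ζ : K) : Prop where
  h1 : ∀ x, J (J x) = τ • J x - ν • x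
  h2 : ∀ x, J' (J' x) = τ • J' x - ν • x
  h3 : ∀ x, J' (J x) = τ • J x + τ • J' x - ζ • x - J (J' x)

variable {J J' : S →ₗ[K] S} {τ ν ζ : K}

/-- The commutator. -/
def Dmap (J J' : S →ₗ[K] S) : S →ₗ[K] S := J ∘ₗ J' - J' ∘ₗ J

lemma Dmap_apply (x : S) : Dmap J J' x = J (J' x) - J' (J x) := rfl

lemma D_J (h : Rel J J' τ ν ζ) (x : S) : Dmap J J' (J x) = τ • Dmap J J' x - J (Dmap J J' x) := by
  simp only [Dmap_apply, h.h3, h.h2, h.h1, map_add, map_sub, map_smul]
  module

lemma D_J' (h : Rel J J' τ ν ζ) (x : S) :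
    Dmap J J' (J' x) = τ • Dmap J J' x - J' (Dmap J J' x) := by
  simp only [Dmap_apply, h.h3, h.h2, h.h1, map_add, map_sub, map_smul]
  module

lemma D_D (h : Rel J J' τ ν ζ) (x : S) :
    Dmap J J' (Dmap J J' x) = ((ζ - 2 * ν) * (ζ - τ ^ 2 + 2 * ν)) • x := by
  simp only [Dmap_apply, h.h3, h.h2, h.h1, map_add, map_sub, map_smul]
  module

lemma J'_eq (h : Rel J J' τ ν ζ) (x : S) :
    (τ ^ 2 - 4 * ν) • J' x =
      2 • J (Dmap J J' x + τ • J x - ζ • x) - τ • (Dmap J J' x + τ • J x - ζ • x) := by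
  simp only [Dmap_apply, h.h3, h.h2, h.h1, map_add, map_sub, map_smul]
  module

lemma invariant_J' (h : Rel J J' τ ν ζ) (hΔ : τ ^ 2 - 4 * ν ≠ 0) (P : Submodule K S)
    (hJ : ∀ x ∈ P, J x ∈ P) (hD : ∀ x ∈ P, Dmap J J' x ∈ P) : ∀ x ∈ P, J' x ∈ P := by
  intro x hx
  have h1 : Dmap J J' x + τ • J x - ζ • x ∈ P :=
    P.sub_mem (P.add_mem (hD x hx) (P.smul_mem _ (hJ x hx))) (P.smul_mem _ hx)
  have h2 := P.sub_mem (P.smul_of_tower_mem 2 (hJ _ h1)) (P.smul_mem τ h1)
  rw [← J'_eq h] at h2
  have h3 := P.smul_mem (τ ^ 2 - 4 * ν)⁻¹ h2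
  rwa [smul_smul, inv_mul_cancel₀ hΔ, one_smul] at h3

lemma exists_norm_eq [Finite K] (τ ν δ : K) : ∃ a b c : K, (a ≠ 0 ∨ b ≠ 0 ∨ c ≠ 0) ∧
    a ^ 2 + τ * a * b + ν * b ^ 2 = δ * c ^ 2 := by
  let Q0 : QuadraticForm K (Fin 3 → K) :=
    QuadraticMap.proj 0 0 + τ • QuadraticMap.proj 0 1 + ν • QuadraticMap.proj 1 1
      - δ • QuadraticMap.proj 2 2
  obtain ⟨x, hx, hQ⟩ := exists_singular_fun Q0 (fun i => Pi.single i 1)
  have hsum : ∑ i, x i • (Pi.single i 1 : Fin 3 → K) = x := by
    funext j
    simp [Finset.sum_apply, Pi.single_apply]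
  rw [hsum] at hQ
  refine ⟨x 0, x 1, x 2, ?_, ?_⟩
  · by_contra hcon
    push Not at hcon
    apply hx
    funext i
    fin_cases i
    · exact hcon.1
    · exact hcon.2.1
    · exact hcon.2.2
  · have : x 0 * x 0 + τ * (x 0 * x 1) + ν * (x 1 * x 1) - δ * (x 2 * x 2) = 0 := hQ
    linear_combination this

lemma exists_invariant_pair [Finite K] (h : Rel J J' τ ν ζ) (hΔ : τ ^ 2 - 4 * ν ≠ 0)
    (hD : ∀ x, Dmap J J' x = 0 → x = 0) (hne : ∃ x : S, x ≠ 0) :
    ∃ x y : S, x ≠ 0 ∧ (∀ w ∈ Submodule.span K {x, y}, J w ∈ Submodule.span K {x, y}) ∧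
      (∀ w ∈ Submodule.span K {x, y}, J' w ∈ Submodule.span K {x, y}) := by
  set δ := (ζ - 2 * ν) * (ζ - τ ^ 2 + 2 * ν) with hδ
  have hDD : ∀ x, Dmap J J' (Dmap J J' x) = δ • x := D_D h
  have red : ∀ x y : S, J x ∈ Submodule.span K {x, y} → J y ∈ Submodule.span K {x, y} →
      Dmap J J' x ∈ Submodule.span K {x, y} → Dmap J J' y ∈ Submodule.span K {x, y} →
      (∀ w ∈ Submodule.span K {x, y}, J w ∈ Submodule.span K {x, y}) ∧
      (∀ w ∈ Submodule.span K {x, y}, J' w ∈ Submodule.span K {x, y}) := by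
    intro x y a1 a2 a3 a4
    have b1 : ∀ w ∈ Submodule.span K {x, y}, J w ∈ Submodule.span K {x, y} := by
      intro w hw
      rw [Submodule.mem_span_pair] at hw
      obtain ⟨a, b, rfl⟩ := hw
      rw [map_add, map_smul, map_smul]
      exact Submodule.add_mem _ (Submodule.smul_mem _ _ a1) (Submodule.smul_mem _ _ a2)
    have b2 : ∀ w ∈ Submodule.span K {x, y}, Dmap J J' w ∈ Submodule.span K {x, y} := by
      intro w hw
      rw [Submodule.mem_span_pair] at hw
      obtain ⟨a, b, rfl⟩ := hw
      rw [map_add, map_smul, map_smul]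
      exact Submodule.add_mem _ (Submodule.smul_mem _ _ a3) (Submodule.smul_mem _ _ a4)
    exact ⟨b1, invariant_J' h hΔ _ b1 b2⟩
  have mx : ∀ x y : S, x ∈ Submodule.span K {x, y} := fun x y => Submodule.subset_span (by simp)
  have my : ∀ x y : S, y ∈ Submodule.span K {x, y} := fun x y => Submodule.subset_span (by simp)
  obtain ⟨a, b, c, habc, hN⟩ := exists_norm_eq τ ν δ
  by_cases hc : c = 0
  · -- `J` has an eigenvector
    subst hc
    have hb : b ≠ 0 := by
      rintro rfl
      have : a = 0 := by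
        have h' : a ^ 2 = 0 := by linear_combination hN
        simpa using h'
      subst this
      simp at habc
    have hprod : ∀ x : S, a • (a • x + b • (τ • x - J x)) + b • J (a • x + b • (τ • x - J x)) = 0 := by
      intro x
      simp only [map_add, map_sub, map_smul, h.h1]
      have : a • (a • x + b • (τ • x - J x)) + b • (a • J x + b • (τ • J x - (τ • J x - ν • x)))
          = (a ^ 2 + τ * a * b + ν * b ^ 2) • x := by
        module
      rw [this, hN]
      simp
    -- an eigenvector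
    obtain ⟨x, κ, hx, hκ⟩ : ∃ (x : S) (κ : K), x ≠ 0 ∧ J x = κ • x := by
      by_cases hall : ∀ x : S, a • x + b • (τ • x - J x) = 0
      · obtain ⟨x, hx⟩ := hne
        refine ⟨x, (a + b * τ) / b, hx, ?_⟩
        have h1 := hall x
        have h2 : b • J x = (a + b * τ) • x := by
          have : b • J x = (a + b * τ) • x - (a • x + b • (τ • x - J x)) := by module
          rw [this, h1, sub_zero]
        rw [div_eq_inv_mul, mul_smul, ← h2, smul_smul, inv_mul_cancel₀ hb, one_smul]
      · push Not at hall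
        obtain ⟨x, hx⟩ := hall
        refine ⟨_, -a / b, hx, ?_⟩
        have h1 := hprod x
        set y := a • x + b • (τ • x - J x) with hy
        have h2 : b • J y = (-a) • y := by
          have : b • J y = (a • y + b • J y) - a • y := by module
          rw [this, h1]
          module
        rw [div_eq_inv_mul, mul_smul, ← h2, smul_smul, inv_mul_cancel₀ hb, one_smul]
    refine ⟨x, Dmap J J' x, hx, red x _ ?_ ?_ (my _ _) ?_⟩
    · rw [hκ]
      exact Submodule.smul_mem _ _ (mx _ _)
    · have h1 := D_J h x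
      have h2 : J (Dmap J J' x) = τ • Dmap J J' x - Dmap J J' (J x) := by
        rw [h1]
        module
      rw [h2, hκ, map_smul]
      exact Submodule.sub_mem _ (Submodule.smul_mem _ _ (my _ _)) (Submodule.smul_mem _ _ (my _ _))
    · rw [hDD]
      exact Submodule.smul_mem _ _ (mx _ _)
  · -- `D` acts on some line over `K[J]`
    set a' := a / c with ha'
    set b' := b / c with hb'
    have hN' : a' ^ 2 + τ * a' * b' + ν * b' ^ 2 = δ := by
      rw [ha', hb']
      field_simp
      linear_combination hN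
    -- for every `y`, `x = D y + (a' + b' J) y` satisfies `D x = (a' + b' (τ - J)) x`
    have key : ∀ y : S, Dmap J J' (Dmap J J' y + (a' • y + b' • J y)) =
        a' • (Dmap J J' y + (a' • y + b' • J y)) +
          b' • (τ • (Dmap J J' y + (a' • y + b' • J y)) - J (Dmap J J' y + (a' • y + b' • J y))) := by
      intro y
      have h1 := D_J h y
      have h2 := hDD y
      simp only [map_add, map_smul, h2, h1, h.h1]
      have : δ • y = (a' ^ 2 + τ * a' * b' + ν * b' ^ 2) • y := by rw [hN']
      rw [this]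
      module
    obtain ⟨w, hw0, hw⟩ : ∃ w : S, w ≠ 0 ∧ Dmap J J' w = a' • w + b' • (τ • w - J w) := by
      suffices hs : ∃ y : S, Dmap J J' y + (a' • y + b' • J y) ≠ 0 by
        obtain ⟨y, hy⟩ := hs
        exact ⟨_, hy, key y⟩
      by_contra hcon
      push Not at hcon
      obtain ⟨x, hx⟩ := hne
      have e1 : ∀ y, Dmap J J' y = -(a' • y + b' • J y) := fun y =>
        eq_neg_of_add_eq_zero_left (hcon y)
      have e2 : ∀ y, J (Dmap J J' y) = Dmap J J' (J y) := by
        intro y
        rw [e1, e1, map_neg, map_add, map_smul, map_smul]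
      have e3 : ∀ y, (2 : K) • J (Dmap J J' y) = τ • Dmap J J' y := by
        intro y
        have h1 := D_J h y
        rw [← e2] at h1
        have : (2 : K) • J (Dmap J J' y) = J (Dmap J J' y) + J (Dmap J J' y) := by module
        rw [this]
        nth_rewrite 1 [h1]
        module
      -- apply `2 J - τ` twice
      have e4 : (τ ^ 2 - 4 * ν) • Dmap J J' x = 0 := by
        have h1 := e3 x
        have h2 := congrArg J h1
        rw [map_smul, map_smul, h.h1] at h2
        have h3 : (2 : K) • ((2 : K) • (τ • J (Dmap J J' x) - ν • Dmap J J' x)) =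
            (2 : K) • (τ • J (Dmap J J' x)) := by rw [h2]
        have : (τ ^ 2 - 4 * ν) • Dmap J J' x =
            (2 : K) • ((2 : K) • (τ • J (Dmap J J' x) - ν • Dmap J J' x))
              - (2 : K) • (τ • J (Dmap J J' x)) - τ • ((2 : K) • J (Dmap J J' x) -
              τ • Dmap J J' x) := by
          module
        rw [this, h3, h1]
        simp
      have e5 : Dmap J J' x = 0 := by
        rcases smul_eq_zero.1 e4 with h' | h'
        · exact absurd h' hΔ
        · exact h'
      exact hx (hD x e5)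
    refine ⟨w, J w, hw0, red _ _ (my _ _) ?_ ?_ ?_⟩
    · rw [h.h1]
      exact Submodule.sub_mem _ (Submodule.smul_mem _ _ (my _ _)) (Submodule.smul_mem _ _ (mx _ _))
    · rw [hw]
      exact Submodule.add_mem _ (Submodule.smul_mem _ _ (mx _ _)) (Submodule.smul_mem _ _
        (Submodule.sub_mem _ (Submodule.smul_mem _ _ (mx _ _)) (my _ _)))
    · rw [D_J h w, hw]
      refine Submodule.sub_mem _ (Submodule.smul_mem _ _ ?_) ?_
      · exact Submodule.add_mem _ (Submodule.smul_mem _ _ (mx _ _)) (Submodule.smul_mem _ _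
          (Submodule.sub_mem _ (Submodule.smul_mem _ _ (mx _ _)) (my _ _)))
      · rw [map_add, map_smul, map_smul, map_sub, map_smul, h.h1]
        refine Submodule.add_mem _ (Submodule.smul_mem _ _ (my _ _)) (Submodule.smul_mem _ _ ?_)
        refine Submodule.sub_mem _ (Submodule.smul_mem _ _ (my _ _)) ?_
        exact Submodule.sub_mem _ (Submodule.smul_mem _ _ (my _ _)) (Submodule.smul_mem _ _ (mx _ _))

/-- If there is no proper nonzero invariant subspace and `D ≠ 0` then the dimension is two. -/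
lemma finrank_eq_two [Finite K] [FiniteDimensional K S] (h : Rel J J' τ ν ζ)
    (hΔ : τ ^ 2 - 4 * ν ≠ 0) (hD : Dmap J J' ≠ 0)
    (hirr : ∀ P : Submodule K S, (∀ x ∈ P, J x ∈ P) → (∀ x ∈ P, J' x ∈ P) → P = ⊥ ∨ P = ⊤) :
    finrank K S = 2 ∧ (∀ x, Dmap J J' x = 0 → x = 0) := by
  have hker : LinearMap.ker (Dmap J J') = ⊥ := by
    rcases hirr (LinearMap.ker (Dmap J J')) (by
      intro x hx
      rw [LinearMap.mem_ker] at hx ⊢
      rw [D_J h, hx]
      simp) (by
      intro x hx
      rw [LinearMap.mem_ker] at hx ⊢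
      rw [D_J' h, hx]
      simp) with h1 | h1
    · exact h1
    · exact absurd (LinearMap.ker_eq_top.1 h1) hD
  have hinj : ∀ x, Dmap J J' x = 0 → x = 0 := by
    intro x hx
    have : x ∈ LinearMap.ker (Dmap J J') := hx
    rw [hker] at this
    simpa using this
  refine ⟨?_, hinj⟩
  have hne : ∃ x : S, x ≠ 0 := by
    by_contra hcon
    push Not at hcon
    apply hD
    ext x
    rw [hcon x, map_zero]
    simp
  obtain ⟨x, y, hx, hJ, hJ'⟩ := exists_invariant_pair h hΔ hinj hne
  have htop : Submodule.span K {x, y} = ⊤ := by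
    rcases hirr _ hJ hJ' with h1 | h1
    · exfalso
      apply hx
      have : x ∈ Submodule.span K {x, y} := Submodule.subset_span (by simp)
      rw [h1] at this
      simpa using this
    · exact h1
  have hle : finrank K S ≤ 2 := by
    have := finrank_span_pair_le (F := K) x y
    rwa [htop, finrank_top] at this
  have hpos : finrank K S ≠ 0 := by
    intro h0
    have := Module.finrank_zero_iff.1 h0
    exact hx (Subsingleton.elim _ _)
  have hone : finrank K S ≠ 1 := by
    intro h1
    -- all endomorphisms are scalars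
    obtain ⟨v, hv, hspan⟩ := finrank_eq_one_iff'.1 h1
    apply hD
    ext w
    obtain ⟨c, hc⟩ := hspan w
    obtain ⟨j, hj⟩ := hspan (J v)
    obtain ⟨j', hj'⟩ := hspan (J' v)
    rw [← hc, Dmap_apply]
    simp only [map_smul, ← hj, ← hj', LinearMap.zero_apply]
    module
  omega

end alpha

end Pool.Agent.H49.UDN
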