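import Pool.Agent.H49.UDN.FieldOf

set_option autoImplicit false

/-!
For two quadratic similarities `J, J'` of unitary type there is a nontrivial element of the group
generated by Siegel transformations that commutes with both.
-/

namespace Pool.Agent.H49.UDN

open QuadraticMap Module Polynomial

universe u v

variable {F : Type u} {V : Type v} [Field F] [AddCommGroup V] [Module F V]

/-- `J` satisfies `J ^ 2 = τ J - ν`, has adjoint `τ - J` and multiplier `ν`. -/
structure UnitaryLike (Q : QuadraticForm F V) (τ ν : F) (J : V →ₗ[F] V) : Prop where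
  sq : ∀ x, J (J x) = τ • J x - ν • x
  adj : ∀ x y, polar Q (J x) y = polar Q x (τ • y - J y)
  qv : ∀ x, Q (J x) = ν * Q x
  pv : ∀ x, polar Q x (J x) = τ * Q x

lemma eq_zero_of_two_tau {τ ν a : F} (hΔ : τ ^ 2 - 4 * ν ≠ 0) (h2 : 2 * a = 0) (hτ : τ * a = 0) :
    a = 0 := by
  by_contra ha
  have e2 : (2 : F) = 0 := (mul_eq_zero.1 h2).resolve_right ha
  have eτ : τ = 0 := (mul_eq_zero.1 hτ).resolve_right ha
  apply hΔ
  have e4 : (4 : F) = 0 := by
    have : (4 : F) = 2 * 2 := by norm_num
    rw [this, e2, zero_mul]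
  rw [eτ, e4]
  ring

variable {Q : QuadraticForm F V}

lemma UnitaryLike.no_eigen {τ ν : F} {J : V →ₗ[F] V} (h : UnitaryLike Q τ ν J)
    (hirr : ∀ c : F, c ^ 2 - τ * c + ν ≠ 0) {x : V} {c : F} (hx : J x = c • x) : x = 0 := by
  have h1 := h.sq x
  rw [hx, map_smul, hx] at h1
  have h2 : (c ^ 2 - τ * c + ν) • x = 0 := by
    have : (c ^ 2 - τ * c + ν) • x = c • c • x - (τ • c • x - ν • x) := by module
    rw [this, h1, sub_self]
  exact (smul_eq_zero.1 h2).resolve_left (hirr c)

lemma UnitaryLike.adj' {τ ν : F} {J : V →ₗ[F] V} (h : UnitaryLike Q τ ν J) (x y : V) :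
    polar Q x (J y) = polar Q (τ • x - J x) y := by
  rw [polar_comm, h.adj, polar_comm]

/-- The conclusion we aim at. -/
def Good (Q : QuadraticForm F V) (K : Subgroup (orth Q)) (J J' : V →ₗ[F] V) : Prop :=
  ∃ (T : orth Q) (C : V →ₗ[F] V), T ∈ K ∧ (∀ x, T.1 x = x + C x) ∧ C ≠ 0 ∧ (∀ x, C (C x) = 0) ∧
    (∀ x, C (J x) = J (C x)) ∧ (∀ x, C (J' x) = J' (C x))

/-- The easy case: a singular vector on which `J'` acts as `J` or `τ - J`. -/
lemma good_of_vector (hnd : (polarBilin Q).Nondegenerate) (K : Subgroup (orth Q))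
    (hK : ∀ (u v : V) (hu : Q u = 0) (huv : polar Q u v = 0), eich Q u v hu huv ∈ K)
    {τ ν : F} (hirr : ∀ c : F, c ^ 2 - τ * c + ν ≠ 0) {J J' : V →ₗ[F] V}
    (hJ : UnitaryLike Q τ ν J) (hJ' : UnitaryLike Q τ ν J') {u : V} (hu0 : u ≠ 0) (hu : Q u = 0)
    (h : J' u = J u ∨ J' u = τ • u - J u) : Good Q K J J' := by
  have h1 : polar Q u (J u) = 0 := by rw [hJ.pv, hu, mul_zero]
  have h2 : Q (J u) = 0 := by rw [hJ.qv, hu, mul_zero]
  have h3 : polar Q (J u) (J u) = 0 := by rw [polar_self', h2, mul_zero]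
  have h4 : polar Q u u = 0 := by rw [polar_self', hu, mul_zero]
  have h5 : polar Q (J u) u = 0 := by rw [polar_comm]; exact h1
  let N : V →ₗ[F] V := (polarBilin Q u).smulRight (J u) - (polarBilin Q (J u)).smulRight u
  have hN : ∀ x, N x = polar Q u x • J u - polar Q (J u) x • u := by
    intro x
    simp [N]
  refine ⟨eich Q u (J u) hu h1, N, hK _ _ _ _, ?_, ?_, ?_, ?_, ?_⟩
  · intro x
    rw [eich_apply, eichLin_apply, hN, h2, zero_mul, zero_smul, sub_zero, add_sub_assoc]
  · intro h0
    obtain ⟨y, hy⟩ := exists_polar_ne_zero hnd hu0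
    have h6 := LinearMap.congr_fun h0 y
    rw [hN, LinearMap.zero_apply, sub_eq_zero] at h6
    apply hu0
    apply hJ.no_eigen hirr (c := (polar Q u y)⁻¹ * polar Q (J u) y)
    rw [mul_smul, ← h6, smul_smul, inv_mul_cancel₀ hy, one_smul]
  · intro x
    rw [hN x, map_sub, map_smul, map_smul, hN, hN, h1, h3, h4, h5]
    simp
  · intro x
    rw [hN, hN, hJ.adj' u x, hJ.adj' (J u) x, map_sub, map_smul, map_smul, hJ.sq]
    simp only [polar_sub_left, polar_smul_left, smul_eq_mul]
    module
  · intro x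
    rcases h with h | h
    · have e1 : J' (J u) = τ • J u - ν • u := by
        rw [← h, hJ'.sq]
      rw [hN, hN, hJ'.adj' u x, hJ'.adj' (J u) x, map_sub, map_smul, map_smul, e1, h]
      simp only [polar_sub_left, polar_smul_left, smul_eq_mul]
      module
    · have e0 : J u = τ • u - J' u := by
        rw [h]
        module
      have e1 : J' (J u) = ν • u := by
        rw [e0, map_sub, map_smul, hJ'.sq]
        module
      rw [hN, hN, hJ'.adj' u x, hJ'.adj' (J u) x, map_sub, map_smul, map_smul, e1, h]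
      simp only [polar_sub_left, polar_smul_left, smul_eq_mul]
      module

theorem tstep [Finite F] [FiniteDimensional F V] (hnd : (polarBilin Q).Nondegenerate)
    (hdim : 5 ≤ finrank F V) (K : Subgroup (orth Q))
    (hK : ∀ (u v : V) (hu : Q u = 0) (huv : polar Q u v = 0), eich Q u v hu huv ∈ K)
    {τ ν : F} (hirr : ∀ c : F, c ^ 2 - τ * c + ν ≠ 0) (hΔ : τ ^ 2 - 4 * ν ≠ 0) {J J' : V →ₗ[F] V}
    (hJ : UnitaryLike Q τ ν J) (hJ' : UnitaryLike Q τ ν J') : Good Q K J J' := by
  classical
  set Vp : Submodule F V := LinearMap.ker (J' - J) with hVp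
  set Vm : Submodule F V := LinearMap.ker (J' + J - τ • LinearMap.id) with hVm
  have mVp : ∀ x, x ∈ Vp ↔ J' x = J x := by
    intro x
    rw [hVp, LinearMap.mem_ker, LinearMap.sub_apply, sub_eq_zero]
  have mVm : ∀ x, x ∈ Vm ↔ J' x = τ • x - J x := by
    intro x
    rw [hVm, LinearMap.mem_ker, LinearMap.sub_apply, LinearMap.add_apply, LinearMap.smul_apply,
      LinearMap.id_apply, sub_eq_zero]
    constructor
    · intro h
      rw [← h]
      abel
    · intro h
      rw [h]
      abel
  -- large `Vp` or `Vm`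
  by_cases hp3 : 3 ≤ finrank F Vp
  · obtain ⟨u, hu, hu0, hQu⟩ := exists_singular Q Vp hp3
    exact good_of_vector hnd K hK hirr hJ hJ' hu0 hQu (Or.inl ((mVp u).1 hu))
  by_cases hm3 : 3 ≤ finrank F Vm
  · obtain ⟨u, hu, hu0, hQu⟩ := exists_singular Q Vm hm3
    exact good_of_vector hnd K hK hirr hJ hJ' hu0 hQu (Or.inr ((mVm u).1 hu))
  -- the complement `X`
  set X : Submodule F V := perp Q (Vp ⊔ Vm) with hX
  have hXfr : finrank F X = finrank F V - finrank F ↥(Vp ⊔ Vm) := finrank_perp hnd _
  have hsup : finrank F ↥(Vp ⊔ Vm) ≤ finrank F Vp + finrank F Vm := by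
    have := Submodule.finrank_sup_add_finrank_inf_eq Vp Vm
    omega
  have hXpos : 0 < finrank F X := by omega
  -- stability of the subspaces
  have pJ : ∀ x ∈ Vp, J x ∈ Vp := by
    intro x hx
    rw [mVp] at hx ⊢
    rw [← hx, hJ'.sq, hx, hJ.sq]
  have pJ' : ∀ x ∈ Vp, J' x ∈ Vp := by
    intro x hx
    have h := (mVp x).1 hx
    rw [h]
    exact pJ x hx
  have mJ : ∀ x ∈ Vm, J x ∈ Vm := by
    intro x hx
    have h := (mVm x).1 hx
    rw [mVm, hJ.sq]
    have e0 : J x = τ • x - J' x := by
      rw [h]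
      module
    rw [e0, map_sub, map_smul, hJ'.sq]
    module
  have mJ' : ∀ x ∈ Vm, J' x ∈ Vm := by
    intro x hx
    have h := (mVm x).1 hx
    rw [h]
    exact Vm.sub_mem (Vm.smul_mem _ hx) (mJ x hx)
  have supJ : ∀ x ∈ Vp ⊔ Vm, J x ∈ Vp ⊔ Vm := by
    intro x hx
    obtain ⟨a, ha, b, hb, rfl⟩ := Submodule.mem_sup.1 hx
    rw [map_add]
    exact Submodule.add_mem_sup (pJ a ha) (mJ b hb)
  have supJ' : ∀ x ∈ Vp ⊔ Vm, J' x ∈ Vp ⊔ Vm := by
    intro x hx
    obtain ⟨a, ha, b, hb, rfl⟩ := Submodule.mem_sup.1 hx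
    rw [map_add]
    exact Submodule.add_mem_sup (pJ' a ha) (mJ' b hb)
  have perpJ : ∀ W : Submodule F V, (∀ x ∈ W, J x ∈ W) → ∀ x ∈ perp Q W, J x ∈ perp Q W := by
    intro W hW x hx
    rw [mem_perp] at hx ⊢
    intro w hw
    rw [hJ.adj']
    exact hx _ (W.sub_mem (W.smul_mem _ hw) (hW w hw))
  have perpJ' : ∀ W : Submodule F V, (∀ x ∈ W, J' x ∈ W) → ∀ x ∈ perp Q W, J' x ∈ perp Q W := by
    intro W hW x hx
    rw [mem_perp] at hx ⊢
    intro w hw
    rw [hJ'.adj']
    exact hx _ (W.sub_mem (W.smul_mem _ hw) (hW w hw))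
  -- a minimal invariant subspace of `X`
  obtain ⟨S, ⟨hSne, hSX, hSJ, hSJ'⟩, hSmin⟩ :
      ∃ S : Submodule F V, (S ≠ ⊥ ∧ S ≤ X ∧ (∀ x ∈ S, J x ∈ S) ∧ (∀ x ∈ S, J' x ∈ S)) ∧
        ∀ P : Submodule F V, (P ≠ ⊥ ∧ P ≤ X ∧ (∀ x ∈ P, J x ∈ P) ∧ (∀ x ∈ P, J' x ∈ P)) →
          finrank F S ≤ finrank F P := by
    let 𝒜 : Set (Submodule F V) := {P | P ≠ ⊥ ∧ P ≤ X ∧ (∀ x ∈ P, J x ∈ P) ∧ (∀ x ∈ P, J' x ∈ P)}
    have hne : 𝒜.Nonempty := ⟨X, by
      refine ⟨?_, le_rfl, perpJ _ supJ, perpJ' _ supJ'⟩
      intro h0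
      rw [h0, finrank_bot] at hXpos
      omega⟩
    obtain ⟨S, hS, hmin⟩ := (measure (fun P : Submodule F V => finrank F P)).wf.has_min 𝒜 hne
    exact ⟨S, hS, fun P hP => not_lt.1 (hmin P hP)⟩
  have hSirr : ∀ P : Submodule F V, P ≤ S → (∀ x ∈ P, J x ∈ P) → (∀ x ∈ P, J' x ∈ P) →
      P = ⊥ ∨ P = S := by
    intro P hPS h1 h2
    by_cases hP : P = ⊥
    · exact Or.inl hP
    · right
      exact Submodule.eq_of_le_of_finrank_le hPS (hSmin P ⟨hP, hPS.trans hSX, h1, h2⟩)
  -- the case of commuting restrictions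
  by_cases hcomm : ∀ x ∈ S, J (J' x) = J' (J x)
  · obtain ⟨x, hxS, hx0⟩ := Submodule.exists_mem_ne_zero_of_ne_bot hSne
    obtain ⟨u, huS, hu0, hu⟩ : ∃ u ∈ S, u ≠ 0 ∧ (J' u = J u ∨ J' u = τ • u - J u) := by
      by_cases hw : J' x + J x - τ • x = 0
      · refine ⟨x, hxS, hx0, Or.inr ?_⟩
        have : J' x = (J' x + J x - τ • x) + (τ • x - J x) := by module
        rw [this, hw, zero_add]
      · refine ⟨_, ?_, hw, Or.inl ?_⟩
        · exact S.sub_mem (S.add_mem (hSJ' x hxS) (hSJ x hxS)) (S.smul_mem _ hxS)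
        · rw [map_sub, map_add, map_smul, map_sub, map_add, map_smul, hJ'.sq, hJ.sq, hcomm x hxS]
          module
    have huX : ∀ w ∈ Vp ⊔ Vm, polar Q w u = 0 := by
      have := hSX huS
      rw [hX, mem_perp] at this
      exact this
    have huV : u ∈ Vp ⊔ Vm := by
      rcases hu with h | h
      · exact Submodule.mem_sup_left ((mVp u).2 h)
      · exact Submodule.mem_sup_right ((mVm u).2 h)
    have hQu : Q u = 0 := by
      apply eq_zero_of_two_tau hΔ
      · rw [← polar_self']
        exact huX u huV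
      · rw [← hJ.pv, polar_comm]
        exact huX _ (supJ u huV)
    exact good_of_vector hnd K hK hirr hJ hJ' hu0 hQu hu
  -- the noncommuting case
  let JS : Module.End F S := J.restrict hSJ
  let J'S : Module.End F S := J'.restrict hSJ'
  have hJS : ∀ x : S, ((JS x : S) : V) = J x := fun x => rfl
  have hJ'S : ∀ x : S, ((J'S x : S) : V) = J' x := fun x => rfl
  let z : Module.End F S := τ • JS + τ • J'S - JS * J'S - J'S * JS
  have hz : ∀ x : S, z x = τ • JS x + τ • J'S x - JS (J'S x) - J'S (JS x) := fun x => rfl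
  have hJS2 : ∀ x : S, JS (JS x) = τ • JS x - ν • x := by
    intro x
    apply Subtype.ext
    simp only [Submodule.coe_sub, Submodule.coe_smul, hJS]
    exact hJ.sq _
  have hJ'S2 : ∀ x : S, J'S (J'S x) = τ • J'S x - ν • x := by
    intro x
    apply Subtype.ext
    simp only [Submodule.coe_sub, Submodule.coe_smul, hJ'S]
    exact hJ'.sq _
  have hzJ : z * JS = JS * z := by
    ext x
    simp only [Module.End.mul_apply, hz, map_sub, map_add, map_smul, hJS2]
    congr 1
    module
  have hzJ' : z * J'S = J'S * z := by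
    ext x
    simp only [Module.End.mul_apply, hz, map_sub, map_add, map_smul, hJ'S2]
    congr 1
    module
  have hpJ : ∀ p : F[X], (aeval z p) * JS = JS * (aeval z p) := by
    intro p
    induction p using Polynomial.induction_on' with
    | add p q hp hq => rw [map_add, add_mul, mul_add, hp, hq]
    | monomial n a =>
      rw [aeval_monomial, mul_assoc, (Commute.pow_left (show Commute z JS from hzJ) n).eq,
        ← mul_assoc, ← mul_assoc, (Algebra.commutes a JS)]
  have hpJ' : ∀ p : F[X], (aeval z p) * J'S = J'S * (aeval z p) := by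
    intro p
    induction p using Polynomial.induction_on' with
    | add p q hp hq => rw [map_add, add_mul, mul_add, hp, hq]
    | monomial n a =>
      rw [aeval_monomial, mul_assoc, (Commute.pow_left (show Commute z J'S from hzJ') n).eq,
        ← mul_assoc, ← mul_assoc, (Algebra.commutes a J'S)]
  have hSne' : ∃ x : S, x ≠ 0 := by
    obtain ⟨x, hxS, hx0⟩ := Submodule.exists_mem_ne_zero_of_ne_bot hSne
    exact ⟨⟨x, hxS⟩, fun h => hx0 (congrArg Subtype.val h)⟩
  -- subspaces of `S`
  have hSirr' : ∀ P : Submodule F S, (∀ x ∈ P, JS x ∈ P) → (∀ x ∈ P, J'S x ∈ P) →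
      P = ⊥ ∨ P = ⊤ := by
    intro P h1 h2
    rcases hSirr (P.map S.subtype) (Submodule.map_subtype_le _ _) (by
      rintro x ⟨y, hy, rfl⟩
      exact ⟨JS y, h1 y hy, rfl⟩) (by
      rintro x ⟨y, hy, rfl⟩
      exact ⟨J'S y, h2 y hy, rfl⟩) with h | h
    · left
      apply Submodule.map_injective_of_injective S.injective_subtype
      rw [h, Submodule.map_bot]
    · right
      rw [eq_top_iff]
      intro x _
      have : (x : V) ∈ P.map S.subtype := by
        rw [h]
        exact x.2
      obtain ⟨y, hy, hyx⟩ := this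
      have : y = x := Subtype.ext hyx
      rwa [this] at hy
  have hinj : ∀ p : F[X], aeval z p ≠ 0 → ∀ x : S, aeval z p x = 0 → x = 0 := by
    intro p hp x hx
    rcases hSirr' (LinearMap.ker (aeval z p)) (by
      intro y hy
      rw [LinearMap.mem_ker] at hy ⊢
      have := LinearMap.congr_fun (hpJ p) y
      rw [Module.End.mul_apply, Module.End.mul_apply] at this
      rw [this, hy, map_zero]) (by
      intro y hy
      rw [LinearMap.mem_ker] at hy ⊢
      have := LinearMap.congr_fun (hpJ' p) y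
      rw [Module.End.mul_apply, Module.End.mul_apply] at this
      rw [this, hy, map_zero]) with h | h
    · have : x ∈ LinearMap.ker (aeval z p) := hx
      rw [h] at this
      simpa using this
    · exact absurd (LinearMap.ker_eq_top.1 h) hp
  obtain ⟨K', _, _, _, _, _, hK1, hK2⟩ := exists_field z hSne' hinj
  obtain ⟨ζ, hζ⟩ := hK2 Polynomial.X
  have hζ' : ∀ x : S, ζ • x = z x := by
    intro x
    rw [hζ, aeval_X]
  have hlinJ : ∀ (κ : K') (x : S), JS (κ • x) = κ • JS x := by
    intro κ x
    obtain ⟨p, hp⟩ := hK1 κ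
    rw [hp, hp]
    have := LinearMap.congr_fun (hpJ p) x
    rw [Module.End.mul_apply, Module.End.mul_apply] at this
    exact this.symm
  have hlinJ' : ∀ (κ : K') (x : S), J'S (κ • x) = κ • J'S x := by
    intro κ x
    obtain ⟨p, hp⟩ := hK1 κ
    rw [hp, hp]
    have := LinearMap.congr_fun (hpJ' p) x
    rw [Module.End.mul_apply, Module.End.mul_apply] at this
    exact this.symm
  let JK : S →ₗ[K'] S := { toFun := JS, map_add' := map_add JS, map_smul' := hlinJ }
  let J'K : S →ₗ[K'] S := { toFun := J'S, map_add' := map_add J'S, map_smul' := hlinJ' }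
  have hJK : ∀ x, JK x = JS x := fun x => rfl
  have hJ'K : ∀ x, J'K x = J'S x := fun x => rfl
  have : FiniteDimensional F K' := Module.Finite.of_finite (R := F) (M := K')
  have hfdK : FiniteDimensional K' S := Module.Finite.of_restrictScalars_finite F K' S
  have hrel : Rel JK J'K (algebraMap F K' τ) (algebraMap F K' ν) ζ := by
    constructor
    · intro x
      rw [hJK, hJK, hJS2, algebraMap_smul, algebraMap_smul]
    · intro x
      rw [hJ'K, hJ'K, hJ'S2, algebraMap_smul, algebraMap_smul]
    · intro x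
      rw [hζ', hJK, hJ'K, hJ'K, hJK, hz, algebraMap_smul, algebraMap_smul]
      module
  have hΔ' : (algebraMap F K' τ) ^ 2 - 4 * (algebraMap F K' ν) ≠ 0 := by
    intro h
    apply hΔ
    apply (algebraMap F K').injective
    rw [map_sub, map_pow, map_mul, map_ofNat, map_zero]
    exact h
  have hD : Dmap JK J'K ≠ 0 := by
    intro h0
    apply hcomm
    intro x hx
    have h1 := LinearMap.congr_fun h0 ⟨x, hx⟩
    rw [Dmap_apply, LinearMap.zero_apply, sub_eq_zero] at h1
    exact congrArg Subtype.val h1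
  obtain ⟨hfr, hDinj⟩ := finrank_eq_two hrel hΔ' hD (by
    intro P h1 h2
    rcases hSirr' (P.restrictScalars F) h1 h2 with h | h
    · left
      rwa [Submodule.restrictScalars_eq_bot_iff] at h
    · right
      rwa [Submodule.restrictScalars_eq_top_iff] at h)
  -- the radical of `S`
  rcases hSirr (S ⊓ perp Q S) inf_le_left (by
    intro x hx
    exact ⟨hSJ x hx.1, perpJ S hSJ x hx.2⟩) (by
    intro x hx
    exact ⟨hSJ' x hx.1, perpJ' S hSJ' x hx.2⟩) with hrad | hrad
  · -- nondegenerate: impossible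
    exfalso
    let B : LinearMap.BilinForm F S := LinearMap.BilinForm.restrict (polarBilin Q) S
    have hB : ∀ x y : S, B x y = polar Q x y := fun x y => rfl
    have hsep : ∀ x : S, (∀ y : S, B x y = 0) → x = 0 := by
      intro x hx
      have : (x : V) ∈ S ⊓ perp Q S := by
        refine ⟨x.2, ?_⟩
        change (x : V) ∈ perp Q S
        rw [mem_perp]
        intro w hw
        rw [polar_comm]
        exact hx ⟨w, hw⟩
      rw [hrad] at this
      exact Subtype.ext (by simpa using this)
    have hBnd : B.Nondegenerate := by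
      refine ⟨hsep, ?_⟩
      intro x hx
      apply hsep
      intro y
      rw [hB, polar_comm]
      exact hx y
    have hzadj : ∀ x y : S, B (z x) y = B x (z y) := by
      intro x y
      rw [hB, hB, hz, hz]
      simp only [Submodule.coe_sub, Submodule.coe_add, Submodule.coe_smul, hJS, hJ'S,
        polar_sub_left, polar_add_left, polar_smul_left, polar_sub_right, polar_add_right,
        polar_smul_right, hJ.adj, hJ'.adj, map_sub, map_smul, smul_eq_mul]
      ring
    have hpadj : ∀ (p : F[X]) (x y : S), B (aeval z p x) y = B x (aeval z p y) := by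
      intro p
      induction p using Polynomial.induction_on' with
      | add p q hp hq =>
        intro x y
        rw [map_add, LinearMap.add_apply, LinearMap.add_apply, map_add, LinearMap.add_apply, hp, hq,
          map_add]
      | monomial n a =>
        intro x y
        rw [aeval_monomial, Module.End.mul_apply, Module.End.mul_apply,
          Module.algebraMap_end_apply, Module.algebraMap_end_apply, map_smul, LinearMap.smul_apply,
          map_smul]
        congr 1
        induction n generalizing x y with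
        | zero => rfl
        | succ n ih =>
          rw [pow_succ, Module.End.mul_apply, ih, hzadj, ← Module.End.mul_apply z (z ^ n) y,
            ← pow_succ', pow_succ]
    have hKadj : ∀ (κ : K') (x y : S), B (κ • x) y = B x (κ • y) := by
      intro κ x y
      obtain ⟨p, hp⟩ := hK1 κ
      rw [hp, hp]
      exact hpadj p x y
    refine beta hrel B hBnd (fun x y => polar_comm _ _ _) hKadj ?_ ?_ ?_ hfr hDinj
    · intro x y
      rw [algebraMap_smul]
      exact hJ.adj _ _
    · intro x y
      rw [algebraMap_smul]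
      exact hJ'.adj _ _
    · intro x
      change polar Q (x : V) (J x) = polar Q (x : V) (J' x)
      rw [hJ.pv, hJ'.pv]
  · -- totally singular
    have hSperp : ∀ x ∈ S, ∀ y ∈ S, polar Q x y = 0 := by
      intro x hx y hy
      have : y ∈ perp Q S := by
        have h1 : y ∈ S ⊓ perp Q S := by rw [hrad]; exact hy
        exact h1.2
      rw [mem_perp] at this
      exact this x hx
    have hSQ : ∀ x ∈ S, Q x = 0 := by
      intro x hx
      apply eq_zero_of_two_tau hΔ
      · rw [← polar_self']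
        exact hSperp x hx x hx
      · rw [← hJ.pv]
        exact hSperp x hx _ (hSJ x hx)
    have hns : ¬ ∃ c : K', ∀ x, JK x = c • x := by
      rintro ⟨c, hc⟩
      apply hD
      ext x
      rw [Dmap_apply, hc, hc, map_smul]
      simp
    have hns' : ¬ ∃ c : K', ∀ x, J'K x = c • x := by
      rintro ⟨c, hc⟩
      apply hD
      ext x
      rw [Dmap_apply, hc, hc, map_smul]
      simp
    obtain ⟨C, hC0, hCS, hCp, hCJ, hCJ'⟩ := exists_skew Q hnd S hfr τ ν J J' hJ.adj hJ'.adj JK J'K
      (fun x => rfl) (fun x => rfl) hrel.h1 hrel.h2 hns hns'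
    obtain ⟨T, hTK, hT⟩ := exists_prod Q hnd K hK S hSQ (finrank F (LinearMap.range C)) C hCS hCp
      le_rfl
    refine ⟨T, C, hTK, hT, hC0, ?_, hCJ, hCJ'⟩
    intro x
    by_contra hne
    obtain ⟨y, hy⟩ := exists_polar_ne_zero hnd hne
    apply hy
    have hskew : ∀ a b, polar Q (C a) b = - polar Q (C b) a := by
      intro a b
      have h1 := hCp (a + b)
      rw [map_add, polar_add_left, polar_add_right, polar_add_right, hCp, hCp] at h1
      linear_combination h1
    rw [hskew, hSperp _ (hCS y) _ (hCS x), neg_zero]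

end Pool.Agent.H49.UDN
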